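import Pool.Agent.Lib.MP_688fd0_co.SQ5.H98.LstT
import Pool.Agent.Lib.MP_688fd0_co.SQ5.H84.NumMono
import Pool.Agent.Lib.MP_688fd0_co.SQ5.H87.Star4

/-!
FT, the branch T (helper98): `lst_T`: the output of `nums_lay` for the layout with a wide strip and two windows gives `Lst A`.
-/

set_option autoImplicit false

namespace Pool.Agent.Lib.MP_688fd0_co.SQ5.H98

open Function Pool.Agent.Lib.MP_688fd0_co.OSF Pool.Agent.Lib.MP_688fd0_co.SQ5.H64 Pool.Agent.Lib.MP_688fd0_co.SQ5.H95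
  Pool.Agent.Lib.MP_688fd0_co.SQ5.FT Pool.Agent.Lib.MP_688fd0_co.SQ5.H76 Pool.Agent.Lib.MP_688fd0_co.SQ5.H85
  Pool.Agent.Lib.MP_688fd0_co.SQ5.H12 Pool.Agent.Lib.MP_688fd0_co.SQ5.H58 Pool.Agent.Lib.MP_688fd0_co.SQ5.H84
  Pool.Agent.Lib.MP_688fd0_co.SQ3 Pool.Agent.Lib.MP_688fd0_co.SQ5.H24 Pool.Agent.Lib.MP_688fd0_co.SQ5.H49.BaseZ

variable {G : Type} [Group G] [Finite G] {N C : Subgroup G} {eps : G →* ℤˣ} {k P : ℕ} {A : Set G} {c₁ : ℕ} {a t b : G}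

/-- THE BRANCH T. -/
theorem lst_T {c₀ : ℕ} (h : SQD.Inv N C eps k P A c₁ a t b) (hM : SQD.Marg N k c₀) (hc₀ : 1 ≤ c₀)
    (hout : ∃ g ∈ A, g ∉ Subgroup.closure ({a, t, b} : Set G)) (hCk : 0 < Nat.card C * k)
    (hcen : ∀ o : ℕ, k * Nat.card C ∣ o → ∀ B : G, B ^ o ∈ N ∧ (∀ g, eps g = 1 → B ^ o * g = g * B ^ o) ∧
      ∀ g, eps g = -1 → g * B ^ o * g⁻¹ = (B ^ o)⁻¹)
    {s a' b' : Fin 3} (hsa : s ≠ a') (hsb : s ≠ b') (hab : a' ≠ b')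
    (hnc : H59.NCen (eps0 eps (Subgroup.closure ({a, t, b} : Set G)))
      ((x0 (ivT h) a' * x0 (ivT h) b') * (x0 (ivT h) a' * x0 (ivT h) b')))
    {r w : ℕ} (hr : 1 ≤ r) (hwk : k + 2 ≤ w) (hw5 : 5 ≤ w) {n mm nh m TT Gr K E gap U : ℕ}
    (hn : NumT (2 * r + 2 * w + 1) n k (2 * w * Nat.card (KH eps (Subgroup.closure ({a, t, b} : Set G)))) 4 mm
      (3 * (k * Nat.card C)) (k * Nat.card C) (8 * (3 * (k * Nat.card C))) nh m TT Gr K E gap U) (hmm : mmT k ≤ mm)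
    (hn4 : (k + (Nat.card G).primeFactorsList.length + 2) ^ 4 ≤ n) {D : ℤ} (hD4 : D % 4 = 2) (hD : 6 ≤ D)
    (hgood : goodT (x0 (ivT h)) s a' b' D) {R : ℕ} (hR0 : 2 * r + 2 * w + 1 + 5 ≤ R) (hR : R ≤ 2 * r + 2 * w + 1 + 33)
    {g : Geo (Ltc (hhT eps (Subgroup.closure ({a, t, b} : Set G)) ![a, t, b] a' -
        hhT eps (Subgroup.closure ({a, t, b} : Set G)) ![a, t, b] s)
        (hhT eps (Subgroup.closure ({a, t, b} : Set G)) ![a, t, b] b' -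
          hhT eps (Subgroup.closure ({a, t, b} : Set G)) ![a, t, b] s))
      (Nat.card (Th eps (Subgroup.closure ({a, t, b} : Set G)))) R
      (dcL (2 * r + 2 * w + 1) (dW (dB r (2 * w)) (r + w) D)) (spL (2 * r + 2 * w + 1)) Gr}
    (hL : Lay g k nh m TT (2 * r + 2 * w + 1))
    (h1 : 2 * (Nat.card (Th eps (Subgroup.closure ({a, t, b} : Set G))) : ℤ) ≤
      (g.i0 + g.j0) * (D + H84.Wg (2 * r + 2 * w + 1) nh k))
    (h2 : g.i0 - g.j0 < 2 * K) (h3 : (E : ℤ) < g.i0 + g.j0)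
    (h4 : (g.i0 + g.j0) * K ≤ Nat.card (Th eps (Subgroup.closure ({a, t, b} : Set G)))) : Lst A := by
  classical
  have iF : Fintype (Subgroup.closure ({a, t, b} : Set G)) := Fintype.ofFinite _
  have hkC : 1 ≤ k * Nat.card C := by rw [Nat.mul_comm]; exact hCk
  have hn1 := hn.le_mm hmm
  have hN : ∀ z : Zr g, 8 * (3 * (k * Nat.card C)) ≤ g.rE z := by
    intro z
    have e2 := rE_ge g z
    have e3 : ((gap + 8 * (3 * (k * Nat.card C)) + 1 : ℕ) : ℤ) ≤ (Gr : ℕ) := by exact_mod_cast hn.hlen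
    push_cast at e3
    have e4 : ((8 * (3 * (k * Nat.card C)) : ℕ) : ℤ) ≤ (g.rE z : ℕ) := by
      push_cast
      linarith [Int.natCast_nonneg gap]
    exact_mod_cast e4
  have k0 : (2 : ℤ) ≤ r + 1 := by omega
  have k1 : (r : ℤ) + 2 * w + 2 ≤ (2 * r + 2 * w + 1 : ℕ) := by push_cast; omega
  have hp : 2 ≤ 8 * (3 * (k * Nat.card C)) := by omega
  obtain ⟨U0, -, bT⟩ := base_G0 (ivT h) hsa hsb hab (B0 := BB0 h) (l0 := ll0 h s a' b') rfl rfl rfl h.gn (dvd_G0 h)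
    (A0 := {y : Subgroup.closure ({a, t, b} : Set G) | (y : G) ∈ A}) lA0_inv
    (lA0_hq (xL_inj (inv_inj h) hsa hsb hab)) lA0_ii (fun i => xL_A h s a' b' i) hnc hr hwk hw5 hD hD4 hgood hR0 hR
    (Ltc_G0 (ivT h) s a' b') hL hn1 k0 k1 hp hN
  refine lst_br h hM hc₀ hout hcen hsa hsb hab hn hn4 hkC dvd_rfl hL _ (kk := r + w) (by omega)
    (fun h5 => by have := h5.1; omega) ?_ h2 h3 h4 H87.Star2.star4S bT ?_ ?_ ?_ ?_ ?_ ?_
  · rw [dcL_al (fun h5 => by have := h5.1; omega), dW_self]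
    exact h1
  · intro z s
    show (s.1.1 = (r : ℤ) + w + 1 ∨ s.1.1 = (r : ℤ) + w + 1 + 1) ↔ _
    push_cast
    omega
  · push_cast; omega
  · push_cast; omega
  · push_cast; omega
  · push_cast; omega
  · omega

end Pool.Agent.Lib.MP_688fd0_co.SQ5.H98
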