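import Pool.Agent.Lib.MP_688fd0_co.SQ5.H98.Near
import Pool.Agent.Lib.MP_688fd0_co.SQ5.H97.FlipN
import Pool.Agent.Lib.MP_688fd0_co.SQ5.H68.TreeN
import Pool.Agent.Lib.MP_688fd0_co.SQ5.N.DstrN
import Pool.Agent.Lib.MP_688fd0_co.SQ5.H96.Bridge

/-!
NEAR-3: the result.
-/

set_option autoImplicit false

namespace Pool.Agent.Lib.MP_688fd0_co.SQ5.N

/-- NEAR-3 at the level of `Q`. -/
theorem nearN3 : NearNS := nearOf flipN H68.treeN dstrN

/-- NEAR-3. -/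
theorem near3S : SQD.Near3S := near3 nearN3

end Pool.Agent.Lib.MP_688fd0_co.SQ5.N
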