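import Pool.Agent.Lib.MP_688fd0_co.SQ5.H98.TranspC
import Pool.Agent.Lib.MP_688fd0_co.SQ5.H85.PlanX
import Pool.Agent.Lib.MP_688fd0_co.SQ5.FT.AsmI

/-!
FT, the fit (helper98): `Star4S`, a base on `G0` (helper49), a plan on `G` (helper12) and fictitious labels give `Lst A`.

`lst_fit`: any labels. `LbA`, `lst_fitA`: the labels are the elements of `A` and all elements `≠ 1` as fictitious labels.
-/

set_option autoImplicit false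

namespace Pool.Agent.Lib.MP_688fd0_co.SQ5.H98

open Function Pool.Agent.Lib.MP_688fd0_co.OSF H64 H95 FT Pool.Agent.Lib.MP_688fd0_co.SQ5.H76
  Pool.Agent.Lib.MP_688fd0_co.SQ5.H85 Pool.Agent.Lib.MP_688fd0_co.SQ5.H12

universe u v w

/-- THE FIT. -/
theorem lst_fit {G : Type} [Group G] [Finite G] {G0 : Subgroup G} {B : Lb.{0, v} G} {B0 : Lb.{0, v} G0} {σ : Sec G0}
    {e : Emb B B0} {l : L3 → B.L} {l0 : L3 → B0.L} {L : AddSubgroup (ℤ × ℤ)} {c : Cov B l L} {c0 : Cov B0 l0 L}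
    {M R : ℕ} {dc : ℕ → ℤ} {spc : ℕ → Prop} {Gr : ℤ} {g : Geo L M R dc spc Gr} {m0 : ℕ} {hw : ℤ → ℕ}
    {H : Geo.Mn g m0 hw} {κ0 κ1 : ℤ} (hi0 : ∀ i, B0.inv (l0 i) = l0 i) (hq0 : Injective (qq B0 l0))
    (hii0 : ∀ x, B0.inv (B0.inv x) = x)
    (hov : ∀ (k : G ⧸ G0) (x : G0) (v : V), c.Over (σ.ρ k * x) v ↔ c0.Over x v)
    (hl : ∀ i, l i = e.φ (l0 i)) {hi : ∀ i, B.inv (l i) = l i} (hii : ∀ x, B.inv (B.inv x) = x)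
    {A : Set G} {cS : ℕ} (hS : Star4S cS) {h0 : 2 ≤ κ0} {h1 : κ1 ≤ m0} {p : ℕ} {hp : 2 ≤ p}
    {hN : ∀ z : Zr g, p ≤ g.rE z} {Vs W : ∀ z : Zr g, Set (SS c0 H κ0 κ1 z)} {Λ : ∀ z, SimpleGraph (Vs z)} {U : Zr g → G0}
    {nb mm : Zr g → ℕ} {kk u gap pd m : ℕ} {ξ : Zr g → Unit} [∀ z : Zr g, DecidableEq (SS c0 H κ0 κ1 z)]
    (b : BaseT {x : G0 | (x : G) ∈ A} cS (inst H c0 hi0 hq0 hii0 κ0 κ1 h0 h1 p hp hN) Vs W Λ U nb mm (fun _ => gap) ξ)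
    (hW : ∀ z s, s ∈ W z ↔ (kk : ℤ) + 1 ≤ s.1.1 ∧ s.1.1 ≤ (kk : ℤ) + 2) (P : Plan c hi H G0 A kk u gap pd m)
    (lab : ∀ x ∈ A, ∃ b : B.L, B.q b = x) (hA : ∀ i, B.q (l i) ∈ A) (hsym : ∀ x ∈ A, x⁻¹ ∈ A)
    (fic : ∀ x : G, x ≠ 1 → ∃ φ : B.L, B.q φ = x ∧ ∀ i, φ ≠ l i) (hk0 : 2 ≤ (kk : ℤ) + 1) (hk1 : (kk : ℤ) + 2 ≤ m0)
    (hκ0 : κ0 ≤ (kk : ℤ) + 1) (hκ1 : (kk : ℤ) + 2 ≤ κ1) (hpd : p ≤ pd + 1) : Lst A := by
  classical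
  have iF : Fintype G := Fintype.ofFinite G
  have hqe : ∀ i, B.q (l i) = (B0.q (l0 i) : G) := fun i => by rw [hl, e.q]
  have hq : Injective (qq B l) := fun i j h => by
    apply hq0
    apply Subtype.ext
    show (B0.q (l0 i) : G) = B0.q (l0 j)
    rw [← hqe, ← hqe]
    exact h
  have hlj : Injective l := injL hq
  obtain ⟨X, Y, hXl, bX⟩ := base_all (σ := σ) hi0 hq0 hii0 hov hl hlj hi hii (A := A) (A0 := {x : G0 | (x : G) ∈ A})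
    (fun x hx => hx) b hW
  obtain ⟨D⟩ := thrR_of_plan P (fun i => by rw [hqe]; exact (B0.q (l0 i)).2) lab hlj hii hk0 hk1 hq Y hκ0 hκ1
    (fun z => by
      rw [hXl, show p - 1 + 1 = p by omega]
      have h2 := Nat.div_add_mod (g.rE z.2) p
      have h3 := Nat.mod_lt (g.rE z.2) (show 0 < p by omega)
      have h4 : g.rE (z.2 : ℤ) / p * p = p * (g.rE z.2 / p) := Nat.mul_comm _ _
      rw [h4]
      omega) hA hsym fic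
  refine coreT hS (fun d => ?_) bX D
  obtain ⟨i, hd⟩ := Vts.F_range hlj hii d.2
  rw [hd]
  exact hA i

/-! ### The labels -/

section lab

variable {G : Type} [Group G]

/-- The labels: the elements of `A`. -/
def LbA (A : Set G) (h2 : ∀ x ∈ A, x * x = 1) (h1 : ∀ x ∈ A, x ≠ 1) : Lb.{0, 0} G where
  L := A
  q := Subtype.val
  inv := id
  q_inv x := (inv_eq_of_mul_eq_one_right (h2 _ x.2)).symm
  ne_one x := h1 _ x.2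

variable {A : Set G} {h2 : ∀ x ∈ A, x * x = 1} {h1 : ∀ x ∈ A, x ≠ 1}

/-- The three letters as labels. -/
def lA (h2 : ∀ x ∈ A, x * x = 1) (h1 : ∀ x ∈ A, x ≠ 1) (x : L3 → G) (hx : ∀ i, x i ∈ A) (i : L3) : (LbF (LbA A h2 h1)).L :=
  Sum.inl ⟨x i, hx i⟩

/-- The three letters as labels of the subgroup. -/
def lA0 (G0 : Subgroup G) (h2 : ∀ x ∈ A, x * x = 1) (h1 : ∀ x ∈ A, x ≠ 1) (x : L3 → G) (hx : ∀ i, x i ∈ A)
    (hG : ∀ i, x i ∈ G0) (i : L3) : (subLb (LbA A h2 h1) G0).L :=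
  ⟨⟨x i, hx i⟩, hG i⟩

variable {G0 : Subgroup G} {x : L3 → G} {hx : ∀ i, x i ∈ A} {hG : ∀ i, x i ∈ G0}

theorem lA_q (i : L3) : (LbF (LbA A h2 h1)).q (lA h2 h1 x hx i) = x i := rfl

theorem lA0_q (i : L3) : (subLb (LbA A h2 h1) G0).q (lA0 G0 h2 h1 x hx hG i) = ⟨x i, hG i⟩ := rfl

theorem lA_inv (i : L3) : (LbF (LbA A h2 h1)).inv (lA h2 h1 x hx i) = lA h2 h1 x hx i := rfl

theorem lA0_inv (i : L3) : (subLb (LbA A h2 h1) G0).inv (lA0 G0 h2 h1 x hx hG i) = lA0 G0 h2 h1 x hx hG i := rfl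

theorem lA_ii (y : (LbF (LbA A h2 h1)).L) : (LbF (LbA A h2 h1)).inv ((LbF (LbA A h2 h1)).inv y) = y := by
  obtain y | y := y
  · rfl
  · exact congrArg Sum.inr (Subtype.ext (inv_inv y.1))

theorem lA0_ii (y : (subLb (LbA A h2 h1) G0).L) :
    (subLb (LbA A h2 h1) G0).inv ((subLb (LbA A h2 h1) G0).inv y) = y := rfl

theorem lA_hq (hxi : Injective x) : Injective (qq (LbF (LbA A h2 h1)) (lA h2 h1 x hx)) := fun _ _ h => hxi h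

theorem lA0_hq (hxi : Injective x) : Injective (qq (subLb (LbA A h2 h1) G0) (lA0 G0 h2 h1 x hx hG)) := fun _ _ h =>
  hxi (congrArg Subtype.val h)

theorem lA_lab (y : G) (hy : y ∈ A) : ∃ b : (LbF (LbA A h2 h1)).L, (LbF (LbA A h2 h1)).q b = y := ⟨Sum.inl ⟨y, hy⟩, rfl⟩

theorem lA_fic (y : G) (hy : y ≠ 1) :
    ∃ φ : (LbF (LbA A h2 h1)).L, (LbF (LbA A h2 h1)).q φ = y ∧ ∀ i, φ ≠ lA h2 h1 x hx i :=
  ⟨Sum.inr ⟨y, hy⟩, rfl, fun _ h => Sum.inl_ne_inr h.symm⟩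

end lab

/-- The labels of `A` in the subgroup are labels of the group with fictitious labels. -/
def eA {G : Type} [Group G] (G0 : Subgroup G) {A : Set G} (h2 : ∀ x ∈ A, x * x = 1) (h1 : ∀ x ∈ A, x ≠ 1) :
    Emb (LbF (LbA A h2 h1)) (subLb (LbA A h2 h1) G0) := (Emb.sub (LbA A h2 h1) G0).up

/-- THE FIT for the labels of `A` with fictitious labels: the base on `G0` for `B0 = subLb (LbA A) G0`, `l0 = lA0`, the plan on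
`G` for `B = LbF (LbA A)`, `l = lA`. -/
theorem lst_fitA {G : Type} [Group G] [Finite G] {G0 : Subgroup G} {A : Set G} {h2 : ∀ x ∈ A, x * x = 1}
    {h1 : ∀ x ∈ A, x ≠ 1} {x : L3 → G} {hx : ∀ i, x i ∈ A} {hG : ∀ i, x i ∈ G0} (hxi : Injective x) {σ : Sec G0}
    {L : AddSubgroup (ℤ × ℤ)} {c : Cov (LbF (LbA A h2 h1)) (lA h2 h1 x hx) L}
    {c0 : Cov (subLb (LbA A h2 h1) G0) (lA0 G0 h2 h1 x hx hG) L}
    {M R : ℕ} {dc : ℕ → ℤ} {spc : ℕ → Prop} {Gr : ℤ} {g : Geo L M R dc spc Gr} {m0 : ℕ} {hw : ℤ → ℕ}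
    {H : Geo.Mn g m0 hw} {κ0 κ1 : ℤ}
    (hov : ∀ (k : G ⧸ G0) (x : G0) (v : V), c.Over (σ.ρ k * x) v ↔ c0.Over x v)
    {cS : ℕ} (hS : Star4S cS) {k0 : 2 ≤ κ0} {k1 : κ1 ≤ m0} {p : ℕ} {hp : 2 ≤ p}
    {hN : ∀ z : Zr g, p ≤ g.rE z} {Vs W : ∀ z : Zr g, Set (SS c0 H κ0 κ1 z)} {Λ : ∀ z, SimpleGraph (Vs z)} {U : Zr g → G0}
    {nb mm : Zr g → ℕ} {kk u gap pd m : ℕ} {ξ : Zr g → Unit} [∀ z : Zr g, DecidableEq (SS c0 H κ0 κ1 z)]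
    (b : BaseT {x : G0 | (x : G) ∈ A} cS (inst H c0 lA0_inv (lA0_hq hxi) lA0_ii κ0 κ1 k0 k1 p hp hN) Vs W Λ U nb mm
      (fun _ => gap) ξ)
    (hW : ∀ z s, s ∈ W z ↔ (kk : ℤ) + 1 ≤ s.1.1 ∧ s.1.1 ≤ (kk : ℤ) + 2) (P : Plan c lA_inv H G0 A kk u gap pd m)
    (hk0 : 2 ≤ (kk : ℤ) + 1) (hk1 : (kk : ℤ) + 2 ≤ m0) (hκ0 : κ0 ≤ (kk : ℤ) + 1) (hκ1 : (kk : ℤ) + 2 ≤ κ1)
    (hpd : p ≤ pd + 1) : Lst A :=
  lst_fit (e := eA G0 h2 h1) lA0_inv (lA0_hq hxi) lA0_ii hov (fun _ => rfl) lA_ii hS b hW P lA_lab hx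
    (fun y hy => by rw [inv_eq_of_mul_eq_one_right (h2 y hy)]; exact hy) lA_fic hk0 hk1 hκ0 hκ1 hpd

end Pool.Agent.Lib.MP_688fd0_co.SQ5.H98
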