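import Pool.Agent.Lib.MP_688fd0_co.SQ5.N.Iface
import Pool.Agent.Lib.MP_688fd0_co.SQ4.H31.Heart

/-!
Row HEARTN of NEAR-3: the assembly at the level of `Q`.
-/

set_option autoImplicit false

namespace Pool.Agent.Lib.MP_688fd0_co.SQ5.N

open Pool.Agent.Lib.MP_688fd0_co.OSF Pool.Agent.Lib.MP_688fd0_co.SQ2 Pool.Agent.Lib.MP_688fd0_co.SQ3
open Pool.Agent.Lib.MP_688fd0_co.SQ4
open SQ2.V (Puz)

section basic

variable {Q : Type} [Group Q] {B : Lb.{0, 0} Q} {a t b : B.L} {eps : Q →* ℤˣ} {D : Subgroup Q}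
  {u : Q} {i j k : ℕ} (H : HypN B a t b eps D u i j k)
include H

theorem HypN.cud (d : D) : Commute u (d : Q) := (H.cen _ (H.leD d.2)).symm

theorem HypN.w_eq : B.q a * (B.q b)⁻¹ = u ^ (i + j) * (H.wD : Q) := by
  show _ = u ^ (i + j) * ((u ^ (i + j))⁻¹ * (B.q a * (B.q b)⁻¹))
  rw [mul_inv_cancel_left]

theorem HypN.p_eq : B.q a * (B.q t)⁻¹ = u ^ i * (H.pD : Q) := by
  show _ = u ^ i * ((u ^ i)⁻¹ * (B.q a * (B.q t)⁻¹))
  rw [mul_inv_cancel_left]

theorem HypN.w_zpow (l : ℤ) : (B.q a * (B.q b)⁻¹) ^ l = u ^ (((i + j : ℕ) : ℤ) * l) * ((H.wD ^ l : D) : Q) := by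
  rw [H.w_eq, ((H.cud H.wD).pow_left (i + j)).mul_zpow, zpow_mul, zpow_natCast, Subgroup.coe_zpow]

theorem HypN.w_pow (l : ℕ) : (B.q a * (B.q b)⁻¹) ^ l = u ^ ((i + j) * l) * ((H.wD ^ l : D) : Q) := by
  rw [H.w_eq, ((H.cud H.wD).pow_left (i + j)).mul_pow, pow_mul, Subgroup.coe_pow]

/-- The vertex of a strand. -/
theorem HypN.g_st [NeZero (i + j)] (n : ℤ) (d : D) :
    gN D u (i + j) (stN (i + j) H.wD n d) * (B.q a * (B.q b)⁻¹) ^ (n / ((i + j : ℕ) : ℤ)) = u ^ n * d := by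
  have he : (0 : ℤ) < ((i + j : ℕ) : ℤ) := by have := H.ipos; push_cast; omega
  rw [H.w_zpow]
  set l : ℤ := n / ((i + j : ℕ) : ℤ) with hl
  have h0 : gN D u (i + j) (stN (i + j) H.wD n d) =
      u ^ (n % ((i + j : ℕ) : ℤ)) * ((d * H.wD ^ (-l) : D) : Q) := by
    show u ^ ((n % ((i + j : ℕ) : ℤ)).toNat) * ((d * H.wD ^ (-l) : D) : Q) = _
    have h1 : ((n % ((i + j : ℕ) : ℤ)).toNat : ℤ) = n % ((i + j : ℕ) : ℤ) :=
      Int.toNat_of_nonneg (Int.emod_nonneg n he.ne')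
    conv_rhs => rw [← h1, zpow_natCast]
  rw [h0]
  have h2 : ((d * H.wD ^ (-l) : D) : Q) * u ^ (((i + j : ℕ) : ℤ) * l) =
      u ^ (((i + j : ℕ) : ℤ) * l) * ((d * H.wD ^ (-l) : D) : Q) := ((H.cud _).zpow_left _).eq.symm
  calc u ^ (n % ((i + j : ℕ) : ℤ)) * ((d * H.wD ^ (-l) : D) : Q) *
        (u ^ (((i + j : ℕ) : ℤ) * l) * ((H.wD ^ l : D) : Q))
      = u ^ (n % ((i + j : ℕ) : ℤ)) * (((d * H.wD ^ (-l) : D) : Q) * u ^ (((i + j : ℕ) : ℤ) * l)) *
          ((H.wD ^ l : D) : Q) := by group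
    _ = u ^ (n % ((i + j : ℕ) : ℤ)) * u ^ (((i + j : ℕ) : ℤ) * l) *
          (((d * H.wD ^ (-l) : D) : Q) * ((H.wD ^ l : D) : Q)) := by rw [h2]; group
    _ = u ^ n * d := by
      rw [← zpow_add, Int.emod_add_mul_ediv, ← Subgroup.coe_mul, zpow_neg, inv_mul_cancel_right]

/-- The second strand of a rung. -/
theorem HypN.g_y [NeZero (i + j)] (r : RgN (i + j) k D) :
    ∃ c : ℤ, gN D u (i + j) (yN (i + j) H.wD H.pD i k r) * (B.q a * (B.q b)⁻¹) ^ c =
      gN D u (i + j) r.1 * (B.q a * (B.q b)⁻¹) ^ (r.2 : ℕ) * (B.q a * (B.q t)⁻¹)⁻¹ := by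
  refine ⟨_, (H.g_st _ _).trans ?_⟩
  obtain ⟨⟨c, d⟩, l⟩ := r
  show u ^ ((c : ℤ) + ((i + j : ℕ) : ℤ) * (l : ℤ) - i) * ((d * H.wD ^ (l : ℕ) * H.pD⁻¹ : D) : Q) =
    u ^ (c : ℕ) * (d : Q) * (B.q a * (B.q b)⁻¹) ^ (l : ℕ) * (B.q a * (B.q t)⁻¹)⁻¹
  rw [H.w_pow, H.p_eq]
  have h1 : (u ^ i * (H.pD : Q))⁻¹ = u ^ (-(i : ℤ)) * (H.pD : Q)⁻¹ := by
    rw [mul_inv_rev, zpow_neg, zpow_natCast]
    exact (((H.cud H.pD).pow_left i).inv_inv).eq.symm
  have h2 : (d : Q) * u ^ ((i + j) * (l : ℕ)) = u ^ ((i + j) * (l : ℕ)) * d := ((H.cud d).pow_left _).eq.symm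
  have h3 : ((d * H.wD ^ (l : ℕ) : D) : Q) * u ^ (-(i : ℤ)) = u ^ (-(i : ℤ)) * ((d * H.wD ^ (l : ℕ) : D) : Q) :=
    ((H.cud _).zpow_left _).eq.symm
  rw [h1]
  calc u ^ ((c : ℤ) + ((i + j : ℕ) : ℤ) * (l : ℤ) - i) * ((d * H.wD ^ (l : ℕ) * H.pD⁻¹ : D) : Q)
      = u ^ (c : ℕ) * u ^ ((i + j) * (l : ℕ)) * (u ^ (-(i : ℤ)) * ((d * H.wD ^ (l : ℕ) : D) : Q)) * (H.pD : Q)⁻¹ := by
        have h4 : u ^ ((c : ℤ) + ((i + j : ℕ) : ℤ) * (l : ℤ) - i) =
            u ^ (c : ℕ) * u ^ ((i + j) * (l : ℕ)) * u ^ (-(i : ℤ)) := by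
          rw [← zpow_natCast u c, ← zpow_natCast u ((i + j) * l), ← zpow_add, ← zpow_add]
          congr 1
        rw [h4]
        push_cast
        group
    _ = u ^ (c : ℕ) * u ^ ((i + j) * (l : ℕ)) * (d : Q) * ((H.wD ^ (l : ℕ) : D) : Q) * (u ^ (-(i : ℤ)) *
          (H.pD : Q)⁻¹) := by
        rw [← h3]
        push_cast
        group
    _ = _ := by
        rw [mul_assoc (u ^ (c : ℕ)), ← h2]
        group

end basic

/-! ### Lines -/

section lines

variable {Q : Type} [Group Q] {B : Lb.{0, 0} Q} {a t b : B.L} {eps : Q →* ℤˣ} {D : Subgroup Q}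
  {u : Q} {i j k : ℕ} (H : HypN B a t b eps D u i j k)
include H

theorem HypN.eps_U (x : Q) : eps (H.up.U x) = - eps x := by
  rcases Int.units_eq_one_or (eps x) with hx | hx
  · have h4 : H.up.U x = x * B.q a := if_pos hx
    rw [h4, map_mul, H.ea, hx]; decide
  · have h4 : H.up.U x = x * (B.q b)⁻¹ := if_neg (by rw [hx]; decide)
    rw [h4, map_mul, map_inv, H.eb, hx]; decide

theorem HypN.eps_w : eps (B.q a * (B.q b)⁻¹) = 1 := by rw [map_mul, map_inv, H.ea, H.eb]; decide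

theorem HypN.U_two (x : Q) (hx : eps x = 1) : H.up.U (H.up.U x) = x * (B.q a * (B.q b)⁻¹) := by
  have h4 : H.up.U x = x * B.q a := if_pos hx
  have h5 : eps (x * B.q a) ≠ 1 := by rw [map_mul, hx, H.ea]; decide
  rw [h4]
  have h6 : H.up.U (x * B.q a) = x * B.q a * (B.q b)⁻¹ := if_neg h5
  rw [h6, mul_assoc]

theorem HypN.U_nat (x : Q) (hx : eps x = 1) (l : ℕ) : (H.up.U ^ (2 * l)) x = x * (B.q a * (B.q b)⁻¹) ^ l := by
  induction l with
  | zero => simp
  | succ l ih =>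
    rw [Nat.mul_succ, H.up.U_pow_succ', H.up.U_pow_succ', ih,
      H.U_two _ (by rw [map_mul, hx, map_pow, H.eps_w, one_pow, one_mul]), pow_succ, mul_assoc]

theorem HypN.U_int (x : Q) (hx : eps x = 1) (l : ℤ) : (H.up.U ^ (2 * l)) x = x * (B.q a * (B.q b)⁻¹) ^ l := by
  obtain ⟨l, rfl | rfl⟩ := l.eq_nat_or_neg
  · have h := H.U_nat x hx l
    rw [zpow_natCast, ← h, ← zpow_natCast]
    exact congrArg (fun (e : Equiv.Perm Q) => e x) (congrArg (H.up.U ^ ·) (by push_cast; rfl))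
  · rw [mul_neg, zpow_neg, zpow_neg, Equiv.Perm.inv_eq_iff_eq, zpow_natCast]
    have hx' : eps (x * ((B.q a * (B.q b)⁻¹) ^ l)⁻¹) = 1 := by
      rw [map_mul, hx, map_inv, map_pow, H.eps_w, one_pow, inv_one, one_mul]
    have h := H.U_nat _ hx' l
    rw [inv_mul_cancel_right] at h
    have h9 : (H.up.U ^ (2 * (l : ℤ))) = H.up.U ^ (2 * l) := by
      rw [← zpow_natCast]
      exact congrArg (H.up.U ^ ·) (by push_cast; rfl)
    rw [h9, h]

omit H in
/-- A function which is constant on the lines. -/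
theorem line_inv {α : Type*} {U : Up B} {f : Q → α} (hf : ∀ y, f (U.U y) = f y) (n : ℕ) (y : Q) :
    f ((U.U ^ n) y) = f y := by
  induction n with
  | zero => simp
  | succ n ih => rw [U.U_pow_succ', hf, ih]

theorem HypN.line_w {α : Type*} {f : Q → α} (hf : ∀ y, f (H.up.U y) = f y) (x : Q) (hx : eps x = 1) :
    f (x * (B.q a * (B.q b)⁻¹)) = f x := by
  rw [← H.U_two x hx, hf, hf]

theorem HypN.exists_zk : ∃ n : ℕ, ((u ^ (i + j)) ^ k) ^ n = u := by
  have h1 : (orderOf u).Coprime ((i + j) * k) := by rw [mul_comm]; exact H.copk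
  obtain ⟨m, hm⟩ := exists_pow_eq_self_of_coprime h1.symm
  exact ⟨m, by rw [← pow_mul (u) (i + j) k, hm]⟩

theorem HypN.line_u {α : Type*} {f : Q → α} (hf : ∀ y, f (H.up.U y) = f y) (c : ℕ) (x : Q) :
    f (u ^ c * x) = f x := by
  have h0 : ∀ n : ℕ, ∀ x, f (((u ^ (i + j)) ^ k) ^ n * x) = f x := by
    intro n
    induction n with
    | zero => intro x; rw [pow_zero, one_mul]
    | succ n ih =>
      intro x
      rw [pow_succ', mul_assoc, ← H.per.1, line_inv hf, ih]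
  obtain ⟨n, hn⟩ := H.exists_zk
  rw [← hn, ← pow_mul]
  exact h0 _ x

theorem HypN.line_wD {α : Type*} {f : Q → α} (hf : ∀ y, f (H.up.U y) = f y) (d : D) :
    f ((d * H.wD : D) : Q) = f (d : Q) := by
  have hd : eps (d : Q) = 1 := H.leD d.2
  rw [← H.line_w hf d hd, H.w_eq]
  have h1 : (d : Q) * (u ^ (i + j) * (H.wD : Q)) = u ^ (i + j) * ((d * H.wD : D) : Q) := by
    rw [← mul_assoc, ← ((H.cud d).pow_left (i + j)).eq, mul_assoc, Subgroup.coe_mul]
  rw [h1, H.line_u hf]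

theorem HypN.ord_z : orderOf ((u ^ (i + j)) ^ k) = orderOf u := by
  have h1 : (orderOf u).Coprime ((i + j) * k) := by rw [mul_comm]; exact H.copk
  rw [← pow_mul, h1.orderOf_pow]

/-- The levels of the tube do not meet. -/
theorem HypN.disj [Fintype D] {W : ℕ} (hW : (i + j) * (W + 2) < orderOf u) (s : Q) (hs : s ∈ FN H) (t : ℤ)
    (ht : |t| ≤ W) (ht' : (H.up.U ^ t) s ∈ FN H) : t = 0 := by
  have hF : ∀ y ∈ FN H, ∃ v : Fin (i + j) × D, gN D u (i + j) v = y := by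
    intro y hy
    obtain ⟨v, _, hv⟩ := Finset.mem_map.1 hy
    exact ⟨v, hv⟩
  have he : ∀ v : Fin (i + j) × D, eps (gN D u (i + j) v) = 1 := by
    rintro ⟨c, d⟩
    show eps (u ^ (c : ℕ) * (d : Q)) = 1
    rw [map_mul, map_pow, H.eu, one_pow, one_mul]
    exact H.leD d.2
  obtain ⟨⟨c, d⟩, rfl⟩ := hF s hs
  obtain ⟨⟨c', d'⟩, h1⟩ := hF _ ht'
  rcases Int.even_or_odd' t with ⟨l, rfl | rfl⟩
  · rw [H.U_int _ (he _) l] at h1
    have h2 : u ^ (c' : ℕ) * (d' : Q) = u ^ (c : ℕ) * (d : Q) * (B.q a * (B.q b)⁻¹) ^ l := h1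
    rw [H.w_zpow] at h2
    have h3 : u ^ (((c : ℤ) + ((i + j : ℕ) : ℤ) * l) - c') = ((d' * (d * H.wD ^ l)⁻¹ : D) : Q) := by
      have h4 : (d : Q) * u ^ (((i + j : ℕ) : ℤ) * l) = u ^ (((i + j : ℕ) : ℤ) * l) * d :=
        ((H.cud d).zpow_left _).eq.symm
      have h5 : u ^ (c' : ℕ) * (d' : Q) = u ^ ((c : ℤ) + ((i + j : ℕ) : ℤ) * l) * ((d * H.wD ^ l : D) : Q) := by
        rw [h2, zpow_add, zpow_natCast, Subgroup.coe_mul]
        calc _ = u ^ (c : ℕ) * ((d : Q) * u ^ (((i + j : ℕ) : ℤ) * l)) * ((H.wD ^ l : D) : Q) := by group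
          _ = _ := by rw [h4]; group
      have h6 : u ^ (((c : ℤ) + ((i + j : ℕ) : ℤ) * l) - c') = u ^ ((c : ℤ) + ((i + j : ℕ) : ℤ) * l) * (u ^ (c' : ℕ))⁻¹ := by
        rw [zpow_sub, zpow_natCast]
      have h7 : u ^ ((c : ℤ) + ((i + j : ℕ) : ℤ) * l) * (u ^ (c' : ℕ))⁻¹ =
          (u ^ (c' : ℕ))⁻¹ * u ^ ((c : ℤ) + ((i + j : ℕ) : ℤ) * l) := by
        rw [← zpow_natCast u (c' : ℕ), ← zpow_neg, ← zpow_add, ← zpow_add, add_comm]
      have h8 : (u ^ (c' : ℕ))⁻¹ * u ^ ((c : ℤ) + ((i + j : ℕ) : ℤ) * l) = (d' : Q) * ((d * H.wD ^ l : D) : Q)⁻¹ := by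
        rw [eq_mul_inv_iff_mul_eq, mul_assoc, ← h5, inv_mul_cancel_left]
      rw [h6, h7, h8]
      rfl
    have h4 := H.dis (n := ((c : ℤ) + ((i + j : ℕ) : ℤ) * l) - c') (by rw [h3]; exact (d' * (d * H.wD ^ l)⁻¹ : D).2)
    have h5 : (orderOf u : ℤ) ∣ ((c : ℤ) + ((i + j : ℕ) : ℤ) * l) - c' := orderOf_dvd_iff_zpow_eq_one.2 h4
    have hc := c.2
    have hc' := c'.2
    have hl : |l| ≤ W := by
      rw [abs_mul] at ht
      have : |(2 : ℤ)| = 2 := rfl
      rw [this] at ht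
      have := abs_nonneg l
      omega
    have h6 : ((c : ℤ) + ((i + j : ℕ) : ℤ) * l) - c' = 0 := by
      apply Int.eq_zero_of_abs_lt_dvd h5
      have h7 : |((i + j : ℕ) : ℤ) * l| ≤ ((i + j : ℕ) : ℤ) * W := by
        rw [abs_mul, Nat.abs_cast]
        exact mul_le_mul_of_nonneg_left hl (by positivity)
      have h8 : (((i + j) * (W + 2) : ℕ) : ℤ) < orderOf u := by exact_mod_cast hW
      have h9 : (((i + j) * (W + 2) : ℕ) : ℤ) = ((i + j : ℕ) : ℤ) * W + 2 * ((i + j : ℕ) : ℤ) := by push_cast; ring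
      rw [h9] at h8
      have h10 := abs_le.1 h7
      rw [abs_lt]
      constructor <;> omega
    have h7 : ((i + j : ℕ) : ℤ) * l = (c' : ℤ) - c := by omega
    have h8 : l = 0 := by
      have hij : (0 : ℤ) < ((i + j : ℕ) : ℤ) := by have := H.ipos; omega
      by_contra hne
      have h9 : (1 : ℤ) ≤ |l| := Int.one_le_abs hne
      have h10 : ((i + j : ℕ) : ℤ) * |l| = |(c' : ℤ) - c| := by rw [← h7, abs_mul, Nat.abs_cast]
      have h11 : |(c' : ℤ) - c| < ((i + j : ℕ) : ℤ) := by rw [abs_lt]; constructor <;> omega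
      nlinarith
    rw [h8, mul_zero]
  · exfalso
    have h2 := he (c', d')
    rw [h1, add_comm, zpow_add, zpow_one, Equiv.Perm.mul_apply, H.eps_U, H.U_int _ (he _) l, map_mul, he, map_zpow,
      H.eps_w, one_zpow] at h2
    exact absurd h2 (by decide)

/-- `D` is generated by the `D`-parts of `p` and `w`. -/
theorem HypN.gen_D : Subgroup.closure {H.pD, H.wD} = (⊤ : Subgroup D) := by
  have hia : (B.q a)⁻¹ = B.q a := inv_eq_of_mul_eq_one_right H.ia
  have hit : (B.q t)⁻¹ = B.q t := inv_eq_of_mul_eq_one_right H.it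
  have hib : (B.q b)⁻¹ = B.q b := inv_eq_of_mul_eq_one_right H.ib
  set S : Subgroup D := Subgroup.closure {H.pD, H.wD} with hS
  have hpS : H.pD ∈ S := Subgroup.subset_closure (Or.inl rfl)
  have hwS : H.wD ∈ S := Subgroup.subset_closure (Or.inr rfl)
  let T : Subgroup Q :=
    { carrier := {x | ∃ n : ℤ, ∃ d ∈ S, x = u ^ n * ((d : D) : Q)}
      one_mem' := ⟨0, 1, S.one_mem, by rw [zpow_zero, Subgroup.coe_one, mul_one]⟩
      mul_mem' := by
        rintro _ _ ⟨n, d, hd, rfl⟩ ⟨n', d', hd', rfl⟩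
        refine ⟨n + n', d * d', S.mul_mem hd hd', ?_⟩
        have h4 : (d : Q) * u ^ n' = u ^ n' * d := ((H.cud d).zpow_left _).eq.symm
        calc _ = u ^ n * ((d : Q) * u ^ n') * (d' : Q) := by group
          _ = _ := by rw [h4, zpow_add, Subgroup.coe_mul]; group
      inv_mem' := by
        rintro _ ⟨n, d, hd, rfl⟩
        refine ⟨-n, d⁻¹, S.inv_mem hd, ?_⟩
        rw [mul_inv_rev, zpow_neg, Subgroup.coe_inv]
        exact (((H.cud d).zpow_left n).inv_inv).eq.symm }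
  have hpT : B.q a * (B.q t)⁻¹ ∈ T := ⟨i, H.pD, hpS, by rw [zpow_natCast]; exact H.p_eq⟩
  have hwT : B.q a * (B.q b)⁻¹ ∈ T := ⟨((i + j : ℕ) : ℤ), H.wD, hwS, by rw [zpow_natCast]; exact H.w_eq⟩
  have key : ∀ x : Q, x ∈ T ∨ x * B.q a ∈ T := by
    intro x
    have hx : x ∈ Subgroup.closure (Set.range B.q) := by rw [H.gen]; exact Subgroup.mem_top x
    have hs : ∀ y : Q, (y ∈ T ∨ y * B.q a ∈ T) → ∀ s : B.L, (y * B.q s ∈ T ∨ y * B.q s * B.q a ∈ T) := by
      intro y hy s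
      rcases H.all s with rfl | rfl | rfl
      · rcases hy with hy | hy
        · right; rw [mul_assoc, H.ia, mul_one]; exact hy
        · left; exact hy
      · rcases hy with hy | hy
        · right
          have h1 := T.mul_mem hy (T.inv_mem hpT)
          rwa [mul_inv_rev, inv_inv, hia, ← mul_assoc] at h1
        · left
          have h1 := T.mul_mem hy hpT
          rwa [hit, mul_assoc, ← mul_assoc (B.q a) (B.q a), H.ia, one_mul] at h1
      · rcases hy with hy | hy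
        · right
          have h1 := T.mul_mem hy (T.inv_mem hwT)
          rwa [mul_inv_rev, inv_inv, hia, ← mul_assoc] at h1
        · left
          have h1 := T.mul_mem hy hwT
          rwa [hib, mul_assoc, ← mul_assoc (B.q a) (B.q a), H.ia, one_mul] at h1
    induction hx using Subgroup.closure_induction_right with
    | one => exact Or.inl T.one_mem
    | mul_right y _ s hs' ih =>
      obtain ⟨s, rfl⟩ := hs'
      exact hs y ih s
    | mul_inv_cancel y _ s hs' ih =>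
      obtain ⟨s, rfl⟩ := hs'
      have h1 : (B.q s)⁻¹ = B.q s := by
        rcases H.all s with rfl | rfl | rfl
        · exact hia
        · exact hit
        · exact hib
      rw [h1]
      exact hs y ih s
  rw [eq_top_iff]
  intro d _
  rcases key (d : Q) with ⟨n, d', hd', h1⟩ | ⟨n, d', hd', h1⟩
  · have h2 : u ^ n = ((d * d'⁻¹ : D) : Q) := by rw [Subgroup.coe_mul, Subgroup.coe_inv, h1, mul_inv_cancel_right]
    have h3 := H.dis (n := n) (by rw [h2]; exact (d * d'⁻¹ : D).2)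
    rw [h3, one_mul] at h1
    have h4 : d = d' := Subtype.ext h1
    rw [h4]; exact hd'
  · exfalso
    have h2 : eps ((d : Q) * B.q a) = 1 := by
      rw [h1, map_mul, map_zpow, H.eu, one_zpow, one_mul]
      exact H.leD d'.2
    have h3 : eps (d : Q) = 1 := H.leD d.2
    rw [map_mul, h3, H.ea] at h2
    exact absurd h2 (by decide)

end lines

/-! ### Voltages -/

section volt

variable {Q : Type} [Group Q] {B : Lb.{0, 0} Q} {a t b : B.L} {eps : Q →* ℤˣ} {D : Subgroup Q}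
  {u : Q} {i j k : ℕ} (H : HypN B a t b eps D u i j k) {p : ℕ} [Fact p.Prime] (V : Vd B (ZMod p))
include H

theorem HypN.chi_g (hu : V.chi u = 1) (v : Fin (i + j) × D) : V.chi (gN D u (i + j) v) = V.chi (v.2 : Q) := by
  show V.chi (u ^ (v.1 : ℕ) * (v.2 : Q)) = _
  rw [map_mul, map_pow, hu, one_pow, one_mul]

theorem HypN.chi_w (hu : V.chi u = 1) : V.chi (H.wD : Q) = V.chi (B.q a * (B.q b)⁻¹) := by
  rw [H.w_eq, map_mul, map_pow, hu, one_pow, one_mul]

theorem HypN.chi_p (hu : V.chi u = 1) : V.chi (H.pD : Q) = V.chi (B.q a * (B.q t)⁻¹) := by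
  rw [H.p_eq, map_mul, map_pow, hu, one_pow, one_mul]

theorem HypN.eps_g (v : Fin (i + j) × D) : eps (gN D u (i + j) v) = 1 := by
  show eps (u ^ (v.1 : ℕ) * (v.2 : Q)) = 1
  rw [map_mul, map_pow, H.eu, one_pow, one_mul]
  exact H.leD v.2.2

/-- The volume of a rung. -/
theorem HypN.e_rung (υ υ' : ZMod p) (r : RgN (i + j) k D) :
    (evA V eps υ υ').e (gN D u (i + j) r.1 * (B.q a * (B.q b)⁻¹) ^ (r.2 : ℕ)) t =
      V.chi (gN D u (i + j) r.1 * (B.q a * (B.q b)⁻¹) ^ (r.2 : ℕ)) * (V.n t + V.chi (B.q t) * υ' - υ) := by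
  have h1 : eps (gN D u (i + j) r.1 * (B.q a * (B.q b)⁻¹) ^ (r.2 : ℕ)) = 1 := by
    rw [map_mul, H.eps_g, map_pow, H.eps_w, one_pow, one_mul]
  rw [evA_ref V eps _ _ _ t H.et]
  unfold ptA
  rw [if_pos h1, if_pos h1]

theorem HypN.cast_ne (hp : 4 * (i + j) * k < p) {n : ℕ} (h0 : 0 < n) (hn : n ≤ 4 * (i + j) * k) :
    ((n : ℕ) : ZMod p) ≠ 0 := by
  rw [Ne, ZMod.natCast_eq_zero_iff]
  intro h3
  have := Nat.le_of_dvd h0 h3
  omega

theorem HypN.kap_false [NeZero (i + j)] [Fintype D] (hEx : ExaNS) (hEd : ExaDS) {v₀ : Fin (i + j) × D}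
    {A : Fin (i + j) × D → Prop} (hA : CmpN (i + j) H.wD H.pD i k v₀ A) (hp : 4 * (i + j) * k < p) (hu : V.chi u = 1)
    (h1 : ∀ υ υ' o : ZMod p, (∀ y, (evA V eps υ υ').e y (H.up.up y) = o) →
          ∃ Φ : Fin (i + j) × D → ZMod p, ∀ r : RgN (i + j) k D, A r.1 →
            (evA V eps υ υ').e (gN D u (i + j) r.1 * (B.q a * (B.q b)⁻¹) ^ (r.2 : ℕ)) t + drN i r.1 o =
              Φ (yN (i + j) H.wD H.pD i k r) - Φ r.1)
    (h2 : V.chi (B.q a * (B.q b)⁻¹) = 1 → nuW V a b ≠ 0 → ∀ r : RgN (i + j) k D, A r.1 →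
          V.chi (gN D u (i + j) r.1) = V.chi (gN D u (i + j) (yN (i + j) H.wD H.pD i k r))) :
    ¬ KapN V a t b i j := by
  have hi := H.ipos
  have hj := H.jpos
  have hk := H.kpos
  have hA0 : A v₀ := (hA v₀).2 Relation.ReflTransGen.refl
  have hek : 0 < (i + j) * k := Nat.mul_pos (by omega) hk
  have hij : i + j ≤ 4 * (i + j) * k := by nlinarith
  have hkk : k ≤ 4 * (i + j) * k := by nlinarith
  have h2' : 2 ≤ 4 * (i + j) * k := by nlinarith
  have two : (2 : ZMod p) ≠ 0 := by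
    have := H.cast_ne hp (n := 2) (by norm_num) h2'
    exact_mod_cast this
  have hb' : eps (B.q (B.inv b)) = -1 := by rw [B.q_inv, map_inv, H.eb]; decide
  have hbi : V.chi (B.q b)⁻¹ * V.chi (B.q b) = 1 := chi_inv_mul V (B.q b)
  rintro (⟨hw, hnu, hne⟩ | ⟨hpq, hw, hno⟩ | ⟨ha, ht, hb, hne⟩)
  · -- good
    obtain ⟨c, hc⟩ := H.g_y ((v₀, ⟨0, hk⟩) : RgN (i + j) k D)
    have h3 := h2 hw hnu (v₀, ⟨0, hk⟩) hA0
    have h4 := congrArg V.chi hc
    have hzc : ∀ c : ℤ, V.chi ((B.q a * (B.q b)⁻¹) ^ c) = 1 := fun c => H31.chi_zpow V hw c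
    rw [map_mul, map_mul, map_mul, hzc, ← h3, map_pow, hw, one_pow, mul_one] at h4
    have h5 : V.chi (gN D u (i + j) v₀) ≠ 0 := SQ4.chi_ne V _
    have h6 : V.chi (B.q a * (B.q t)⁻¹)⁻¹ = 1 := by
      have : V.chi (gN D u (i + j) v₀) * 1 = V.chi (gN D u (i + j) v₀) * V.chi (B.q a * (B.q t)⁻¹)⁻¹ := by
        rw [mul_one]; exact h4
      exact (mul_left_cancel₀ h5 this).symm
    have h7 := chi_inv_mul V (B.q a * (B.q t)⁻¹)
    rw [h6, one_mul] at h7
    exact hne h7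
  · -- bad
    have hu0 : nuW V a b + V.chi (B.q a * (B.q b)⁻¹) * (- nuW V a b / (V.chi (B.q a * (B.q b)⁻¹) - 1)) =
        - nuW V a b / (V.chi (B.q a * (B.q b)⁻¹) - 1) := by
      field_simp
      ring
    obtain ⟨υ', hυ⟩ := exists_zero (eps := eps) V H.ea H.eb _ hu0
    set υ := - nuW V a b / (V.chi (B.q a * (B.q b)⁻¹) - 1) with hυd
    obtain ⟨Φ, hΦ⟩ := h1 υ υ' 0 hυ
    have e1 : V.n a + V.chi (B.q a) * υ' = υ := by
      have h3 := hυ 1
      have h4 : (upC B a b eps H.ea H.eb).up 1 = a := if_pos (map_one eps)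
      rw [h4, evA_ref V eps _ _ _ a H.ea] at h3
      unfold ptA at h3
      rw [if_pos (map_one eps), if_pos (map_one eps), map_one, one_mul, sub_eq_zero] at h3
      exact h3
    have e2 : V.n b + V.chi (B.q b) * υ' = υ := by
      have h3 := hυ (B.q b)
      have hne : eps (B.q b) ≠ 1 := by rw [H.eb]; decide
      have h4 : (upC B a b eps H.ea H.eb).up (B.q b) = B.inv b := if_neg hne
      rw [h4, evA_ref V eps _ _ _ _ hb'] at h3
      unfold ptA at h3
      rw [if_neg hne, if_neg hne, V.n_inv, B.q_inv] at h3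
      have h5 : V.chi (B.q b) ≠ 0 := SQ4.chi_ne V _
      have h6 := (mul_eq_zero.1 h3).resolve_left h5
      linear_combination (-V.chi (B.q b)) * h6 + (υ - V.n b) * hbi
    have hτ : V.n t + V.chi (B.q t) * υ' - υ = 0 := by
      refine hEx D H.wD H.pD i (i + j) k hi (by omega) hk H.card v₀ A hA (ZMod p)
        (V.chi.comp D.subtype) ?_ ?_ _ Φ ?_
      · show V.chi (H.pD : Q) = 1 ∨ V.chi (H.wD : Q) = V.chi (H.pD : Q)
        rw [H.chi_p V hu, H.chi_w V hu]
        rcases hpq with h3 | h3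
        · exact Or.inl h3
        · right
          have h4 : B.q a * (B.q b)⁻¹ = B.q a * (B.q t)⁻¹ * (B.q t * (B.q b)⁻¹) := by group
          rw [h4, map_mul, h3, mul_one]
      · exact H.cast_ne hp hek (by nlinarith)
      · intro r hr
        have h3 := hΦ r hr
        rw [H.e_rung V υ υ' r, map_mul, H.chi_g V hu, map_pow] at h3
        have h4 : drN i r.1 (0 : ZMod p) = 0 := by
          unfold drN
          split_ifs
          · rfl
          · exact neg_zero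
        rw [h4, add_zero, ← H.chi_w V hu] at h3
        exact h3
    exact hno ⟨υ, υ', e1, sub_eq_zero.1 hτ, e2⟩
  · -- third
    have hchi : ∀ x, V.chi x = (((eps x : ℤˣ) : ℤ) : ZMod p) := by
      intro x
      have hx : x ∈ Subgroup.closure (Set.range B.q) := by rw [H.gen]; exact Subgroup.mem_top x
      induction hx using Subgroup.closure_induction with
      | mem y hy =>
        obtain ⟨s, rfl⟩ := hy
        rcases H.all s with rfl | rfl | rfl
        · rw [ha, H.ea]; simp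
        · rw [ht, H.et]; simp
        · rw [hb, H.eb]; simp
      | one => simp
      | mul y z _ _ hy hz => rw [map_mul, map_mul, hy, hz]; push_cast; ring
      | inv y _ hy =>
        have h3 := chi_inv_mul V y
        rw [map_inv eps]
        rcases Int.units_eq_one_or (eps y) with h4 | h4
        · rw [hy, h4] at h3
          rw [h4]
          simpa using h3
        · rw [hy, h4] at h3
          rw [h4]
          have h5 : V.chi y⁻¹ = -1 := by
            have h6 : V.chi y⁻¹ * -1 = 1 := by simpa using h3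
            linear_combination -h6
          rw [h5]; simp
    have hbi' : V.chi (B.q b)⁻¹ = -1 := by
      rw [hb] at hbi
      linear_combination -hbi
    obtain ⟨o, ho⟩ : ∃ o : ZMod p, o = (V.n a - V.n b) / 2 := ⟨_, rfl⟩
    have ho2 : 2 * o = V.n a - V.n b := by rw [ho]; exact mul_div_cancel₀ _ two
    obtain ⟨υ', hυ'⟩ : ∃ υ' : ZMod p, υ' = V.n a - o := ⟨_, rfl⟩
    have hup : ∀ y, (evA V eps 0 υ').e y (H.up.up y) = o := by
      intro y
      show (evA V eps 0 υ').e y (if eps y = 1 then a else B.inv b) = o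
      rcases Int.units_eq_one_or (eps y) with h | h
      · rw [if_pos h, evA_ref V eps _ _ _ a H.ea, hchi y, h]
        unfold ptA
        rw [if_pos h, if_pos h, ha, hυ']
        simp
      · have h0 : eps y ≠ 1 := by rw [h]; decide
        rw [if_neg h0, evA_ref V eps _ _ _ _ hb', hchi y, h]
        unfold ptA
        rw [if_neg h0, if_neg h0, V.n_inv, B.q_inv, hbi', hυ']
        push_cast
        linear_combination -ho2
    obtain ⟨Φ, hΦ⟩ := h1 0 υ' o hup
    have h3 := hEd D H.wD H.pD i (i + j) k hi (by omega) hk H.card v₀ A hA (ZMod p) (H.cast_ne hp hk hkk)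
      (V.n t - υ') o Φ (by
        intro r hr
        have h4 := hΦ r hr
        have h5 : eps (gN D u (i + j) r.1 * (B.q a * (B.q b)⁻¹) ^ (r.2 : ℕ)) = 1 := by
          rw [map_mul, H.eps_g, map_pow, H.eps_w, one_pow, one_mul]
        rw [H.e_rung V 0 υ' r, hchi, h5, ht] at h4
        rw [← h4]
        push_cast
        ring)
    apply hne
    push_cast at h3
    linear_combination -h3 + (i : ZMod p) * ho2 - ((i : ZMod p) + j) * hυ'

end volt

/-! ### The assembly -/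

section main

variable {Q : Type} [Group Q] [DecidableEq Q] {B : Lb.{0, 0} Q} {a t b : B.L} {eps : Q →* ℤˣ} {D : Subgroup Q}
  {u : Q} {i j k : ℕ} {H : HypN B a t b eps D u i j k} [NeZero (i + j)] [Fintype D] [DecidableEq D]
  {X : ClsW H.up (gN D u (i + j)) H.inj (2 * k) (RgN (i + j) k D)} {h : ℕ}

omit [DecidableEq Q] [DecidableEq D] [Fintype D] in
theorem CmpN.iff {v₀ : Fin (i + j) × D} {A : Fin (i + j) × D → Prop} (hA : CmpN (i + j) H.wD H.pD i k v₀ A)
    (r : RgN (i + j) k D) : A r.1 ↔ A (yN (i + j) H.wD H.pD i k r) := by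
  rw [hA, hA]
  constructor
  · intro h1
    exact h1.tail ⟨r, Or.inl ⟨rfl, rfl⟩⟩
  · intro h1
    exact h1.tail ⟨r, Or.inr ⟨rfl, rfl⟩⟩

/-- A component is closed. -/
theorem cloN (hX : IsN H X h) {v₀ : Fin (i + j) × D} {A : Fin (i + j) × D → Prop}
    (hA : CmpN (i + j) H.wD H.pD i k v₀ A) : (famN X).Clo A fun r => A r.1 := by
  have hcmp : ∀ r, A (X.x r) ↔ A (X.y r) := by
    intro r
    rw [hX.x, hX.y]
    exact hA.iff r
  have hc := hX.clo A hcmp
  refine ⟨?_, ?_, ?_, ?_⟩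
  · intro r hr
    show A (X.x r)
    rw [hX.x]
    exact hr
  · intro r hr
    show A (X.y r)
    rw [hX.y]
    exact (hA.iff r).1 hr
  · intro r
    have h1 := hc.tau_iff r
    rw [hX.x, hX.x] at h1
    exact h1
  · intro r hr s hs
    exact hc.tok r (by rw [hX.x]; exact hr) s hs

end main


theorem lamN_ge (e k : ℕ) : 2 * k * k ≤ lamN e k := by
  unfold lamN
  exact Nat.le_add_left _ _

/-- HEARTN. -/
theorem heartN (hCls : ClsNS) (hGr : GraphNS) (hEx : ExaNS) (hEd : ExaDS) (hWs : WsumNS) (hFl : FlipNS)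
    (hTr : TreeNS) (hU : SQ4.HeartUS) : HeartNS := by
  classical
  intro Q _ _ B a t b eps D u i j k H hrel hcomm m V hm hu hbig hkap hneed
  have := H.nz
  have : Fintype D := Fintype.ofFinite D
  have hi := H.ipos
  have hj := H.jpos
  have hk := H.kpos
  obtain ⟨X, hX⟩ := hCls Q B a t b eps D u i j k H
  obtain ⟨d, cl, N, x, s₁, s₂, rk, hN0, hNk, hd, hcl, hd1, hd2, hclx, htree, hj1, hj2, hsum⟩ :=
    hTr Q B a t b eps D u i j k H hrel
  have hfinL : Finite B.L := by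
    refine Finite.of_surjective (fun n : Fin 3 => if n = 0 then a else if n = 1 then t else b) fun s => ?_
    rcases H.all s with rfl | rfl | rfl
    · exact ⟨0, by simp⟩
    · exact ⟨1, by simp⟩
    · exact ⟨2, by simp⟩
  choose f hf using hj1
  choose g hg using hj2
  have hx1 : ∀ n, x n ≠ s₁ n := by
    intro n h1
    have h2 := hd1 n
    rw [← h1] at h2
    cases h3 : d (gN D u (i + j) (x n)) <;> rw [h3] at h2 <;> exact absurd h2 (by decide)
  have hx2 : ∀ n, x n ≠ s₂ n := by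
    intro n h1
    have h2 := hd2 n
    rw [← h1] at h2
    cases h3 : d (gN D u (i + j) (x n)) <;> rw [h3] at h2 <;> exact absurd h2 (by decide)
  have h12 : ∀ n, s₁ n ≠ s₂ n := fun n h1 => htree.lm n (by rw [h1])
  have hPx : ∀ r, (famN X).puz.x r = r.1 := hX.x
  have hPy : ∀ r, (famN X).puz.y r = yN (i + j) H.wD H.pD i k r := hX.y
  have honf : ∀ (x s : Fin (i + j) × D) (r : RgN (i + j) k D), x ≠ s →
      ((r.1 = x ∧ yN (i + j) H.wD H.pD i k r = s) ∨ (r.1 = s ∧ yN (i + j) H.wD H.pD i k r = x)) →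
      (famN X).puz.On r x ∧ (famN X).puz.oth r x = s := by
    intro x s r hne hr
    unfold SQ2.V.Puz.On SQ2.V.Puz.oth
    rw [hPx, hPy]
    rcases hr with ⟨h1, h2⟩ | ⟨h1, h2⟩
    · rw [h1, h2]
      exact ⟨Or.inl rfl, if_pos rfl⟩
    · rw [h1, h2]
      exact ⟨Or.inr rfl, if_neg hne⟩
  have hadj : ∀ n, (famN X).puz.Adj (g n) (f n) (x n) := by
    intro n
    obtain ⟨h1, h2⟩ := honf _ _ _ (hx1 n) (hf n)
    obtain ⟨h3, h4⟩ := honf _ _ _ (hx2 n) (hg n)
    refine ⟨h3, h1, ?_⟩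
    rw [h2, h4]
    exact (h12 n).symm
  have hothf : ∀ n, (famN X).puz.oth (f n) (x n) = s₁ n := fun n => (honf _ _ _ (hx1 n) (hf n)).2
  have hothg : ∀ n, (famN X).puz.oth (g n) (x n) = s₂ n := fun n => (honf _ _ _ (hx2 n) (hg n)).2
  -- the components
  let A : Fin N → Fin (i + j) × D → Prop := fun n v =>
    Relation.ReflTransGen (JnN (i + j) H.wD H.pD i k) (x n) v
  have hA : ∀ n, CmpN (i + j) H.wD H.pD i k (x n) (A n) := fun n v => Iff.rfl
  have hpw : H.pD * H.wD ≠ H.wD * H.pD := by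
    intro h1
    apply hcomm
    have e1 : B.q a * (B.q t)⁻¹ * (B.q t * (B.q b)⁻¹) = B.q a * (B.q b)⁻¹ := by group
    have e2 : (B.q a * (B.q t)⁻¹) * (B.q a * (B.q b)⁻¹) = (B.q a * (B.q b)⁻¹) * (B.q a * (B.q t)⁻¹) := by
      rw [H.w_eq, H.p_eq]
      have c1 : Commute (u ^ i * (H.pD : Q)) (u ^ (i + j)) :=
        (((Commute.refl u).pow_pow i (i + j)).mul_left ((H.cud H.pD).pow_left (i + j)).symm)
      have c2 : Commute (u ^ i * (H.pD : Q)) (H.wD : Q) := by
        refine Commute.mul_left ((H.cud H.wD).pow_left i) ?_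
        have h2 := congrArg (fun d : D => (d : Q)) h1
        exact h2
      exact (c1.mul_right c2).eq
    have e3 : B.q t * (B.q b)⁻¹ = (B.q a * (B.q t)⁻¹)⁻¹ * (B.q a * (B.q b)⁻¹) := by group
    rw [e1, e3, mul_assoc, ← e2, inv_mul_cancel_left]
  have hcopi : i.Coprime (i + j) := (Nat.coprime_self_add_right).2 H.cop
  have hflip : ∀ n, _ := fun n => by
    have hc := cloN hX (hA n)
    have hG := hGr D H.wD H.pD i (i + j) k hi (by omega) hcopi hk H.card hpw (x n) (A n) (hA n)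
      (fun r => A n r.1) (fun _ => Iff.rfl) hc.puz (fun r => hPx r.1) (fun r => hPy r.1)
    obtain ⟨hS, hT, hN, hC, hdeg⟩ := hG
    exact hFl Q B a t b eps D u i j k H X hX (f n) (g n) (x n) (hadj n) (A n) hc Relation.ReflTransGen.refl hS
      (SQ2.V.Puz.HypK.of_scon hS hT hN hC) hdeg
  have hFc : (FN H).card ≤ (i + j) * k := by
    unfold FN
    rw [Finset.card_map, Finset.card_univ, Fintype.card_prod, Fintype.card_fin]
    refine Nat.mul_le_mul_left _ ?_
    rw [← Nat.card_eq_fintype_card]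
    exact Nat.le_of_dvd hk H.card
  have hmemF : ∀ v : Fin (i + j) × D, gN D u (i + j) v ∈ FN H := fun v =>
    Finset.mem_map.2 ⟨v, Finset.mem_univ _, rfl⟩
  obtain ⟨Λ, hΛ⟩ : ∃ Λ, lamN (i + j) k = Λ := ⟨_, rfl⟩
  simp only [hΛ] at hflip
  obtain ⟨W, hW⟩ : ∃ W, (2 * m.primeFactors.card) ^ 2 * Λ + Λ + 1 = W := ⟨_, rfl⟩
  have hWu : (i + j) * (W + 2) < orderOf u := by
    refine lt_of_le_of_lt ?_ hneed
    unfold needN
    rw [hΛ]
    have h1 : W + 2 ≤ 2 * ((2 * m.primeFactors.card) ^ 2 * Λ + Λ + 2) := by rw [← hW]; omega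
    generalize (2 * m.primeFactors.card) ^ 2 * Λ + Λ + 2 = Y at h1 ⊢
    have h2 : (i + j) * (W + 2) ≤ (i + j + 1) * (k + 1) * Y * 2 := by
      calc (i + j) * (W + 2) ≤ (i + j) * (2 * Y) := Nat.mul_le_mul_left _ h1
        _ = (i + j) * 1 * Y * 2 := by ring
        _ ≤ (i + j + 1) * (k + 1) * Y * 2 :=
          Nat.mul_le_mul_right _ (Nat.mul_le_mul_right _ (Nat.mul_le_mul (Nat.le_succ _) (Nat.le_add_left _ _)))
    have h3 : (i + j + 1) * (k + 1) * Y ≤ ((i + j + 1) * (k + 1) * Y) ^ 2 := Nat.le_self_pow (by norm_num) _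
    calc (i + j) * (W + 2) ≤ (i + j + 1) * (k + 1) * Y * 2 := h2
      _ ≤ ((i + j + 1) * (k + 1) * Y) ^ 2 * (4 * (k + 1)) := by
        refine Nat.mul_le_mul h3 ?_
        omega
      _ = _ := by ring
  have hwd : World H.up (2 * k) W ((i + j) * k) k Λ d cl (fun n => gN D u (i + j) (x n))
      (fun n => gN D u (i + j) (s₁ n)) (fun n => gN D u (i + j) (s₂ n)) (fun _ => FN H) (fun n => X.lev (f n)) rk := by
    refine ⟨hN0, hd, hcl, hd1, hd2, htree, ?_, fun n => hmemF _, fun n => hmemF _, fun n => hmemF _, fun n => hFc, ?_,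
      ?_, ?_⟩
    · intro n s hs t' ht' hF
      exact H.disj hWu s hs t' ht' hF
    · intro n
      refine ⟨Finset.univ, ?_, fun i' hi' => absurd (Finset.mem_univ _) hi'⟩
      rw [Finset.card_univ, Fintype.card_fin]
      exact hNk
    · intro n
      have h1 := X.lev_lt (f n)
      have h2 := lamN_ge (i + j) k
      rw [hΛ] at h2
      have h3 : 2 * k ≤ 2 * k * k := Nat.le_mul_of_pos_right _ hk
      exact h1.le.trans (h3.trans h2)
    · intro n
      obtain ⟨⟨Y, n', hn', hY⟩, _⟩ := hflip n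
      rw [hothf, hothg] at hY
      exact ⟨Y, n', hn', hY⟩
  refine hU Q B hfinL H.up (2 * k) ((u ^ (i + j)) ^ k) (by omega) H.per.1 H.per.2 W ((i + j) * k) k Λ d cl N _ _ _ _ _ rk
    hwd m V hm (by rw [map_pow, map_pow, hu, one_pow, one_pow]) (fun p hp => (hbig p hp).2) ?_ hW.le ?_
  · intro p hp γ hγ
    by_contra hno
    have hpp : Fact p.Prime := ⟨Nat.prime_of_mem_primeFactors hp⟩
    set V' := V.map (red (Nat.dvd_of_mem_primeFactors hp)) with hV'
    have hu' : V'.chi u = 1 := by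
      show red (Nat.dvd_of_mem_primeFactors hp) (V.chi u) = 1
      rw [hu, map_one]
    have hpb := (hbig p hp).1
    obtain ⟨n, hn⟩ : ∃ n : Fin N, n = ⟨0, hN0⟩ := ⟨_, rfl⟩
    have hwl : ∀ y, (wcl cl d γ (H.up.U y) : ZMod p) = wcl cl d γ y := by
      intro y
      unfold wcl
      rw [hd, hcl]
    have h1 := (hflip n).2 p hpp hpb V' (wcl cl d γ) hu' hwl ?_ ?_ ?_
    · obtain ⟨h2, h3⟩ := h1
      exact H.kap_false V' hEx hEd (hA n) hpb hu' h2 h3 (hkap p hp)
    · rw [hothf]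
      unfold wcl
      have h2 := htree.kl n
      beta_reduce at h2
      rw [h2, hd1]
      by_cases h3 : cl (gN D u (i + j) (x n)) = γ
      · rw [if_pos h3, if_pos h3]
        cases d (gN D u (i + j) (x n)) <;> simp
      · rw [if_neg h3, if_neg h3, add_zero]
    · have h2 := hWs D H.wD H.pD i (i + j) k hi (by omega) hk H.card H.gen_D (x n) (A n) (hA n) (ZMod p)
        (fun δ => wcl cl d γ (δ : Q)) (fun δ => H.line_wD hwl δ) (fun n h0 hn => H.cast_ne hpb h0 (by nlinarith))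
        (hsum γ hγ p hpp hpb)
      intro h3
      apply h2
      refine Eq.trans ?_ h3
      refine Finset.sum_congr rfl fun v _ => ?_
      have h4 : (wcl cl d γ (gN D u (i + j) v) : ZMod p) = wcl cl d γ (v.2 : Q) := H.line_u hwl v.1 (v.2 : Q)
      rw [h4]
    · intro Y Y' n' hn' hF hV
      by_contra hne
      apply hno
      refine ⟨n, Y, Y', n', hn', ?_, ?_, hne⟩
      · rw [hothf, hothg] at hF
        exact hF
      · rw [hothg] at hV
        exact hV
  · rw [H.ord_z]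
    refine lt_of_le_of_lt ?_ hneed
    unfold needN
    rw [hΛ]
    have h1 : W ≤ (2 * m.primeFactors.card) ^ 2 * Λ + Λ + 2 := by rw [← hW]; omega
    exact Nat.mul_le_mul (by omega) (Nat.pow_le_pow_left (Nat.mul_le_mul (Nat.mul_le_mul (Nat.le_succ _)
      (Nat.le_succ _)) h1) 2)

end Pool.Agent.Lib.MP_688fd0_co.SQ5.N
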