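import Pool.Agent.Lib.MP_688fd0_co.SQ5.H98.HeartA1

/-!
Row HEARTA of NEAR-ALL: the assembly at the level of `Q`.
-/

set_option autoImplicit false

namespace Pool.Agent.Lib.MP_688fd0_co.SQ5.NA

open Pool.Agent.Lib.MP_688fd0_co.OSF Pool.Agent.Lib.MP_688fd0_co.SQ2 Pool.Agent.Lib.MP_688fd0_co.SQ3
open Pool.Agent.Lib.MP_688fd0_co.SQ4 Pool.Agent.Lib.MP_688fd0_co.SQ5.N
open SQ2.V (Puz)

theorem lamA_ge {τ k : ℕ} : k ≤ lamA τ k := by
  unfold lamA lamS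
  have h1 : k ≤ 2 * k * k := by nlinarith [Nat.zero_le k, Nat.le_mul_self k]
  exact h1.trans (Nat.le_add_left _ _)

theorem needA_aux {k r K R T Y Y' t n : ℕ} (hk : 0 < k) (hkK : k ≤ K) (hKY : K ≤ Y) (hR : 1 ≤ R) (hT : 1 ≤ T)
    (hkr : k + 2 * r ≤ K * R) (hY' : Y' ≤ Y) (ht : t ≤ T) (h : (4 * K * T * R * Y) ^ 4 < n) :
    100 * k ^ 3 * t ^ 3 < n ∧ (Y + 1) * (t * t) < n ∧ k * (((k + 2 * r) * (t * k)) * Y') ^ 2 < n := by
  have hK : 1 ≤ K := hk.trans_le hkK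
  have hY : 1 ≤ Y := hK.trans hKY
  have hX : (4 * K * T * R * Y) ^ 4 = 256 * (K ^ 4 * T ^ 4 * R ^ 4 * Y ^ 4) := by ring
  rw [hX] at h
  refine ⟨lt_of_le_of_lt ?_ h, lt_of_le_of_lt ?_ h, lt_of_le_of_lt ?_ h⟩
  · have h1 : k ^ 3 * t ^ 3 ≤ K ^ 4 * T ^ 4 := by
      refine Nat.mul_le_mul ?_ ?_
      · exact (Nat.pow_le_pow_left hkK 3).trans (Nat.pow_le_pow_right hK (by norm_num))
      · exact (Nat.pow_le_pow_left ht 3).trans (Nat.pow_le_pow_right hT (by norm_num))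
    have h2 : 1 ≤ R ^ 4 * Y ^ 4 := Nat.mul_pos (Nat.pow_pos hR) (Nat.pow_pos hY)
    calc 100 * k ^ 3 * t ^ 3 = 100 * ((k ^ 3 * t ^ 3) * 1) := by ring
      _ ≤ 256 * ((K ^ 4 * T ^ 4) * (R ^ 4 * Y ^ 4)) :=
        Nat.mul_le_mul (by norm_num) (Nat.mul_le_mul h1 h2)
      _ = _ := by ring
  · have h1 : t * t ≤ T ^ 4 := by
      calc t * t = t ^ 2 := by ring
        _ ≤ T ^ 2 := Nat.pow_le_pow_left ht 2
        _ ≤ T ^ 4 := Nat.pow_le_pow_right hT (by norm_num)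
    have h2 : Y + 1 ≤ 2 * Y ^ 4 := by
      have : Y ≤ Y ^ 4 := Nat.le_self_pow (by norm_num) _
      omega
    have h3 : 1 ≤ K ^ 4 * R ^ 4 := Nat.mul_pos (Nat.pow_pos hK) (Nat.pow_pos hR)
    calc (Y + 1) * (t * t) = (Y + 1) * (t * t) * 1 := by ring
      _ ≤ 2 * Y ^ 4 * T ^ 4 * (K ^ 4 * R ^ 4) := Nat.mul_le_mul (Nat.mul_le_mul h2 h1) h3
      _ ≤ 128 * (2 * Y ^ 4 * T ^ 4 * (K ^ 4 * R ^ 4)) := Nat.le_mul_of_pos_left _ (by norm_num)
      _ = _ := by ring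
  · have h2 : (k + 2 * r) * (t * k) * Y' ≤ K * R * (T * K) * Y :=
      Nat.mul_le_mul (Nat.mul_le_mul hkr (Nat.mul_le_mul ht hkK)) hY'
    calc k * ((k + 2 * r) * (t * k) * Y') ^ 2 ≤ Y * (K * R * (T * K) * Y) ^ 2 :=
          Nat.mul_le_mul (hkK.trans hKY) (Nat.pow_le_pow_left h2 2)
      _ = K ^ 4 * T ^ 2 * R ^ 2 * Y ^ 3 := by ring
      _ ≤ K ^ 4 * T ^ 4 * R ^ 4 * Y ^ 4 := by
        refine Nat.mul_le_mul (Nat.mul_le_mul (Nat.mul_le_mul_left _ ?_) ?_) ?_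
        · exact Nat.pow_le_pow_right hT (by norm_num)
        · exact Nat.pow_le_pow_right hR (by norm_num)
        · exact Nat.pow_le_pow_right hY (by norm_num)
      _ ≤ _ := Nat.le_mul_of_pos_left _ (by norm_num)

theorem needA_big {k τ r n : ℕ} (hk : 0 < k) (h : needA τ k r < n) :
    100 * k ^ 3 * (τ ^ 9) ^ 3 < n ∧ ((2 * r) ^ 2 * lamA τ k + lamA τ k + 1 + 2) * (τ ^ 9 * τ ^ 9) < n ∧
      k * (((k + 2 * r) * (τ ^ 9 * k)) * ((2 * r) ^ 2 * lamA τ k + lamA τ k + 1)) ^ 2 < n := by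
  unfold needA at h
  have hΛ := lamA_ge (τ := τ) (k := k)
  have hT9 : τ ^ 9 ≤ (τ + 1) ^ 30 := (Nat.pow_le_pow_left (Nat.le_succ _) 9).trans
    (Nat.pow_le_pow_right (Nat.succ_pos _) (by norm_num))
  have hT : 1 ≤ (τ + 1) ^ 30 := Nat.one_le_pow _ _ (Nat.succ_pos _)
  have h1 : k + 2 * r ≤ (k + 1) * (r + 2) := by
    have : r ≤ k * r := Nat.le_mul_of_pos_left _ hk
    have h0 : (k + 1) * (r + 2) = k * r + 2 * k + r + 2 := by ring
    omega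
  generalize lamA τ k = Λ at h hΛ ⊢
  generalize (τ + 1) ^ 30 = T at h hT hT9
  generalize τ ^ 9 = t at hT9 ⊢
  generalize (2 * r) ^ 2 * Λ = c at h ⊢
  exact needA_aux (K := k + 1) (R := r + 2) (Y := c + Λ + 2) hk (Nat.le_succ _) (by omega) (by omega) hT h1
    (Nat.le_succ _) hT9 h

/-- HEARTA. -/
theorem heartA (hLoc : LocAS) (hG : LocGS) (hNb : NblS) (hExt : ExtS) (hTr : TreeAS) (hWs : WsumAS)
    (hU : SQ4.HeartUS) : HeartAS := by
  classical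
  intro Q _ _ B a b eps D z k τ num den H hτ hrel hnc m V hm hz hbig hkap hneed
  have hFD : Fintype D := Fintype.ofFinite D
  have hk := H.kpos
  obtain ⟨d, cl, N, x, s₁, s₂, t₁, t₂, rk, hN0, hNk, hd, hcl, hd1, hd2, htree, hn1, hn2, hch⟩ :=
    hTr Q B a b eps D z k τ num den H hrel
  obtain ⟨g, g', hga, hgb, hga', hgb', hgg⟩ := H.exists_nc hnc
  obtain ⟨hbig1, hbig2, hbig3⟩ := needA_big hk hneed
  have hwd : ∀ σ : {σ : Finset B.L // Mid a b σ ∧ σ.card ≤ 9 ∧ g ∈ σ ∧ g' ∈ σ}, ∃ F : Finset Q, Wld H σ.1 F :=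
    fun σ => H.exists_wld hLoc hG hNb hWs hτ hgg hbig1 σ.1 σ.2.1 σ.2.2.1 σ.2.2.2.1 σ.2.2.2.2
  choose F hF using hwd
  -- the worlds of the paths
  have hpath : ∀ n : Fin N, ∃ σ : {σ : Finset B.L // Mid a b σ ∧ σ.card ≤ 9 ∧ g ∈ σ ∧ g' ∈ σ},
      t₁ n ∈ σ.1 ∧ t₂ n ∈ σ.1 := by
    intro n
    refine ⟨⟨{g, g', t₁ n, t₂ n}, ?_, (Finset.card_le_four).trans (by norm_num), by simp, by simp⟩, by simp, by simp⟩
    intro s hs
    simp only [Finset.mem_insert, Finset.mem_singleton] at hs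
    rcases hs with rfl | rfl | rfl | rfl
    · exact ⟨hga, hgb⟩
    · exact ⟨hga', hgb'⟩
    · exact ⟨(hn1 n).1, (hn1 n).2.1⟩
    · exact ⟨(hn2 n).1, (hn2 n).2.1⟩
  choose σp hσp using hpath
  -- the worlds of the flips
  have hflip : ∀ q : {p // p ∈ m.primeFactors} × Bool,
      ∃ σ : {σ : Finset B.L // Mid a b σ ∧ σ.card ≤ 9 ∧ g ∈ σ ∧ g' ∈ σ}, (∃ y, cl y = q.2) →
        ∃ n : Fin N, t₁ n ∈ σ.1 ∧ t₂ n ∈ σ.1 ∧
          (∃ s ∈ σ.1, ∃ s' ∈ σ.1, KapA (V.map (red (Nat.dvd_of_mem_primeFactors q.1.2))) a b s s') ∧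
          ∀ [DecidablePred (· ∈ grpA B a b z σ.1)] [Fintype D],
            (∑ δ : D, if (((x n)⁻¹ * δ : D) : Q) ∈ grpA B a b z σ.1 then
              (wcl cl d q.2 (δ : Q) : ZMod q.1.1) else 0) ≠ 0 := by
    rintro ⟨⟨p, hp⟩, γ⟩
    by_cases hγ : ∃ y, cl y = γ
    · obtain ⟨s, s', hsa, hsb, hsa', hsb', hkp⟩ := hkap p hp
      obtain ⟨n, σ, hsub, ht1, ht2, hmid, hcard, hsum⟩ := hch {g, g', s, s'} (by
        intro r hr
        simp only [Finset.mem_insert, Finset.mem_singleton] at hr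
        rcases hr with rfl | rfl | rfl | rfl
        · exact ⟨hga, hgb⟩
        · exact ⟨hga', hgb'⟩
        · exact ⟨hsa, hsb⟩
        · exact ⟨hsa', hsb'⟩) γ hγ
      have hc4 : ({g, g', s, s'} : Finset B.L).card ≤ 4 := Finset.card_le_four
      refine ⟨⟨σ, hmid, by omega, hsub (by simp), hsub (by simp)⟩, fun _ => ⟨n, ht1, ht2,
        ⟨s, hsub (by simp), s', hsub (by simp), hkp⟩, ?_⟩⟩
      intro _ _
      have hpk : k < p := by
        have h1 := (hbig p hp).1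
        have h2 : k ≤ 36 * τ ^ 9 * k := Nat.le_mul_of_pos_left _ (by positivity)
        omega
      have h3 := hsum p (Nat.prime_of_mem_primeFactors hp) hpk
      intro h4
      apply h3
      refine Eq.trans ?_ h4
      refine Finset.sum_congr (by ext; simp) fun δ _ => ?_
      rfl
    · exact ⟨σp ⟨0, hN0⟩, fun h => absurd h hγ⟩
  choose σf hσf using hflip
  let J : Finset {σ : Finset B.L // Mid a b σ ∧ σ.card ≤ 9 ∧ g ∈ σ ∧ g' ∈ σ} :=
    Finset.univ.image σp ∪ Finset.univ.image σf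
  have hJp : ∀ n, σp n ∈ J := fun n => Finset.mem_union_left _ (Finset.mem_image_of_mem _ (Finset.mem_univ _))
  have hJf : ∀ q, σf q ∈ J := fun q => Finset.mem_union_right _ (Finset.mem_image_of_mem _ (Finset.mem_univ _))
  have hJc : J.card ≤ k + 2 * m.primeFactors.card := by
    refine (Finset.card_union_le _ _).trans (Nat.add_le_add ?_ ?_)
    · refine Finset.card_image_le.trans ?_
      rw [Finset.card_univ, Fintype.card_fin]
      exact hNk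
    · refine Finset.card_image_le.trans ?_
      rw [Finset.card_univ, Fintype.card_prod, Fintype.card_bool, Fintype.card_coe, mul_comm]
  obtain ⟨F', hF'⟩ : ∃ F' : Finset Q, J.biUnion F = F' := ⟨_, rfl⟩
  have hsubF : ∀ σ ∈ J, F σ ⊆ F' := by
    intro σ hσ
    rw [← hF']
    exact Finset.subset_biUnion_of_mem F hσ
  have hFc : F'.card ≤ (k + 2 * m.primeFactors.card) * (τ ^ 9 * k) := by
    rw [← hF']
    refine (Finset.card_biUnion_le_card_mul _ _ _ (fun σ _ => (hF σ).card)).trans ?_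
    exact Nat.mul_le_mul_right _ hJc
  obtain ⟨Λ, hΛ⟩ : ∃ Λ, lamA τ k = Λ := ⟨_, rfl⟩
  rw [hΛ] at hbig2 hbig3
  obtain ⟨W, hW⟩ : ∃ W, (2 * m.primeFactors.card) ^ 2 * Λ + Λ + 1 = W := ⟨_, rfl⟩
  rw [hW] at hbig2 hbig3
  have hdisj : ∀ s ∈ F', ∀ j : ℤ, |j| ≤ W → (H.up.U ^ j) s ∈ F' → j = 0 := by
    intro s hs j hj hy
    obtain ⟨y, hyd⟩ : ∃ y, (H.up.U ^ j) s = y := ⟨_, rfl⟩
    rw [hyd] at hy
    rw [← hF'] at hs hy
    obtain ⟨σ, _, hsσ⟩ := Finset.mem_biUnion.1 hs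
    obtain ⟨σ', _, hyσ'⟩ := Finset.mem_biUnion.1 hy
    obtain ⟨u, e, hue, huz, he, hm1⟩ := (hF σ).mem
    obtain ⟨u', e', hue', huz', he', hm2⟩ := (hF σ').mem
    obtain ⟨c, δ, rfl⟩ := hm1 s hsσ
    obtain ⟨c', δ', rfl⟩ := hm2 y hyσ'
    exact H.disj hue hue' huz huz' (lt_of_le_of_lt (Nat.mul_le_mul_left _ (Nat.mul_le_mul he he')) hbig2) c c' δ δ' j hj
      hyd
  have hx1 : ∀ n, (x n : Q) ≠ s₁ n := by
    intro n h1
    have h2 := hd1 n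
    rw [← h1] at h2
    cases h3 : d (x n : Q) <;> rw [h3] at h2 <;> exact absurd h2 (by decide)
  have hx2 : ∀ n, (x n : Q) ≠ s₂ n := by
    intro n h1
    have h2 := hd2 n
    rw [← h1] at h2
    cases h3 : d (x n : Q) <;> rw [h3] at h2 <;> exact absurd h2 (by decide)
  have h12 : ∀ n, s₁ n ≠ s₂ n := fun n h1 => htree.lm n (by rw [h1])
  have hΛW : Λ ≤ W := by rw [← hW]; omega
  have hext : ∀ (σ : {σ : Finset B.L // Mid a b σ ∧ σ.card ≤ 9 ∧ g ∈ σ ∧ g' ∈ σ}), σ ∈ J → ∀ (n : Fin N) (X : TW B)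
      (l : ℕ), l ≤ Λ → FWin H.up (2 * k) (F σ) 0 (x n) (s₁ n) (s₂ n) X l →
      ∃ Y : TW B, FWin H.up (2 * k) F' 0 (x n) (s₁ n) (s₂ n) Y l ∧
        ∀ X' : TW B, Ver H.up X X' l (s₂ n) → ∃ Y' : TW B, Ver H.up Y Y' l (s₂ n) ∧
          ∀ (R : Type) [CommRing R] (V : Vd B R) (ω : Q → R), dvolw V ω Y Y' = dvolw V ω X X' := by
    intro σ hσ n X l hl hX
    refine hExt Q B H.up (2 * k) (F σ) F' (x n) (s₁ n) (s₂ n) X l (hsubF σ hσ) ?_ hX
    intro s hs j hj hy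
    refine hdisj s hs j (hj.trans ?_) hy
    exact_mod_cast hl.trans hΛW
  have hwp : ∀ n, _ := fun n => (hF (σp n)).win (x n) (s₁ n) (s₂ n) (t₁ n) (t₂ n) (hσp n).1 (hσp n).2 (hn1 n).2.2
    (hn2 n).2.2 (hx1 n) (hx2 n) (h12 n)
  have hwld : World H.up (2 * k) W ((k + 2 * m.primeFactors.card) * (τ ^ 9 * k)) k Λ d cl (fun n => (x n : Q)) s₁ s₂
      (fun _ => F') (fun _ => 0) rk := by
    refine ⟨hN0, hd, hcl, hd1, hd2, htree, fun _ => hdisj, fun n => hsubF _ (hJp n) (hwp n).1.1,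
      fun n => hsubF _ (hJp n) (hwp n).1.2.1, fun n => hsubF _ (hJp n) (hwp n).1.2.2, fun _ => hFc, ?_,
      fun _ => Nat.zero_le _, ?_⟩
    · intro n
      refine ⟨Finset.univ, ?_, fun i' hi' => absurd (Finset.mem_univ _) hi'⟩
      rw [Finset.card_univ, Fintype.card_fin]
      exact hNk
    · intro n
      obtain ⟨Y, l, hl, hY⟩ := (hwp n).2.1
      rw [hΛ] at hl
      obtain ⟨Y', hY', _⟩ := hext _ (hJp n) n Y l hl hY
      exact ⟨Y', l, hl, hY'⟩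
  have hper : Per H.up (2 * k) (z ^ k) := by
    obtain ⟨u, i, e, hS, hue, -⟩ := hG Q B a b eps D z k τ num den H hτ {g} (by
      intro s hs
      rw [Finset.mem_singleton] at hs
      rw [hs]
      exact ⟨hga, hgb⟩) (by
        rw [Finset.card_singleton]
        refine lt_of_le_of_lt ?_ hbig1
        exact Nat.mul_le_mul_left _ (Nat.pow_le_pow_left (Nat.pow_le_pow_right hτ (by norm_num)) 3))
    have h1 : Per hS.up (2 * k) ((u ^ e) ^ k) := hS.per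
    rw [hue] at h1
    exact h1
  refine hU Q B H.finL H.up (2 * k) (z ^ k) (by omega) hper.1 hper.2 W ((k + 2 * m.primeFactors.card) * (τ ^ 9 * k)) k Λ
    d cl N _ _ _ _ _ rk hwld m V hm (by rw [map_pow, hz, one_pow]) (fun p hp => (hbig p hp).2) ?_ hW.le ?_
  · intro p hp γ hγ
    have hpp : Fact p.Prime := ⟨Nat.prime_of_mem_primeFactors hp⟩
    obtain ⟨n, ht1, ht2, hkp, hsum⟩ := hσf (⟨p, hp⟩, γ) hγ
    obtain ⟨σ, hσ⟩ : ∃ σ, σf (⟨p, hp⟩, γ) = σ := ⟨_, rfl⟩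
    have hσJ : σ ∈ J := by rw [← hσ]; exact hJf _
    rw [hσ] at ht1 ht2 hkp hsum
    set V' := V.map (red (Nat.dvd_of_mem_primeFactors hp)) with hV'
    have hz' : V'.chi z = 1 := by
      show red (Nat.dvd_of_mem_primeFactors hp) (V.chi z) = 1
      rw [hz, map_one]
    have hwl : ∀ y, (wcl cl d γ (H.up.U y) : ZMod p) = wcl cl d γ y := by
      intro y
      unfold wcl
      rw [hd, hcl]
    have hw := (hF σ).win (x n) (s₁ n) (s₂ n) (t₁ n) (t₂ n) ht1 ht2 (hn1 n).2.2 (hn2 n).2.2 (hx1 n) (hx2 n) (h12 n)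
    obtain ⟨X, X', l, hl, hX, hXX, hdv⟩ := hw.2.2 p hpp (hbig p hp).1 V' (wcl cl d γ) hz' hwl (by
      unfold wcl
      have h2 := htree.kl n
      beta_reduce at h2
      rw [h2, hd1]
      by_cases h3 : cl (x n : Q) = γ
      · rw [if_pos h3, if_pos h3]
        cases d (x n : Q) <;> simp
      · rw [if_neg h3, if_neg h3, add_zero]) (fun {_} {_} => hsum) hkp
    rw [hΛ] at hl
    obtain ⟨Y, hY, hYv⟩ := hext σ hσJ n X l hl hX
    obtain ⟨Y', hYY, hd'⟩ := hYv X' hXX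
    exact ⟨n, Y, Y', l, hl, hY, hYY, by rw [hd']; exact hdv⟩
  · have h1 : orderOf (z ^ k) = orderOf z := H.copk.orderOf_pow
    rw [h1]
    exact hbig3

end Pool.Agent.Lib.MP_688fd0_co.SQ5.NA
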