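import Pool.Agent.Lib.MP_688fd0_co.SQ5.NA.Iface
import Pool.Agent.Lib.MP_688fd0_co.SQ5.H98.Heart

/-!
Row HEARTA of NEAR-ALL, first part: lines, levels, letters.
-/

set_option autoImplicit false

namespace Pool.Agent.Lib.MP_688fd0_co.SQ5.NA

open Pool.Agent.Lib.MP_688fd0_co.OSF Pool.Agent.Lib.MP_688fd0_co.SQ2 Pool.Agent.Lib.MP_688fd0_co.SQ3
open Pool.Agent.Lib.MP_688fd0_co.SQ4 Pool.Agent.Lib.MP_688fd0_co.SQ5.N
open SQ2.V (Puz)

section up

variable {Q : Type} [Group Q] {B : Lb.{0, 0} Q} {a b : B.L} {eps : Q →* ℤˣ} (ha : eps (B.q a) = -1)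
  (hb : eps (B.q b) = -1)

theorem upC_eps (x : Q) : eps ((upC B a b eps ha hb).U x) = - eps x := by
  rcases Int.units_eq_one_or (eps x) with hx | hx
  · have h4 : (upC B a b eps ha hb).U x = x * B.q a := if_pos hx
    rw [h4, map_mul, ha, hx]; decide
  · have h4 : (upC B a b eps ha hb).U x = x * (B.q b)⁻¹ := if_neg (by rw [hx]; decide)
    rw [h4, map_mul, map_inv, hb, hx]; decide

include ha hb in
theorem eps_w : eps (B.q a * (B.q b)⁻¹) = 1 := by rw [map_mul, map_inv, ha, hb]; decide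

theorem upC_two (x : Q) (hx : eps x = 1) :
    (upC B a b eps ha hb).U ((upC B a b eps ha hb).U x) = x * (B.q a * (B.q b)⁻¹) := by
  have h4 : (upC B a b eps ha hb).U x = x * B.q a := if_pos hx
  have h5 : eps (x * B.q a) ≠ 1 := by rw [map_mul, hx, ha]; decide
  rw [h4]
  have h6 : (upC B a b eps ha hb).U (x * B.q a) = x * B.q a * (B.q b)⁻¹ := if_neg h5
  rw [h6, mul_assoc]

theorem upC_nat (x : Q) (hx : eps x = 1) (l : ℕ) :
    ((upC B a b eps ha hb).U ^ (2 * l)) x = x * (B.q a * (B.q b)⁻¹) ^ l := by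
  induction l with
  | zero => simp
  | succ l ih =>
    rw [Nat.mul_succ, (upC B a b eps ha hb).U_pow_succ', (upC B a b eps ha hb).U_pow_succ', ih,
      upC_two ha hb _ (by rw [map_mul, hx, map_pow, eps_w ha hb, one_pow, one_mul]), pow_succ, mul_assoc]

theorem upC_int (x : Q) (hx : eps x = 1) (l : ℤ) :
    ((upC B a b eps ha hb).U ^ (2 * l)) x = x * (B.q a * (B.q b)⁻¹) ^ l := by
  obtain ⟨l, rfl | rfl⟩ := l.eq_nat_or_neg
  · have h := upC_nat ha hb x hx l
    rw [zpow_natCast, ← h, ← zpow_natCast]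
    exact congrArg (fun (e : Equiv.Perm Q) => e x) (congrArg ((upC B a b eps ha hb).U ^ ·) (by push_cast; rfl))
  · rw [mul_neg, zpow_neg, zpow_neg, Equiv.Perm.inv_eq_iff_eq, zpow_natCast]
    have hx' : eps (x * ((B.q a * (B.q b)⁻¹) ^ l)⁻¹) = 1 := by
      rw [map_mul, hx, map_inv, map_pow, eps_w ha hb, one_pow, inv_one, one_mul]
    have h := upC_nat ha hb _ hx' l
    rw [inv_mul_cancel_right] at h
    have h9 : ((upC B a b eps ha hb).U ^ (2 * (l : ℤ))) = (upC B a b eps ha hb).U ^ (2 * l) := by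
      rw [← zpow_natCast]
      exact congrArg ((upC B a b eps ha hb).U ^ ·) (by push_cast; rfl)
    rw [h9, h]

end up

section glob

variable {Q : Type} [Group Q] {B : Lb.{0, 0} Q} {a b : B.L} {eps : Q →* ℤˣ} {D : Subgroup Q} {z : Q} {k τ : ℕ}
  {num den : B.L → ℕ} (H : HypG B a b eps D z k τ num den)
include H

theorem HypG.copk : (orderOf z).Coprime k := by
  refine Nat.coprime_of_dvd fun p hp hpz hpk => ?_
  have := H.fin
  have h1 := (H.cop p (Nat.mem_primeFactors.2 ⟨hp, hpz, (orderOf_pos z).ne'⟩)).1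
  have h2 := Nat.le_of_dvd H.kpos hpk
  omega

theorem HypG.dis {n : ℤ} (h : z ^ n ∈ D) : z ^ n = 1 := by
  have := H.fin
  have h1 : orderOf (z ^ n) ∣ Nat.card D := by
    have := orderOf_dvd_natCard (⟨z ^ n, h⟩ : D)
    rwa [Subgroup.orderOf_mk] at this
  have h2 : orderOf (z ^ n) ∣ orderOf z := by
    rw [orderOf_dvd_iff_pow_eq_one, ← zpow_natCast, ← zpow_mul, mul_comm, zpow_mul, zpow_natCast, pow_orderOf_eq_one,
      one_zpow]
  rw [← orderOf_eq_one_iff, ← Nat.dvd_one, ← H.copk]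
  exact Nat.dvd_gcd h2 (h1.trans H.card)

/-- The `D`-part of `w`. -/
def HypG.wD : D := ⟨z⁻¹ * (B.q a * (B.q b)⁻¹), H.mw⟩

theorem HypG.w_eq : B.q a * (B.q b)⁻¹ = z * (H.wD : Q) := by
  show _ = z * (z⁻¹ * (B.q a * (B.q b)⁻¹))
  rw [mul_inv_cancel_left]

theorem HypG.czd {x : Q} (hx : eps x = 1) : Commute z x := (H.cen _ hx).symm

theorem HypG.eps_w : eps (B.q a * (B.q b)⁻¹) = 1 := NA.eps_w (H.neg a) (H.neg b)

theorem HypG.w_zpow (l : ℤ) : (B.q a * (B.q b)⁻¹) ^ l = z ^ l * ((H.wD ^ l : D) : Q) := by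
  rw [H.w_eq, (H.czd (H.leD H.wD.2)).mul_zpow, Subgroup.coe_zpow]

theorem HypG.zk : ∃ n : ℕ, (z ^ k) ^ n = z := by
  have h1 := exists_pow_eq_self_of_coprime (x := z) H.copk.symm
  obtain ⟨m, hm⟩ := h1
  exact ⟨m, hm⟩

/-- The group generated by `z`, `w` and the letters of `σ`, and its `D`-part. -/
theorem HypG.mem_grp {σ : Finset B.L} {u : Q} {i : {s // s ∈ σ} → ℕ} {e : ℕ}
    (hS : HypS B a b (fun s : {s // s ∈ σ} => s.1) eps D u i e k) (hue : u ^ e = z) (huz : u ∈ Subgroup.zpowers z)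
    (δ : D) : δ ∈ Subgroup.closure (insert hS.wD (Set.range hS.pD)) ↔ (δ : Q) ∈ grpA B a b z σ := by
  have hz : z ∈ grpA B a b z σ := Subgroup.subset_closure (Or.inl (Or.inl rfl))
  have hw : B.q a * (B.q b)⁻¹ ∈ grpA B a b z σ := Subgroup.subset_closure (Or.inl (Or.inr rfl))
  have hu : u ∈ grpA B a b z σ := by
    have h1 : Subgroup.zpowers z ≤ grpA B a b z σ := by rw [Subgroup.zpowers_le]; exact hz
    exact h1 huz
  have hp : ∀ s ∈ σ, B.q a * (B.q s)⁻¹ ∈ grpA B a b z σ := fun s hs => Subgroup.subset_closure (Or.inr ⟨s, hs, rfl⟩)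
  set S : Subgroup D := Subgroup.closure (insert hS.wD (Set.range hS.pD)) with hSd
  have hwS : hS.wD ∈ S := Subgroup.subset_closure (Set.mem_insert _ _)
  have hpS : ∀ s, hS.pD s ∈ S := fun s => Subgroup.subset_closure (Set.mem_insert_of_mem _ ⟨s, rfl⟩)
  constructor
  · intro h
    have h1 : S ≤ (grpA B a b z σ).comap D.subtype := by
      rw [hSd, Subgroup.closure_le]
      rintro y (rfl | ⟨s, rfl⟩)
      · show (u ^ e)⁻¹ * (B.q a * (B.q b)⁻¹) ∈ grpA B a b z σ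
        exact mul_mem (inv_mem (pow_mem hu _)) hw
      · show (u ^ i s)⁻¹ * (B.q a * (B.q s.1)⁻¹) ∈ grpA B a b z σ
        exact mul_mem (inv_mem (pow_mem hu _)) (hp s.1 s.2)
    exact h1 h
  · intro h
    have hcz : ∀ d : D, Commute z (d : Q) := fun d => H.czd (H.leD d.2)
    let T : Subgroup Q :=
      { carrier := {x | ∃ n : ℤ, ∃ d ∈ S, x = z ^ n * ((d : D) : Q)}
        one_mem' := ⟨0, 1, S.one_mem, by rw [zpow_zero, Subgroup.coe_one, mul_one]⟩
        mul_mem' := by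
          rintro _ _ ⟨n, d, hd, rfl⟩ ⟨n', d', hd', rfl⟩
          refine ⟨n + n', d * d', S.mul_mem hd hd', ?_⟩
          have h4 : (d : Q) * z ^ n' = z ^ n' * d := ((hcz d).zpow_left _).eq.symm
          calc _ = z ^ n * ((d : Q) * z ^ n') * (d' : Q) := by group
            _ = _ := by rw [h4, zpow_add, Subgroup.coe_mul]; group
        inv_mem' := by
          rintro _ ⟨n, d, hd, rfl⟩
          refine ⟨-n, d⁻¹, S.inv_mem hd, ?_⟩
          rw [mul_inv_rev, zpow_neg, Subgroup.coe_inv]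
          exact (((hcz d).zpow_left n).inv_inv).eq.symm }
    have hzT : z ∈ T := ⟨1, 1, S.one_mem, by rw [zpow_one, Subgroup.coe_one, mul_one]⟩
    have hzT' : Subgroup.zpowers z ≤ T := by rw [Subgroup.zpowers_le]; exact hzT
    have hDT : ∀ d ∈ S, ((d : D) : Q) ∈ T := fun d hd => ⟨0, d, hd, by rw [zpow_zero, one_mul]⟩
    have h1 : grpA B a b z σ ≤ T := by
      unfold grpA
      rw [Subgroup.closure_le]
      rintro y ((rfl | rfl) | ⟨s, hs, rfl⟩)
      · exact hzT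
      · have h2 : B.q a * (B.q b)⁻¹ = u ^ e * (hS.wD : Q) := by
          show _ = u ^ e * ((u ^ e)⁻¹ * (B.q a * (B.q b)⁻¹))
          rw [mul_inv_cancel_left]
        show B.q a * (B.q b)⁻¹ ∈ T
        rw [h2]
        exact T.mul_mem (T.pow_mem (hzT' huz) _) (hDT _ hwS)
      · have h2 : B.q a * (B.q s)⁻¹ = u ^ i ⟨s, hs⟩ * (hS.pD ⟨s, hs⟩ : Q) := by
          show _ = u ^ i ⟨s, hs⟩ * ((u ^ i ⟨s, hs⟩)⁻¹ * (B.q a * (B.q s)⁻¹))
          rw [mul_inv_cancel_left]
        show B.q a * (B.q s)⁻¹ ∈ T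
        rw [h2]
        exact T.mul_mem (T.pow_mem (hzT' huz) _) (hDT _ (hpS _))
    obtain ⟨n, d', hd', h2⟩ := h1 h
    have h3 : z ^ n = ((δ * d'⁻¹ : D) : Q) := by rw [Subgroup.coe_mul, Subgroup.coe_inv, h2, mul_inv_cancel_right]
    have h4 := H.dis (n := n) (by rw [h3]; exact (δ * d'⁻¹ : D).2)
    rw [h4, one_mul] at h2
    have h5 : δ = d' := Subtype.ext h2
    rw [h5]; exact hd'

/-- Two letters which make every world non-commutative. -/
theorem HypG.exists_nc (hnc : ∃ x y : Q, eps x = 1 ∧ eps y = 1 ∧ x * y ≠ y * x) :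
    ∃ g g' : B.L, g ≠ a ∧ g ≠ b ∧ g' ≠ a ∧ g' ≠ b ∧
      ((B.q a * (B.q g)⁻¹) * (B.q a * (B.q b)⁻¹) ≠ (B.q a * (B.q b)⁻¹) * (B.q a * (B.q g)⁻¹) ∨
        (B.q a * (B.q g)⁻¹) * (B.q a * (B.q g')⁻¹) ≠ (B.q a * (B.q g')⁻¹) * (B.q a * (B.q g)⁻¹)) := by
  by_contra hno
  push Not at hno
  have hinv : ∀ s, (B.q s)⁻¹ = B.q s := fun s => inv_eq_of_mul_eq_one_right (H.inv s)
  -- the elements `a s⁻¹` commute pairwise
  have hcc : ∀ s s' : B.L, (B.q a * (B.q s)⁻¹) * (B.q a * (B.q s')⁻¹) = (B.q a * (B.q s')⁻¹) * (B.q a * (B.q s)⁻¹) := by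
    intro s s'
    by_cases hsa : s = a
    · rw [hsa, mul_inv_cancel, one_mul, mul_one]
    by_cases hsa' : s' = a
    · rw [hsa', mul_inv_cancel, one_mul, mul_one]
    by_cases hsb : s = b
    · by_cases hsb' : s' = b
      · rw [hsb, hsb']
      · rw [hsb]; exact ((hno s' s' hsa' hsb' hsa' hsb').1).symm
    by_cases hsb' : s' = b
    · rw [hsb']; exact (hno s s hsa hsb hsa hsb).1
    exact (hno s s' hsa hsb hsa' hsb').2
  let S : Set Q := {x | ∃ s : B.L, x = B.q a * (B.q s)⁻¹}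
  have hS : ∀ x ∈ S, ∀ y ∈ S, x * y = y * x := by
    rintro _ ⟨s, rfl⟩ _ ⟨s', rfl⟩
    exact hcc s s'
  have hcomm := (Subgroup.isMulCommutative_closure hS).is_comm.comm
  have key : ∀ x : Q, x ∈ Subgroup.closure S ∨ x * B.q a ∈ Subgroup.closure S := by
    intro x
    have hx : x ∈ Subgroup.closure (Set.range B.q) := by rw [H.gen]; exact Subgroup.mem_top x
    have hs : ∀ y : Q, (y ∈ Subgroup.closure S ∨ y * B.q a ∈ Subgroup.closure S) → ∀ s : B.L,
        (y * B.q s ∈ Subgroup.closure S ∨ y * B.q s * B.q a ∈ Subgroup.closure S) := by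
      intro y hy s
      have hm : B.q a * (B.q s)⁻¹ ∈ Subgroup.closure S := Subgroup.subset_closure ⟨s, rfl⟩
      rcases hy with hy | hy
      · right
        have h1 := mul_mem hy (inv_mem hm)
        rwa [mul_inv_rev, inv_inv, hinv a, ← mul_assoc] at h1
      · left
        have h1 := mul_mem hy hm
        rwa [hinv s, mul_assoc, ← mul_assoc (B.q a) (B.q a), H.inv a, one_mul] at h1
    induction hx using Subgroup.closure_induction_right with
    | one => exact Or.inl (one_mem _)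
    | mul_right y _ s hs' ih =>
      obtain ⟨s, rfl⟩ := hs'
      exact hs y ih s
    | mul_inv_cancel y _ s hs' ih =>
      obtain ⟨s, rfl⟩ := hs'
      rw [hinv s]
      exact hs y ih s
  have hSe : Subgroup.closure S ≤ eps.ker := by
    rw [Subgroup.closure_le]
    rintro _ ⟨s, rfl⟩
    show eps (B.q a * (B.q s)⁻¹) = 1
    rw [map_mul, map_inv, H.neg a, H.neg s]; decide
  have key' : ∀ x : Q, eps x = 1 → x ∈ Subgroup.closure S := by
    intro x hx
    rcases key x with h1 | h1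
    · exact h1
    · exfalso
      have h2 : eps (x * B.q a) = 1 := hSe h1
      rw [map_mul, hx, H.neg a] at h2
      exact absurd h2 (by decide)
  obtain ⟨x, y, hx, hy, hxy⟩ := hnc
  exact hxy (congrArg Subtype.val (hcomm ⟨x, key' x hx⟩ ⟨y, key' y hy⟩))

end glob

theorem hN_mono {e e' k : ℕ} (h : e ≤ e') : hN e k ≤ hN e' k := by
  unfold hN
  exact Nat.mul_le_mul_right _ (Nat.mul_le_mul_left _ (Nat.pow_le_pow_left (by omega) 4))

theorem lamS_mono {c c' e e' k : ℕ} (hc : c ≤ c') (he : e ≤ e') : lamS c e k ≤ lamS c' e' k := by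
  have h1 : c * (e * k ^ 2) ≤ c' * (e' * k ^ 2) := Nat.mul_le_mul hc (Nat.mul_le_mul_right _ he)
  have h2 : (e * k + 1) ^ (e * k) ≤ (e' * k + 1) ^ (e' * k) :=
    (Nat.pow_le_pow_left (Nat.succ_le_succ (Nat.mul_le_mul_right _ he)) _).trans
      (Nat.pow_le_pow_right (Nat.succ_pos _) (Nat.mul_le_mul_right _ he))
  unfold lamS
  refine Nat.add_le_add_right ?_ _
  exact Nat.mul_le_mul (Nat.mul_le_mul_left _ (Nat.succ_le_succ (Nat.mul_le_mul (Nat.succ_le_succ h1) h2)))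
    (Nat.add_le_add_left (hN_mono he) _)

/-- The strands of two worlds lie on different lines, or at different levels only by `0`. -/
theorem HypG.disj {Q : Type} [Group Q] {B : Lb.{0, 0} Q} {a b : B.L} {eps : Q →* ℤˣ} {D : Subgroup Q} {z : Q} {k τ : ℕ}
    {num den : B.L → ℕ} (H : HypG B a b eps D z k τ num den) {u u' : Q} {e e' W : ℕ} (hu : u ^ e = z) (hu' : u' ^ e' = z)
    (huz : u ∈ Subgroup.zpowers z) (huz' : u' ∈ Subgroup.zpowers z)
    (hW : (W + 2) * (e * e') < orderOf z) (c : Fin e) (c' : Fin e') (δ δ' : D) (j : ℤ) (hj : |j| ≤ W)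
    (h : (H.up.U ^ j) (u ^ (c : ℕ) * (δ : Q)) = u' ^ (c' : ℕ) * (δ' : Q)) : j = 0 := by
  have hez : ∀ y ∈ Subgroup.zpowers z, eps y = 1 := by
    intro y hy
    obtain ⟨n, rfl⟩ := Subgroup.mem_zpowers_iff.1 hy
    rw [map_zpow, H.ez, one_zpow]
  have hey : eps (u ^ (c : ℕ) * (δ : Q)) = 1 := by
    rw [map_mul, map_pow, hez u huz, one_pow, one_mul]
    exact H.leD δ.2
  have hey' : eps (u' ^ (c' : ℕ) * (δ' : Q)) = 1 := by
    rw [map_mul, map_pow, hez u' huz', one_pow, one_mul]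
    exact H.leD δ'.2
  rcases Int.even_or_odd' j with ⟨l, rfl | rfl⟩
  · have h1 : u ^ (c : ℕ) * (δ : Q) * (B.q a * (B.q b)⁻¹) ^ l = u' ^ (c' : ℕ) * (δ' : Q) := by
      rw [← h]
      exact (upC_int (H.neg a) (H.neg b) _ hey l).symm
    rw [H.w_zpow] at h1
    have hcz : (δ : Q) * z ^ l = z ^ l * δ := ((H.czd (H.leD δ.2)).zpow_left _).eq.symm
    have huc : u ^ (c : ℕ) ∈ Subgroup.zpowers z := Subgroup.pow_mem _ huz _
    have huc' : u' ^ (c' : ℕ) ∈ Subgroup.zpowers z := Subgroup.pow_mem _ huz' _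
    have hg : (u' ^ (c' : ℕ))⁻¹ * (u ^ (c : ℕ) * z ^ l) ∈ Subgroup.zpowers z :=
      mul_mem (inv_mem huc') (mul_mem huc (Subgroup.zpow_mem_zpowers z l))
    have hgD : (u' ^ (c' : ℕ))⁻¹ * (u ^ (c : ℕ) * z ^ l) = ((δ' * (δ * H.wD ^ l)⁻¹ : D) : Q) := by
      have h2 : u ^ (c : ℕ) * z ^ l * ((δ * H.wD ^ l : D) : Q) = u' ^ (c' : ℕ) * (δ' : Q) := by
        rw [← h1, Subgroup.coe_mul]
        calc _ = u ^ (c : ℕ) * (z ^ l * (δ : Q)) * ((H.wD ^ l : D) : Q) := by group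
          _ = _ := by rw [← hcz]; group
      have h3 : ((δ' * (δ * H.wD ^ l)⁻¹ : D) : Q) = (δ' : Q) * ((δ * H.wD ^ l : D) : Q)⁻¹ := rfl
      rw [h3, eq_mul_inv_iff_mul_eq, mul_assoc, h2, inv_mul_cancel_left]
    obtain ⟨n, hn⟩ := Subgroup.mem_zpowers_iff.1 hg
    have h4 : (u' ^ (c' : ℕ))⁻¹ * (u ^ (c : ℕ) * z ^ l) = 1 := by
      rw [← hn]
      exact H.dis (by rw [hn, hgD]; exact (δ' * (δ * H.wD ^ l)⁻¹ : D).2)
    have h5 : u ^ (c : ℕ) * z ^ l = u' ^ (c' : ℕ) := (inv_mul_eq_one.1 h4).symm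
    -- the `e e'`-th powers
    have hcomm : Commute (u ^ (c : ℕ)) (z ^ l) := by
      obtain ⟨n, hn⟩ := Subgroup.mem_zpowers_iff.1 huc
      rw [← hn]
      exact (Commute.refl z).zpow_zpow n l
    have h6 : z ^ ((c : ℤ) * e' + l * (e * e')) = z ^ ((c' : ℤ) * e) := by
      have h7 : (u ^ (c : ℕ) * z ^ l) ^ (e * e') = (u' ^ (c' : ℕ)) ^ (e * e') := by rw [h5]
      have h8 : (u ^ (c : ℕ)) ^ (e * e') = z ^ ((c : ℤ) * e') := by
        rw [← pow_mul, mul_left_comm, pow_mul, hu, ← zpow_natCast]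
        push_cast
        rfl
      have h9 : (u' ^ (c' : ℕ)) ^ (e * e') = z ^ ((c' : ℤ) * e) := by
        rw [← pow_mul, mul_comm e e', mul_left_comm, pow_mul, hu', ← zpow_natCast]
        push_cast
        rfl
      have h10 : (z ^ l) ^ (e * e') = z ^ (l * (e * e')) := by
        rw [← zpow_natCast, ← zpow_mul]
        push_cast
        rfl
      rw [hcomm.mul_pow, h8, h9, h10, ← zpow_add] at h7
      exact h7
    have h7 : (orderOf z : ℤ) ∣ ((c : ℤ) * e' + l * (e * e')) - (c' : ℤ) * e := by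
      rw [orderOf_dvd_iff_zpow_eq_one, zpow_sub, h6, mul_inv_cancel]
    have hc := c.2
    have hc' := c'.2
    have hce : (c : ℤ) * e' < e * e' := by
      have : (c : ℤ) < e := by exact_mod_cast hc
      have h0 : (0 : ℤ) < e' := by exact_mod_cast (Nat.zero_le _).trans_lt hc'
      exact mul_lt_mul_of_pos_right this h0
    have hce' : (c' : ℤ) * e < e * e' := by
      have : (c' : ℤ) < e' := by exact_mod_cast hc'
      have h0 : (0 : ℤ) < e := by exact_mod_cast (Nat.zero_le _).trans_lt hc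
      rw [mul_comm (e : ℤ) e']
      exact mul_lt_mul_of_pos_right this h0
    have hce0 : (0 : ℤ) ≤ (c : ℤ) * e' := by positivity
    have hce0' : (0 : ℤ) ≤ (c' : ℤ) * e := by positivity
    have hlW : |l| ≤ W := by
      rw [abs_mul] at hj
      have h2 : |(2 : ℤ)| = 2 := rfl
      rw [h2] at hj
      have := abs_nonneg l
      omega
    have hee : (0 : ℤ) < (e : ℤ) * e' := lt_of_le_of_lt hce0 hce
    have hWz : ((W : ℤ) + 2) * ((e : ℤ) * e') < orderOf z := by exact_mod_cast hW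
    have h8 : |l * ((e : ℤ) * e')| ≤ (W : ℤ) * ((e : ℤ) * e') := by
      rw [abs_mul, abs_of_pos hee]
      exact mul_le_mul_of_nonneg_right hlW hee.le
    have h9 : ((c : ℤ) * e' + l * (e * e')) - (c' : ℤ) * e = 0 := by
      apply Int.eq_zero_of_abs_lt_dvd h7
      have h10 := abs_le.1 h8
      rw [abs_lt]
      constructor <;> nlinarith
    have h10 : l * ((e : ℤ) * e') = (c' : ℤ) * e - (c : ℤ) * e' := by linarith
    have h11 : l = 0 := by
      by_contra hne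
      have h12 : (1 : ℤ) ≤ |l| := Int.one_le_abs hne
      have h13 : |l| * ((e : ℤ) * e') = |(c' : ℤ) * e - (c : ℤ) * e'| := by
        rw [← h10, abs_mul, abs_of_pos hee]
      have h14 : |(c' : ℤ) * e - (c : ℤ) * e'| < (e : ℤ) * e' := by rw [abs_lt]; constructor <;> linarith
      nlinarith
    rw [h11, mul_zero]
  · exfalso
    rw [← h, add_comm, zpow_add, zpow_one, Equiv.Perm.mul_apply] at hey'
    have h1 : (H.up.U ^ (2 * l)) (u ^ (c : ℕ) * (δ : Q)) = u ^ (c : ℕ) * (δ : Q) * (B.q a * (B.q b)⁻¹) ^ l :=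
      upC_int (H.neg a) (H.neg b) _ hey l
    rw [h1] at hey'
    have h2 : eps (H.up.U (u ^ (c : ℕ) * (δ : Q) * (B.q a * (B.q b)⁻¹) ^ l)) =
        - eps (u ^ (c : ℕ) * (δ : Q) * (B.q a * (B.q b)⁻¹) ^ l) := upC_eps (H.neg a) (H.neg b) _
    rw [h2, map_mul, hey, map_zpow, H.eps_w, one_zpow] at hey'
    exact absurd hey' (by decide)

end Pool.Agent.Lib.MP_688fd0_co.SQ5.NA
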