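import Pool.Agent.Lib.MP_688fd0_co.SQ5.H98.HeartA0

/-!
Row HEARTA of NEAR-ALL, second part: the world of a set of letters.
-/

set_option autoImplicit false

namespace Pool.Agent.Lib.MP_688fd0_co.SQ5.NA

open Pool.Agent.Lib.MP_688fd0_co.OSF Pool.Agent.Lib.MP_688fd0_co.SQ2 Pool.Agent.Lib.MP_688fd0_co.SQ3
open Pool.Agent.Lib.MP_688fd0_co.SQ4 Pool.Agent.Lib.MP_688fd0_co.SQ5.N
open SQ2.V (Puz)

section glob

variable {Q : Type} [Group Q] {B : Lb.{0, 0} Q} {a b : B.L} {eps : Q →* ℤˣ} {D : Subgroup Q} {z : Q} {k τ : ℕ}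
  {num den : B.L → ℕ} (H : HypG B a b eps D z k τ num den)
include H

/-- The world of the set `σ` of letters, with the frontier `F`: windows and flips. -/
structure Wld [DecidableEq Q] (σ : Finset B.L) (F : Finset Q) : Prop where
  card : F.card ≤ τ ^ 9 * k
  mem : ∃ (u : Q) (e : ℕ), u ^ e = z ∧ u ∈ Subgroup.zpowers z ∧ e ≤ τ ^ 9 ∧
    ∀ y ∈ F, ∃ (c : Fin e) (δ : D), y = u ^ (c : ℕ) * (δ : Q)
  win : ∀ (x : D) (s₁ s₂ : Q) (t₁ t₂ : B.L), t₁ ∈ σ → t₂ ∈ σ → NbQ B a b t₁ k x s₁ → NbQ B a b t₂ k x s₂ →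
    (x : Q) ≠ s₁ → (x : Q) ≠ s₂ → s₁ ≠ s₂ →
    ((x : Q) ∈ F ∧ s₁ ∈ F ∧ s₂ ∈ F) ∧
    (∃ (Y : TW B) (n : ℕ), n ≤ lamA τ k ∧ FWin H.up (2 * k) F 0 x s₁ s₂ Y n) ∧
    ∀ (p : ℕ) (_ : Fact p.Prime), 36 * τ ^ 9 * k < p → ∀ (V : Vd B (ZMod p)) (ω : Q → ZMod p),
      V.chi z = 1 → (∀ y, ω (H.up.U y) = ω y) → ω x + ω s₁ = 0 →
      (∀ [DecidablePred (· ∈ grpA B a b z σ)] [Fintype D],
        (∑ δ : D, if ((x⁻¹ * δ : D) : Q) ∈ grpA B a b z σ then ω δ else 0) ≠ 0) →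
      (∃ s ∈ σ, ∃ s' ∈ σ, KapA V a b s s') →
      ∃ (X X' : TW B) (n : ℕ), n ≤ lamA τ k ∧ FWin H.up (2 * k) F 0 x s₁ s₂ X n ∧ Ver H.up X X' n s₂ ∧
        dvolw V ω X X' ≠ 0

/-- A function which is constant on the lines. -/
theorem HypG.line_z {u : Q} {σ : Type} {t : σ → B.L} {i : σ → ℕ} {e : ℕ} (hS : HypS B a b t eps D u i e k)
    (hue : u ^ e = z) {α : Type*} {f : Q → α} (hf : ∀ y, f (H.up.U y) = f y) (y : Q) :
    ∀ g ∈ Subgroup.zpowers z, f (g * y) = f y := by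
  let S : Subgroup Q :=
    { carrier := {g | ∀ y, f (g * y) = f y}
      one_mem' := fun y => by rw [one_mul]
      mul_mem' := fun {g g'} hg hg' y => by
        show f (g * g' * y) = f y
        rw [mul_assoc, hg, hg']
      inv_mem' := fun {g} hg y => by
        show f (g⁻¹ * y) = f y
        have := hg (g⁻¹ * y)
        rw [mul_inv_cancel_left] at this
        exact this.symm }
  have h1 : z ^ k ∈ S := by
    intro y
    have h2 : (hS.up.U ^ (2 * k)) y = (u ^ e) ^ k * y := hS.per.1 y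
    rw [hue] at h2
    rw [← h2]
    exact line_inv (U := hS.up) hf (2 * k) y
  obtain ⟨n, hn⟩ := H.zk
  have h2 : z ∈ S := by
    rw [← hn]
    exact S.pow_mem h1 n
  have h3 : Subgroup.zpowers z ≤ S := by rw [Subgroup.zpowers_le]; exact h2
  intro g hg
  exact h3 hg y

theorem HypG.line_w {α : Type*} {f : Q → α} (hf : ∀ y, f (H.up.U y) = f y) (x : Q) (hx : eps x = 1) :
    f (x * (B.q a * (B.q b)⁻¹)) = f x := by
  have h1 : H.up.U (H.up.U x) = x * (B.q a * (B.q b)⁻¹) := upC_two (H.neg a) (H.neg b) x hx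
  rw [← h1, hf, hf]

/-- The world of a set of letters. -/
theorem HypG.exists_wld [Fintype Q] [DecidableEq Q] (hLoc : LocAS) (hG : LocGS) (hNb : NblS) (hWs : WsumAS)
    (hτ : 0 < τ) {g g' : B.L}
    (hgg : (B.q a * (B.q g)⁻¹) * (B.q a * (B.q b)⁻¹) ≠ (B.q a * (B.q b)⁻¹) * (B.q a * (B.q g)⁻¹) ∨
      (B.q a * (B.q g)⁻¹) * (B.q a * (B.q g')⁻¹) ≠ (B.q a * (B.q g')⁻¹) * (B.q a * (B.q g)⁻¹))
    (hbig : 100 * k ^ 3 * (τ ^ 9) ^ 3 < orderOf z) (σ : Finset B.L) (hσ : Mid a b σ) (hc : σ.card ≤ 9)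
    (hg : g ∈ σ) (hg' : g' ∈ σ) : ∃ F : Finset Q, Wld H σ F := by
  classical
  have hk := H.kpos
  have hce : τ ^ σ.card ≤ τ ^ 9 := Nat.pow_le_pow_right hτ hc
  obtain ⟨u, i, e, hS, hue, huz, he, he0⟩ := hG Q B a b eps D z k τ num den H hτ σ hσ
    (lt_of_le_of_lt (Nat.mul_le_mul_left _ (Nat.pow_le_pow_left hce 3)) hbig)
  have hne : NeZero e := ⟨he0.ne'⟩
  have hFD : Fintype D := Fintype.ofFinite D
  have he9 : e ≤ τ ^ 9 := he.trans hce
  have hlam : lamS (Fintype.card {s // s ∈ σ}) e k ≤ lamA τ k := by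
    rw [Fintype.card_coe]
    exact lamS_mono hc he9
  -- the world is not commutative
  have hcz : ∀ d : D, Commute u (d : Q) := fun d => (hS.cen _ (hS.leD d.2)).symm
  have hpq : ∀ s (hs : s ∈ σ), B.q a * (B.q s)⁻¹ = u ^ i ⟨s, hs⟩ * (hS.pD ⟨s, hs⟩ : Q) := by
    intro s hs
    show _ = u ^ i ⟨s, hs⟩ * ((u ^ i ⟨s, hs⟩)⁻¹ * (B.q a * (B.q s)⁻¹))
    rw [mul_inv_cancel_left]
  have hwq : B.q a * (B.q b)⁻¹ = u ^ e * (hS.wD : Q) := by
    show _ = u ^ e * ((u ^ e)⁻¹ * (B.q a * (B.q b)⁻¹))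
    rw [mul_inv_cancel_left]
  have hcm : ∀ (n n' : ℕ) (d d' : D), d * d' = d' * d →
      u ^ n * (d : Q) * (u ^ n' * (d' : Q)) = u ^ n' * (d' : Q) * (u ^ n * (d : Q)) := by
    intro n n' d d' hdd
    have c1 : Commute (u ^ n * (d : Q)) (u ^ n') :=
      ((Commute.refl u).pow_pow n n').mul_left ((hcz d).pow_left n').symm
    have c2 : Commute (u ^ n * (d : Q)) (d' : Q) :=
      ((hcz d').pow_left n).mul_left (congrArg (fun d : D => (d : Q)) hdd)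
    exact (c1.mul_right c2).eq
  have hNC : hS.NC := by
    rcases hgg with h1 | h1
    · left
      refine ⟨⟨g, hg⟩, fun h2 => h1 ?_⟩
      rw [hwq, hpq g hg]
      exact hcm _ _ _ _ h2
    · right
      refine ⟨⟨g, hg⟩, ⟨g', hg'⟩, fun h2 => h1 ?_⟩
      rw [hpq g hg, hpq g' hg']
      exact hcm _ _ _ _ h2
  have hmF : ∀ v : Fin e × D, gN D u e v ∈ FS D u e := fun v => Finset.mem_image_of_mem _ (Finset.mem_univ _)
  refine ⟨FS D u e, ?_, ⟨u, e, hue, huz, he9, ?_⟩, ?_⟩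
  · unfold FS
    refine Finset.card_image_le.trans ?_
    rw [Finset.card_univ, Fintype.card_prod, Fintype.card_fin]
    refine Nat.mul_le_mul he9 ?_
    rw [← Nat.card_eq_fintype_card]
    exact Nat.le_of_dvd hk H.card
  · intro y hy
    obtain ⟨v, _, rfl⟩ := Finset.mem_image.1 hy
    exact ⟨v.1, v.2, rfl⟩
  · intro x s₁ s₂ t₁ t₂ ht₁ ht₂ hn₁ hn₂ h1 h2 h12
    obtain ⟨v₁, rfl, hj₁⟩ := hNb Q B a b _ (fun s : {s // s ∈ σ} => s.1) eps D u i e k hS x ⟨t₁, ht₁⟩ s₁ hn₁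
    obtain ⟨v₂, rfl, hj₂⟩ := hNb Q B a b _ (fun s : {s // s ∈ σ} => s.1) eps D u i e k hS x ⟨t₂, ht₂⟩ s₂ hn₂
    have hx0 : gN D u e (0, x) = (x : Q) := by
      show u ^ ((0 : Fin e) : ℕ) * (x : Q) = x
      rw [Fin.val_zero, pow_zero, one_mul]
    let A : Fin e × D → Prop := fun v => Relation.ReflTransGen (JnA e hS.wD hS.pD i k) (0, x) v
    have hA : CmpA e hS.wD hS.pD i k (0, x) A := fun v => Iff.rfl
    obtain ⟨⟨Y, n, hn, hY⟩, hfl⟩ := hLoc Q B a b _ (fun s : {s // s ∈ σ} => s.1) eps D u i e k hS hNC (0, x) v₁ v₂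
      (fun h => h1 (by rw [← h, hx0])) (fun h => h2 (by rw [← h, hx0])) (fun h => h12 (by rw [h])) hj₁ hj₂ A hA
    rw [hx0] at hY hfl
    refine ⟨⟨by rw [← hx0]; exact hmF _, hmF _, hmF _⟩, ⟨Y, n, hn.trans hlam, hY⟩, ?_⟩
    intro p hp hpb V ω hz hω hω1 hsum hkap
    have hu : V.chi u = 1 := by
      obtain ⟨l, rfl⟩ := Subgroup.mem_zpowers_iff.1 huz
      exact H31.chi_zpow V hz l
    have hb4 : 4 * Fintype.card {s // s ∈ σ} * e * k < p := by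
      refine lt_of_le_of_lt ?_ hpb
      rw [Fintype.card_coe]
      refine Nat.mul_le_mul_right _ (Nat.mul_le_mul ?_ he9)
      omega
    obtain ⟨s, hs, s', hs', hkp⟩ := hkap
    have hωg : ∀ v : Fin e × D, ω (gN D u e v) = ω (v.2 : Q) := by
      intro v
      exact H.line_z hS hue hω (v.2 : Q) (u ^ (v.1 : ℕ)) (Subgroup.pow_mem _ huz _)
    have hωw : ∀ δ : D, ω ((δ * hS.wD : D) : Q) = ω (δ : Q) := by
      intro δ
      have h3 : eps (δ : Q) = 1 := H.leD δ.2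
      rw [← H.line_w hω _ h3, hwq]
      have h4 : (δ : Q) * (u ^ e * (hS.wD : Q)) = z * ((δ * hS.wD : D) : Q) := by
        rw [← mul_assoc, ← ((hcz δ).pow_left e).eq, mul_assoc, Subgroup.coe_mul, hue]
      rw [h4]
      exact (H.line_z hS hue hω _ z (Subgroup.mem_zpowers z)).symm
    have hcast : ∀ n : ℕ, 0 < n → n ≤ e * k → (n : ZMod p) ≠ 0 := by
      intro n h0 hn h3
      have h4 := Nat.le_of_dvd h0 ((ZMod.natCast_eq_zero_iff n p).1 h3)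
      have h5 : e * k ≤ 36 * τ ^ 9 * k := Nat.mul_le_mul_right _ (by omega)
      omega
    have hs3 : (∑ v : Fin e × D, if A v then ω (gN D u e v) else 0) ≠ 0 := by
      have h3 := hWs {s // s ∈ σ} D hS.wD hS.pD i e k hS.ipos hS.ilt hk hS.card (0, x) A hA
        (Subgroup.closure (insert hS.wD (Set.range hS.pD))) rfl (ZMod p) (fun δ => ω (δ : Q)) hωw hcast ?_
      · intro h4
        apply h3
        refine Eq.trans ?_ h4
        refine Finset.sum_congr rfl fun v _ => ?_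
        rw [hωg]
      · intro h4
        refine hsum (Eq.trans ?_ h4)
        refine Finset.sum_congr rfl fun δ _ => ?_
        have h5 := H.mem_grp hS hue huz (x⁻¹ * δ)
        by_cases h6 : ((x⁻¹ * δ : D) : Q) ∈ grpA B a b z σ
        · rw [if_pos h6, if_pos (h5.2 h6)]
        · rw [if_neg h6, if_neg (fun h7 => h6 (h5.1 h7))]
    obtain ⟨X, X', n, hn, hF, hV, hdv⟩ := hfl p hp hb4 V ω hu hω hω1 hs3 ⟨⟨s, hs⟩, ⟨s', hs'⟩, hkp⟩
    exact ⟨X, X', n, hn.trans hlam, hF, hV, hdv⟩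

end glob

end Pool.Agent.Lib.MP_688fd0_co.SQ5.NA
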