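import Pool.Agent.Lib.MP_688fd0_co.SQ5.H98.Fit
import Pool.Agent.Lib.MP_688fd0_co.SQ5.H84.BaseFT
import Pool.Agent.Lib.MP_688fd0_co.SQ5.H58.PlanT
import Pool.Agent.Lib.MP_688fd0_co.SQ5.FT.PerP

/-!
FT, the branches (helper98): `lst_br`: the numbers, the layout and a base on `G0 = ⟨a, t, b⟩` give `Lst A` if a letter lies
outside of `G0`. `lst_T`: the case of 49's base.
-/

set_option autoImplicit false

namespace Pool.Agent.Lib.MP_688fd0_co.SQ5.H98

open Function Pool.Agent.Lib.MP_688fd0_co.OSF Pool.Agent.Lib.MP_688fd0_co.SQ5.H64 Pool.Agent.Lib.MP_688fd0_co.SQ5.H95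
  Pool.Agent.Lib.MP_688fd0_co.SQ5.FT Pool.Agent.Lib.MP_688fd0_co.SQ5.H76 Pool.Agent.Lib.MP_688fd0_co.SQ5.H85
  Pool.Agent.Lib.MP_688fd0_co.SQ5.H12 Pool.Agent.Lib.MP_688fd0_co.SQ5.H58 Pool.Agent.Lib.MP_688fd0_co.SQ5.H84
  Pool.Agent.Lib.MP_688fd0_co.SQ3 Pool.Agent.Lib.MP_688fd0_co.SQ5.H24

universe v

/-! ### The section -/

section sec

variable {G : Type} [Group G] {eps : G →* ℤˣ} {G0 : Subgroup G} {x : Fin 3 → G} (H : IvT eps G0 x)

include H in
theorem even_rep (k : G ⧸ G0) : ∃ y : eps.ker, ((y : G) : G ⧸ G0) = k := by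
  rcases Int.units_eq_one_or (eps k.out) with h | h
  · exact ⟨⟨k.out, h⟩, QuotientGroup.out_eq' k⟩
  · refine ⟨⟨k.out * x 0, by rw [MonoidHom.mem_ker, map_mul, h, H.neg]; decide⟩, ?_⟩
    have h1 := Sec.mk_step k.out (⟨x 0, H.mem 0⟩ : G0)
    refine Eq.trans h1 (QuotientGroup.out_eq' k)

variable {r : eps.ker → eps.ker} (hr : Sct eps G0 r)

/-- The section of `G0` in `G` from a section of the even elements. -/
noncomputable def secR : Sec G0 where
  ρ k := (r (even_rep H k).choose : G)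
  mk_ρ k := by
    have h1 : (((r (even_rep H k).choose : eps.ker) : G) : G ⧸ G0) = (((even_rep H k).choose : G) : G ⧸ G0) :=
      QuotientGroup.eq.2 (hr.mem (even_rep H k).choose)
    rw [h1]
    exact (even_rep H k).choose_spec

theorem secR_ρ (y : eps.ker) : (secR H hr).ρ ((y : G) : G ⧸ G0) = (r y : G) := by
  refine congrArg Subtype.val (hr.cst _ _ ?_)
  have h1 := (even_rep H ((y : G) : G ⧸ G0)).choose_spec
  have h2 : ((even_rep H ((y : G) : G ⧸ G0)).choose : G)⁻¹ * (y : G) ∈ G0 := QuotientGroup.eq.1 h1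
  exact h2

theorem secR_tl (y : eps.ker) : ((secR H hr).tl (y : G) : G) = (r y : G)⁻¹ * y := by
  show ((secR H hr).ρ ((y : G) : G ⧸ G0))⁻¹ * y = _
  rw [secR_ρ]

variable {B : Lb.{0, v} G} {B0 : Lb.{0, v} G0} {l : L3 → B.L} {l0 : L3 → B0.L} {e : Emb B B0}
  (hl : ∀ i, l i = e.φ (l0 i)) {s a' b' : Fin 3} (hsa : s ≠ a') (hsb : s ≠ b') (hab : a' ≠ b')
  (hs : B0.q (l0 .t) = x0 H s) (ha : B0.q (l0 .a) = x0 H a') (hb : B0.q (l0 .b) = x0 H b')
  {L : AddSubgroup (ℤ × ℤ)}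
  (hL : Ltc (ct (eps0 eps G0) (x0 H a' * x0 H s)) (ct (eps0 eps G0) (x0 H b' * x0 H s)) = L)

/-- The covering of `G0` in terms of the classes. -/
theorem cov0_over [Fintype G0] {y : G0} (hy : eps (y : G) = 1) {i j : ℤ}
    (h : cth eps G0 (y : G) = i • cth eps G0 (x a' * x s) + j • cth eps G0 (x b' * x s)) :
    (cov0 H hsa hsb hab hs ha hb hL).Over y (true, i, j) := by
  refine (castC_over _ hL y _).2 ((((inv3_0 H).co hsa hsb hab hs ha hb).over_iff y _).2 ⟨?_, ?_⟩)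
  · show decide (eps0 eps G0 y = 1) = true
    exact decide_eq_true hy
  · show kk (eps0 eps G0) (x0 H) s y = _
    rw [kk_pos (show eps0 eps G0 y = 1 from hy)]
    apply (ThE eps G0).injective
    rw [map_add, map_zsmul, map_zsmul, ThE_ct, ThE_ct, ThE_ct]
    exact h

/-- The lifted covering in terms of the classes. -/
theorem covL_cls [Fintype G0] (y : eps.ker) (i j : ℤ)
    (h : cth eps G0 ((r y : G)⁻¹ * y) = i • cth eps G0 (x a' * x s) + j • cth eps G0 (x b' * x s)) :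
    (covL (secR H hr) e hl (cov0 H hsa hsb hab hs ha hb hL)).Over (y : G) (true, i, j) := by
  show (cov0 H hsa hsb hab hs ha hb hL).Over ((secR H hr).tl (y : G)) (true, i, j)
  have h1 := secR_tl H hr y
  refine cov0_over H hsa hsb hab hs ha hb hL ?_ ?_
  · rw [h1, map_mul, map_inv, (r y).2, y.2, inv_one, mul_one]
  · rw [h1]
    exact h

end sec

/-! ### The letters -/

/-- The letters in the order `a', b', s`. -/
def xL {G : Type} (x : Fin 3 → G) (s a' b' : Fin 3) : L3 → G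
  | .a => x a'
  | .b => x b'
  | .t => x s

theorem xL_inj {G : Type} {x : Fin 3 → G} (hx : Injective x) {s a' b' : Fin 3} (hsa : s ≠ a') (hsb : s ≠ b')
    (hab : a' ≠ b') : Injective (xL x s a' b') := by
  intro i j h
  cases i <;> cases j
  · rfl
  · exact absurd (hx h) hab
  · exact absurd (hx h) hsa.symm
  · exact absurd (hx h) hab.symm
  · rfl
  · exact absurd (hx h) hsb.symm
  · exact absurd (hx h) hsa
  · exact absurd (hx h) hsb
  · rfl

/-- The letters of `Inv` are different. -/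
theorem inv_inj {G : Type} [Group G] {N C : Subgroup G} {eps : G →* ℤˣ} {k P : ℕ} {A : Set G} {c₁ : ℕ} {a t b : G}
    (h : SQD.Inv N C eps k P A c₁ a t b) : Injective (![a, t, b] : Fin 3 → G) := by
  have hinv : ∀ y ∈ A, y⁻¹ = y := fun y hy => inv_eq_of_mul_eq_one_right (h.inv y hy)
  have h1 : a ≠ t := by
    rintro rfl
    apply h.nab
    rw [h.inv a h.aA, one_mul, inv_one, mul_one, mul_inv_cancel]
    exact N.one_mem
  have h2 : b ≠ t := by
    rintro rfl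
    apply h.nab
    rw [h.inv b h.bA, mul_one, inv_one, mul_one, mul_inv_cancel]
    exact N.one_mem
  have h3 : a ≠ b := by
    rintro rfl
    apply h.nab
    have e : a * t * (a * t) * (a * t)⁻¹ * (a * t)⁻¹ = 1 := by group
    rw [e]
    exact N.one_mem
  intro i j hij
  fin_cases i <;> fin_cases j
  · rfl
  · exact absurd hij h1
  · exact absurd hij h3
  · exact absurd hij h1.symm
  · rfl
  · exact absurd hij h2.symm
  · exact absurd hij h3.symm
  · exact absurd hij h2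
  · rfl

theorem inv_mem {G : Type} [Group G] {N C : Subgroup G} {eps : G →* ℤˣ} {k P : ℕ} {A : Set G} {c₁ : ℕ} {a t b : G}
    (h : SQD.Inv N C eps k P A c₁ a t b) (i : Fin 3) : (![a, t, b] : Fin 3 → G) i ∈ A := by
  fin_cases i
  · exact h.aA
  · exact h.tA
  · exact h.bA

theorem inv_ne {G : Type} [Group G] {N C : Subgroup G} {eps : G →* ℤˣ} {k P : ℕ} {A : Set G} {c₁ : ℕ} {a t b : G}
    (h : SQD.Inv N C eps k P A c₁ a t b) (y : G) (hy : y ∈ A) : y ≠ 1 := by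
  rintro rfl
  have := h.neg 1 hy
  rw [map_one] at this
  exact absurd this (by decide)

/-! ### The branches -/

section br

variable {G : Type} [Group G] {N C : Subgroup G} {eps : G →* ℤˣ} {k P : ℕ} {A : Set G} {c₁ : ℕ} {a t b : G}

theorem xL_A (h : SQD.Inv N C eps k P A c₁ a t b) (s a' b' : Fin 3) (i : L3) : xL ![a, t, b] s a' b' i ∈ A := by
  cases i
  · exact inv_mem h _
  · exact inv_mem h _
  · exact inv_mem h _

theorem xL_G (a t b : G) (s a' b' : Fin 3) (i : L3) :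
    xL ![a, t, b] s a' b' i ∈ Subgroup.closure ({a, t, b} : Set G) := by
  have h : ∀ i : Fin 3, (![a, t, b] : Fin 3 → G) i ∈ Subgroup.closure ({a, t, b} : Set G) := by
    intro i
    apply Subgroup.subset_closure
    fin_cases i
    · exact Or.inl rfl
    · exact Or.inr (Or.inl rfl)
    · exact Or.inr (Or.inr rfl)
  cases i
  · exact h _
  · exact h _
  · exact h _

/-- The labels of the group, with fictitious labels. -/
abbrev BB (h : SQD.Inv N C eps k P A c₁ a t b) : Lb.{0, 0} G := LbF (LbA A h.inv (inv_ne h))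

/-- The labels of `G0`. -/
abbrev BB0 (h : SQD.Inv N C eps k P A c₁ a t b) : Lb.{0, 0} (Subgroup.closure ({a, t, b} : Set G)) :=
  subLb (LbA A h.inv (inv_ne h)) (Subgroup.closure ({a, t, b} : Set G))

/-- The three labels. -/
abbrev ll (h : SQD.Inv N C eps k P A c₁ a t b) (s a' b' : Fin 3) : L3 → (BB h).L :=
  lA h.inv (inv_ne h) (xL ![a, t, b] s a' b') (xL_A h s a' b')

/-- The three labels of `G0`. -/
abbrev ll0 (h : SQD.Inv N C eps k P A c₁ a t b) (s a' b' : Fin 3) : L3 → (BB0 h).L :=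
  lA0 (Subgroup.closure ({a, t, b} : Set G)) h.inv (inv_ne h) (xL ![a, t, b] s a' b') (xL_A h s a' b') (xL_G a t b s a' b')

variable [Finite G] [Fintype (Subgroup.closure ({a, t, b} : Set G))]

/-- The covering of `G0` over the lattice of `nums_lay`. -/
noncomputable abbrev cc0 (h : SQD.Inv N C eps k P A c₁ a t b) {s a' b' : Fin 3} (hsa : s ≠ a') (hsb : s ≠ b')
    (hab : a' ≠ b') : Cov (BB0 h) (ll0 h s a' b') (Ltc (hhT eps (Subgroup.closure ({a, t, b} : Set G)) ![a, t, b] a' -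
      hhT eps (Subgroup.closure ({a, t, b} : Set G)) ![a, t, b] s)
      (hhT eps (Subgroup.closure ({a, t, b} : Set G)) ![a, t, b] b' -
        hhT eps (Subgroup.closure ({a, t, b} : Set G)) ![a, t, b] s)) :=
  cov0 (ivT h) hsa hsb hab rfl rfl rfl (Ltc_G0 (ivT h) s a' b')

/-- THE BRANCH. -/
theorem lst_br {c₀ : ℕ} (h : SQD.Inv N C eps k P A c₁ a t b) (hM : SQD.Marg N k c₀) (hc₀ : 1 ≤ c₀)
    (hout : ∃ g ∈ A, g ∉ Subgroup.closure ({a, t, b} : Set G))
    (hcen : ∀ o : ℕ, k * Nat.card C ∣ o → ∀ B : G, B ^ o ∈ N ∧ (∀ g, eps g = 1 → B ^ o * g = g * B ^ o) ∧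
      ∀ g, eps g = -1 → g * B ^ o * g⁻¹ = (B ^ o)⁻¹)
    {s a' b' : Fin 3} (hsa : s ≠ a') (hsb : s ≠ b') (hab : a' ≠ b')
    {m0 n kq KV cS mm e o pd nh m TT Gr K E gap U : ℕ} (hn : NumT m0 n kq KV cS mm e o pd nh m TT Gr K E gap U)
    (hn4 : (k + (Nat.card G).primeFactorsList.length + 2) ^ 4 ≤ n) (ho : 1 ≤ o) (hok : k * Nat.card C ∣ o)
    {R : ℕ} {dc : ℕ → ℤ} {spc : ℕ → Prop}
    {g : Geo (Ltc (hhT eps (Subgroup.closure ({a, t, b} : Set G)) ![a, t, b] a' -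
        hhT eps (Subgroup.closure ({a, t, b} : Set G)) ![a, t, b] s)
        (hhT eps (Subgroup.closure ({a, t, b} : Set G)) ![a, t, b] b' -
          hhT eps (Subgroup.closure ({a, t, b} : Set G)) ![a, t, b] s))
      (Nat.card (Th eps (Subgroup.closure ({a, t, b} : Set G)))) R dc spc (Gr : ℤ)} {ks : ℕ}
    (hL : Lay g kq nh m TT ks) {mg : ℕ} {hw : ℤ → ℕ} (Hm : Geo.Mn g mg hw) {kk : ℕ} (hkk : kk < mg) (hsp : ¬ spc kk)
    (h1 : 2 * (Nat.card (Th eps (Subgroup.closure ({a, t, b} : Set G))) : ℤ) ≤ (g.i0 + g.j0) * (dc kk + H84.Wg m0 nh kq))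
    (h2 : g.i0 - g.j0 < 2 * K) (h3 : (E : ℤ) < g.i0 + g.j0)
    (h4 : (g.i0 + g.j0) * K ≤ Nat.card (Th eps (Subgroup.closure ({a, t, b} : Set G))))
    {cT : ℕ} (hS : Star4S cT) {κ0 κ1 : ℤ} {k0 : 2 ≤ κ0} {k1 : κ1 ≤ mg} {p : ℕ} {hp : 2 ≤ p}
    {hN : ∀ z : Zr g, p ≤ g.rE z} {Vs W : ∀ z : Zr g, Set (SS (cc0 h hsa hsb hab) Hm κ0 κ1 z)}
    {Λ : ∀ z, SimpleGraph (Vs z)} {Uf : Zr g → Subgroup.closure ({a, t, b} : Set G)} {nb mf : Zr g → ℕ}
    {ξ : Zr g → Unit} [∀ z : Zr g, DecidableEq (SS (cc0 h hsa hsb hab) Hm κ0 κ1 z)]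
    (bT : BaseT {y : Subgroup.closure ({a, t, b} : Set G) | (y : G) ∈ A} cT
      (inst Hm (cc0 h hsa hsb hab) lA0_inv (lA0_hq (xL_inj (inv_inj h) hsa hsb hab)) lA0_ii κ0 κ1 k0 k1 p hp hN)
      Vs W Λ Uf nb mf (fun _ => gap) ξ)
    (hW : ∀ z s, s ∈ W z ↔ (kk : ℤ) + 1 ≤ s.1.1 ∧ s.1.1 ≤ (kk : ℤ) + 2)
    (hk0 : 2 ≤ (kk : ℤ) + 1) (hk1 : (kk : ℤ) + 2 ≤ mg) (hκ0 : κ0 ≤ (kk : ℤ) + 1) (hκ1 : (kk : ℤ) + 2 ≤ κ1)
    (hpd : p ≤ pd + 1) : Lst A := by
  classical
  obtain ⟨W0, w1, -, w3⟩ := exists_per_perm h hM hc₀ hout hsa hsb hab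
  have hxi := xL_inj (inv_inj h) hsa hsb hab
  have hT : Finite (Th eps (Subgroup.closure ({a, t, b} : Set G))) := inferInstance
  obtain ⟨r, hr, hP⟩ := exists_planLe (B := BB h) (l := ll h s a' b') hn hL
    (fun i => h.neg _ (xL_A h s a' b' i)) (fun i => xL_G a t b s a' b' i) lA_inv
    ((ivT h).hh_sub a' s) ((ivT h).hh_sub b' s) Hm hkk hsp h1 h2 h3 h4 W0 (w3.trans hn4) w1 ho
    (fun p y hy => by
      rw [Aw_pow]
      exact (hcen o hok _).2.1 y hy)
  obtain ⟨Pl⟩ := hP (covL (secR (ivT h) hr) (eA (Subgroup.closure ({a, t, b} : Set G)) h.inv (inv_ne h))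
    (fun _ => rfl) (cc0 h hsa hsb hab)) (fun y i j hy => by
      refine covL_cls (ivT h) hr _ hsa hsb hab _ _ _ _ y i j ?_
      rw [hy, (ivT h).hh_sub, (ivT h).hh_sub])
  exact lst_fitA hxi (σ := secR (ivT h) hr) (fun k x v => covL_over _ _ k x v) hS bT hW Pl hk0 hk1 hκ0 hκ1 hpd

end br

end Pool.Agent.Lib.MP_688fd0_co.SQ5.H98
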