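import Pool.Agent.Lib.MP_688fd0_co.SQ5.N.Iface

/-!
Row STRN of NEAR-3: the structural theorem for three involutions with a short relation.
-/

set_option autoImplicit false

namespace Pool.Agent.Lib.MP_688fd0_co.SQ5.N

open Pool.Agent.Lib.MP_688fd0_co.OSF Pool.Agent.Lib.MP_688fd0_co.SQ2 Pool.Agent.Lib.MP_688fd0_co.SQ3
open Pool.Agent.Lib.MP_688fd0_co.SQ4
open Subgroup

theorem lamN_le {x e k : ℕ} (hx : 3 ≤ x) (he : e ≤ x ^ 2) (hk : k + 1 ≤ x) :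
    lamN e k ≤ x ^ 30 * (x ^ 4) ^ (x ^ 3) := by
  have hx0 : 0 < x := by omega
  have p1 : ∀ a b : ℕ, a ≤ b → x ^ a ≤ x ^ b := fun a b h => Nat.pow_le_pow_right hx0 h
  have h3 : 27 ≤ x ^ 3 := by
    calc 27 = 3 ^ 3 := by norm_num
      _ ≤ x ^ 3 := Nat.pow_le_pow_left hx 3
  have hm : ∀ a b : ℕ, a + 1 = b → 3 * x ^ a ≤ x ^ b := fun a b h => by
    rw [← h, pow_succ, mul_comm]
    exact Nat.mul_le_mul_left _ hx
  have hone : ∀ a : ℕ, 1 ≤ x ^ a := fun a => Nat.one_le_pow _ _ hx0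
  have he1 : e + 1 ≤ x ^ 3 := by
    have h1 := hm 2 3 rfl
    have h2 := hone 2
    omega
  have hkx : k ≤ x := by omega
  have hek : e * k ≤ x ^ 3 := by
    calc e * k ≤ x ^ 2 * x := Nat.mul_le_mul he hkx
      _ = x ^ 3 := by ring
  have hek1 : e * k + 1 ≤ x ^ 4 := by
    have h1 := hm 3 4 rfl
    have h2 := hone 3
    omega
  have hB : (e * k + 1) ^ (e * k) ≤ (x ^ 4) ^ (x ^ 3) :=
    (Nat.pow_le_pow_left hek1 _).trans (Nat.pow_le_pow_right (Nat.pow_pos hx0) hek)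
  have hB1 : 1 ≤ (x ^ 4) ^ (x ^ 3) := Nat.one_le_pow _ _ (Nat.pow_pos hx0)
  have hA : e * k ^ 2 + 1 ≤ x ^ 5 := by
    have h1 : e * k ^ 2 ≤ x ^ 4 := by
      calc e * k ^ 2 ≤ x ^ 2 * x ^ 2 := Nat.mul_le_mul he (Nat.pow_le_pow_left hkx 2)
        _ = x ^ 4 := by ring
    have h2 := hm 4 5 rfl
    have h3 := hone 4
    omega
  have hh : hN e k ≤ x ^ 19 := by
    unfold hN
    calc 20 * (e + 1) ^ 4 * (k + 1) ^ 4 ≤ x ^ 3 * (x ^ 3) ^ 4 * x ^ 4 :=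
          Nat.mul_le_mul (Nat.mul_le_mul (by omega) (Nat.pow_le_pow_left he1 4)) (Nat.pow_le_pow_left hk 4)
      _ = x ^ 19 := by ring
  have hC : 2 * k + hN e k ≤ x ^ 20 := by
    have h1 : 2 * k ≤ 2 * x ^ 19 := by
      have h2 := p1 1 19 (by norm_num)
      rw [pow_one] at h2
      omega
    have h2 := hm 19 20 rfl
    omega
  have hD : 2 * k * k ≤ x ^ 3 := by
    calc 2 * k * k ≤ x * x * x := Nat.mul_le_mul (Nat.mul_le_mul (by omega) hkx) hkx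
      _ = x ^ 3 := by ring
  have hAB : (e * k ^ 2 + 1) * (e * k + 1) ^ (e * k) + 1 ≤ x ^ 6 * (x ^ 4) ^ (x ^ 3) := by
    have h1 := Nat.mul_le_mul hA hB
    have h2 : 1 ≤ x ^ 5 * (x ^ 4) ^ (x ^ 3) := Nat.mul_pos (hone 5) hB1
    have h3 : 3 * (x ^ 5 * (x ^ 4) ^ (x ^ 3)) ≤ x ^ 6 * (x ^ 4) ^ (x ^ 3) := by
      rw [← mul_assoc]
      exact Nat.mul_le_mul_right _ (hm 5 6 rfl)
    omega
  unfold lamN
  have h1 : 6 * ((e * k ^ 2 + 1) * (e * k + 1) ^ (e * k) + 1) * (2 * k + hN e k) ≤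
      x ^ 29 * (x ^ 4) ^ (x ^ 3) := by
    calc _ ≤ x ^ 3 * (x ^ 6 * (x ^ 4) ^ (x ^ 3)) * x ^ 20 :=
          Nat.mul_le_mul (Nat.mul_le_mul (by omega) hAB) hC
      _ = x ^ 29 * (x ^ 4) ^ (x ^ 3) := by ring
  have h2 : x ^ 3 ≤ x ^ 29 * (x ^ 4) ^ (x ^ 3) := by
    calc x ^ 3 ≤ x ^ 29 := p1 _ _ (by norm_num)
      _ = x ^ 29 * 1 := (mul_one _).symm
      _ ≤ _ := Nat.mul_le_mul_left _ hB1
  have h3' : 3 * (x ^ 29 * (x ^ 4) ^ (x ^ 3)) ≤ x ^ 30 * (x ^ 4) ^ (x ^ 3) := by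
    rw [← mul_assoc]
    exact Nat.mul_le_mul_right _ (hm 29 30 rfl)
  omega

theorem needN_lt {x e k r : ℕ} (hx : 3 ≤ x) (he : e ≤ x ^ 2) (hk : k + 1 ≤ x) (hr : r ≤ x) :
    needN e k r < 2 ^ (x ^ 7) := by
  have hx0 : 0 < x := by omega
  have hlam := lamN_le hx he hk
  have hm : ∀ a b : ℕ, a + 1 = b → 3 * x ^ a ≤ x ^ b := fun a b h => by
    rw [← h, pow_succ, mul_comm]
    exact Nat.mul_le_mul_left _ hx
  have hone : ∀ a : ℕ, 1 ≤ x ^ a := fun a => Nat.one_le_pow _ _ hx0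
  have hB1 : 1 ≤ (x ^ 4) ^ (x ^ 3) := Nat.one_le_pow _ _ (Nat.pow_pos hx0)
  have he1 : e + 1 ≤ x ^ 3 := by
    have h1 := hm 2 3 rfl
    have h2 := hone 2
    omega
  have hr2 : (2 * r) ^ 2 ≤ x ^ 4 := by
    have h1 : 2 * r ≤ x ^ 2 := by
      calc 2 * r ≤ x * x := Nat.mul_le_mul (by omega) hr
        _ = x ^ 2 := by ring
    calc (2 * r) ^ 2 ≤ (x ^ 2) ^ 2 := Nat.pow_le_pow_left h1 2
      _ = x ^ 4 := by ring
  obtain ⟨Y, hY⟩ : ∃ Y, Y = x ^ 30 * (x ^ 4) ^ (x ^ 3) := ⟨_, rfl⟩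
  rw [← hY] at hlam
  have hY1 : 1 ≤ Y := by rw [hY]; exact Nat.mul_pos (hone 30) hB1
  have h1 : (2 * r) ^ 2 * lamN e k + lamN e k + 2 ≤ x ^ 6 * Y := by
    have h2 := Nat.mul_le_mul hr2 hlam
    have h3 : 3 * (x ^ 4 * Y) ≤ x ^ 5 * Y := by
      rw [← mul_assoc]
      exact Nat.mul_le_mul_right _ (hm 4 5 rfl)
    have h4 : 3 * (x ^ 5 * Y) ≤ x ^ 6 * Y := by
      rw [← mul_assoc]
      exact Nat.mul_le_mul_right _ (hm 5 6 rfl)
    have h5 : Y ≤ x ^ 4 * Y := Nat.le_mul_of_pos_left _ (hone 4)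
    omega
  have h2 : (e + 1) * (k + 1) * ((2 * r) ^ 2 * lamN e k + lamN e k + 2) ≤ x ^ 10 * Y := by
    calc _ ≤ x ^ 3 * x * (x ^ 6 * Y) := Nat.mul_le_mul (Nat.mul_le_mul he1 hk) h1
      _ = x ^ 10 * Y := by ring
  have h3 : needN e k r ≤ x ^ (83 + 8 * x ^ 3) := by
    unfold needN
    calc 4 * (k + 1) * ((e + 1) * (k + 1) * ((2 * r) ^ 2 * lamN e k + lamN e k + 2)) ^ 2
        ≤ x ^ 2 * x * (x ^ 10 * Y) ^ 2 := by
          refine Nat.mul_le_mul (Nat.mul_le_mul ?_ hk) (Nat.pow_le_pow_left h2 2)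
          have h5 : 3 * 3 ≤ x * x := Nat.mul_le_mul hx hx
          have h6 : x ^ 2 = x * x := by ring
          omega
      _ = x ^ (83 + 8 * x ^ 3) := by
        rw [hY, pow_add x 83, mul_comm 8 (x ^ 3), mul_pow, mul_pow, ← pow_mul, ← pow_mul, ← pow_mul, ← pow_mul]
        have h5 : 4 * (x ^ 3 * 2) = x ^ 3 * 8 := by ring
        rw [h5]
        ring
  refine lt_of_le_of_lt h3 ?_
  have h4 : x < 2 ^ x := Nat.lt_two_pow_self
  calc x ^ (83 + 8 * x ^ 3) < (2 ^ x) ^ (83 + 8 * x ^ 3) := Nat.pow_lt_pow_left h4 (by omega)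
    _ = 2 ^ (x * (83 + 8 * x ^ 3)) := by rw [← pow_mul]
    _ ≤ 2 ^ (x ^ 7) := by
      refine Nat.pow_le_pow_right (by norm_num) ?_
      have h5 : 83 ≤ 4 * x ^ 3 := by
        have h6 : 3 ^ 3 ≤ x ^ 3 := Nat.pow_le_pow_left hx 3
        omega
      have h6 : 27 ≤ x ^ 3 := by
        have h7 : 3 ^ 3 ≤ x ^ 3 := Nat.pow_le_pow_left hx 3
        omega
      calc x * (83 + 8 * x ^ 3) ≤ x * (12 * x ^ 3) := Nat.mul_le_mul_left _ (by omega)
        _ ≤ x * (x ^ 3 * x ^ 3) := Nat.mul_le_mul_left _ (Nat.mul_le_mul_right _ (by omega))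
        _ = x ^ 7 := by ring

theorem num_lt {x τ k : ℕ} (hx : 3 ≤ x) (hτ : τ ≤ x) (hk : k ≤ x) : 800 * k ^ 3 * (τ * k) ^ 3 < 2 ^ (x ^ 7) := by
  have hx0 : 0 < x := by omega
  have h1 : 800 ≤ x ^ 7 := by
    have h7 : 3 ^ 7 ≤ x ^ 7 := Nat.pow_le_pow_left hx 7
    omega
  have h2 : 800 * k ^ 3 * (τ * k) ^ 3 ≤ x ^ 16 := by
    calc _ ≤ x ^ 7 * x ^ 3 * (x * x) ^ 3 :=
          Nat.mul_le_mul (Nat.mul_le_mul h1 (Nat.pow_le_pow_left hk 3)) (Nat.pow_le_pow_left (Nat.mul_le_mul hτ hk) 3)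
      _ = x ^ 16 := by ring
  refine lt_of_le_of_lt h2 ?_
  calc x ^ 16 < (2 ^ x) ^ 16 := Nat.pow_lt_pow_left Nat.lt_two_pow_self (by norm_num)
    _ = 2 ^ (x * 16) := by rw [← pow_mul]
    _ ≤ 2 ^ (x ^ 7) := by
      refine Nat.pow_le_pow_right (by norm_num) ?_
      have h7 : 3 ^ 6 ≤ x ^ 6 := Nat.pow_le_pow_left hx 6
      calc x * 16 ≤ x * x ^ 6 := Nat.mul_le_mul_left _ (by omega)
        _ = x ^ 7 := by ring

/-- Three lines in the quotient. -/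
theorem relIndex_lift {G : Type} [Group G] [Finite G] {N C₁ : Subgroup G} [C₁.Normal] (hCN : C₁ ≤ N) (eps : G →* ℤˣ)
    (eps' : G ⧸ C₁ →* ℤˣ) (he : ∀ g, eps' (QuotientGroup.mk' C₁ g) = eps g) (w : G) :
    (zpowers w ⊔ N).relIndex eps.ker ≤ (zpowers (QuotientGroup.mk' C₁ w)).relIndex eps'.ker := by
  have h1 : eps.ker.map (QuotientGroup.mk' C₁) = eps'.ker := by
    ext x
    obtain ⟨g, rfl⟩ := QuotientGroup.mk'_surjective C₁ x
    rw [MonoidHom.mem_ker, he]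
    constructor
    · rintro ⟨g', hg', h2⟩
      rw [← he, ← h2, he]
      exact hg'
    · intro h2
      exact ⟨g, h2, rfl⟩
  rw [← h1, ← relIndex_comap]
  refine relIndex_le_of_le_left ?_ ?_
  · intro g hg
    rw [mem_comap] at hg
    obtain ⟨l, hl⟩ := mem_zpowers_iff.1 hg
    rw [← map_zpow] at hl
    have h2 : (w ^ l)⁻¹ * g ∈ C₁ := QuotientGroup.eq.1 hl
    have h3 : g = w ^ l * ((w ^ l)⁻¹ * g) := by rw [mul_inv_cancel_left]
    rw [h3]
    exact mul_mem ((le_sup_left : zpowers w ≤ zpowers w ⊔ N) (zpow_mem_zpowers w l))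
      ((le_sup_right : N ≤ zpowers w ⊔ N) (hCN h2))
  · exact index_ne_zero_of_finite

/-- STRN. -/
theorem nearN (hHe : HeartNS) (hC1 : C1NS) (hD : DstrNS) (hK : KapNS) (hS : SmallNS) (hF : SQ3.FactorS)
    (hH : HdataS.{0}) : NearNS := by
  classical
  obtain ⟨c₁, hS⟩ := hS
  refine ⟨c₁ + 7, ?_⟩
  intro G _ _ N C eps k P hg a t b τ m n hI hm hmτ hn hnτ hPr hbig hcm hPb
  have := hg.Cn
  have := hg.Nn
  have hPp := hg.prime
  have hPG : P ∣ Nat.card G := hg.dvd.trans (card_subgroup_dvd_card N)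
  have hω : 1 ≤ (Nat.card G).primeFactorsList.length :=
    List.length_pos_of_mem ((Nat.mem_primeFactorsList Nat.card_pos.ne').2 ⟨hPp, hPG⟩)
  have hk : 1 ≤ k := by
    rw [← hg.idx]
    exact Nat.pos_of_ne_zero N.index_ne_zero_of_finite
  have hτ : 1 ≤ τ := hm.trans_le hmτ
  obtain ⟨x, hx⟩ : ∃ x, x = k + τ + (Nat.card G).primeFactorsList.length := ⟨_, rfl⟩
  rw [← hx] at hPb
  have hx3 : 3 ≤ x := by omega
  have hP7 : 2 ^ (x ^ 7) ≤ P :=
    (Nat.pow_le_pow_right (by norm_num) (Nat.pow_le_pow_right (by omega) (Nat.le_add_left _ _))).trans hPb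
  by_cases hsm : (zpowers (a * b) ⊔ N).relIndex eps.ker ≤ 2
  · refine hS G N C eps k P hg a t b hI hsm (le_trans ?_ hPb)
    refine Nat.pow_le_pow_right (by norm_num) ?_
    calc (k + (Nat.card G).primeFactorsList.length) ^ c₁ ≤ x ^ c₁ := Nat.pow_le_pow_left (by omega) _
      _ ≤ x ^ (c₁ + 7) := Nat.pow_le_pow_right (by omega) (Nat.le_add_right _ _)
  obtain ⟨C₁, hC⟩ := hC1 G N C eps k P hg a t b τ m n hI hm hmτ hn hnτ hPr hbig
  have hC₁N := hC.leN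
  have hcycN := hg.Nc
  have hcyc : IsCyclic C₁ := isCyclic_of_injective (inclusion hC₁N) (inclusion_injective hC₁N)
  have hC₁n : C₁.Normal := by
    obtain ⟨y, hy⟩ := IsCyclic.exists_generator (α := C₁)
    have h1 : zpowers (y : G) = C₁ := by
      apply le_antisymm
      · rw [zpowers_le]; exact y.2
      · intro g hg'
        obtain ⟨l, hl⟩ := mem_zpowers_iff.1 (hy ⟨g, hg'⟩)
        exact mem_zpowers_iff.2 ⟨l, congrArg (fun z : C₁ => (z : G)) hl⟩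
    have h2 := SQ2.H41.zpowers_normal N hg.Nn hg.Nc (hC₁N y.2)
    rwa [h1] at h2
  have hC₁d : Nat.card C₁ ∣ Nat.card N := card_dvd_of_le hC₁N
  have hcop : (Nat.card C₁).Coprime C₁.index := by
    rw [← relIndex_mul_index hC₁N, hg.idx]
    refine Nat.Coprime.mul_right ?_ (hg.cop.coprime_dvd_left hC₁d)
    have h1 : Nat.card C₁ * C₁.relIndex N = Nat.card N := by
      have h2 := (C₁.subgroupOf N).card_mul_index
      rwa [Nat.card_congr (subgroupOfEquivOfLe hC₁N).toEquiv] at h2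
    have hsq := hg.Nsq
    rw [← h1] at hsq
    exact Nat.coprime_of_squarefree_mul hsq
  have hNodd : Odd (Nat.card N) := by
    rw [← Nat.not_even_iff_odd]
    intro he
    have h1 := (hg.big 2 (Nat.mem_primeFactors.2 ⟨Nat.prime_two, even_iff_two_dvd.1 he, Nat.card_pos.ne'⟩)).1
    omega
  have hneg : ∀ g : G, eps g = -1 → g ≠ 1 := by
    rintro g h rfl
    rw [map_one] at h
    exact absurd h (by decide)
  have hA1 : ∀ g ∈ AN a t b, g ∈ C₁ → g = 1 := by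
    intro g hgA hgC
    exfalso
    have h1 := hg.eN g (hC₁N hgC)
    rcases hgA with rfl | rfl | rfl
    · rw [hI.ea] at h1; exact absurd h1 (by decide)
    · rw [hI.et] at h1; exact absurd h1 (by decide)
    · rw [hI.eb] at h1; exact absurd h1 (by decide)
  have hnum : 800 * k ^ 3 * (τ * k) ^ 3 < P := (num_lt hx3 (by omega) (by omega)).trans_le hP7
  obtain ⟨D, u₀, i, j, eps', heps', hu₀N, hiτ, hjτ, hmi, hcop', hPu, hyp⟩ :=
    hD G N C C₁ eps k P a t b (τ * k) (m * k) (n * k) hC hnum hC₁n hA1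
  set B := qLb C₁ (AN a t b) hC.sym hA1 with hB
  let a' : B.L := (⟨a, Or.inl rfl, hneg a hI.ea⟩ : {g : G // g ∈ AN a t b ∧ g ≠ 1})
  let t' : B.L := (⟨t, Or.inr (Or.inl rfl), hneg t hI.et⟩ : {g : G // g ∈ AN a t b ∧ g ≠ 1})
  let b' : B.L := (⟨b, Or.inr (Or.inr rfl), hneg b hI.eb⟩ : {g : G // g ∈ AN a t b ∧ g ≠ 1})
  have H : HypN B a' t' b' eps' D (QuotientGroup.mk' C₁ u₀) i j k := hyp a' t' b' rfl rfl rfl
  have hqa : B.q a' = QuotientGroup.mk' C₁ a := rfl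
  have hqt : B.q t' = QuotientGroup.mk' C₁ t := rfl
  have hqb : B.q b' = QuotientGroup.mk' C₁ b := rfl
  have hti : t⁻¹ = t := inv_eq_of_mul_eq_one_right hI.it
  have hbi : b⁻¹ = b := inv_eq_of_mul_eq_one_right hI.ib
  have hrel : 3 ≤ (zpowers (B.q a' * (B.q b')⁻¹)).relIndex eps'.ker := by
    have h1 := relIndex_lift hC₁N eps eps' heps' (a * b)
    have h2 : QuotientGroup.mk' C₁ (a * b) = B.q a' * (B.q b')⁻¹ := by
      rw [hqa, hqb, ← map_inv, hbi, map_mul]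
    rw [h2] at h1
    omega
  have hcomm : (B.q a' * (B.q t')⁻¹) * (B.q t' * (B.q b')⁻¹) ≠ (B.q t' * (B.q b')⁻¹) * (B.q a' * (B.q t')⁻¹) := by
    intro h1
    apply hcm
    apply hC₁N
    rw [← QuotientGroup.eq_one_iff]
    show QuotientGroup.mk' C₁ (a * t * (t * b) * (a * t)⁻¹ * (t * b)⁻¹) = 1
    rw [hqa, hqt, hqb, ← map_inv, ← map_inv, hti, hbi, ← map_mul, ← map_mul, ← map_mul, ← map_mul] at h1
    rw [map_mul, map_mul, h1, map_mul, map_inv, map_inv]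
    group
  obtain ⟨s, zz, chi, ν, h1, h2, h3, h4, h5, h6, h7, h8⟩ := hH G C₁ hC₁n hcyc hcop
  have hm0 : 0 < Nat.card C₁ := Nat.card_pos
  have : NeZero (Nat.card C₁) := ⟨hm0.ne'⟩
  have : Fintype (G ⧸ C₁) := Fintype.ofFinite _
  let V : Vd B (ZMod (Nat.card C₁)) :=
    { chi := chi
      n := fun g => ν g.1
      n_inv := fun g => h6 g.1 }
  have hC₁odd : Odd (Nat.card C₁) := Odd.of_dvd_nat hNodd hC₁d
  have hkap : ∀ p, ∀ hp : p ∈ (Nat.card C₁).primeFactors,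
      KapN (V.map (red (Nat.dvd_of_mem_primeFactors hp))) a' t' b' i j := by
    intro p hp
    exact hK G N C C₁ eps k P a t b (τ * k) (m * k) (n * k) hC i j hmi hcop' hC₁n hA1 a' t' b' rfl rfl rfl s zz chi ν
      h1 h2 h3 h4 h5 V rfl (fun g => rfl) p hp
  have huchi : V.chi (QuotientGroup.mk' C₁ u₀) = 1 := by
    show chi (QuotientGroup.mk' C₁ u₀) = 1
    refine h8 u₀ fun c hc => ?_
    exact SQ2.H41.comm_of_cyclic N hg.Nc u₀ hu₀N c (hC₁N hc)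
  have hr : (Nat.card C₁).primeFactors.card ≤ (Nat.card G).primeFactorsList.length :=
    (Finset.card_le_card (Nat.primeFactors_mono (card_subgroup_dvd_card _) Nat.card_pos.ne')).trans
      (List.toFinset_card_le _)
  have hmarg : ∀ p ∈ (Nat.card C₁).primeFactors, 4 * (i + j) * k < p ∧ 2 * (Nat.card C₁).primeFactors.card < p := by
    intro p hp
    have hpN := Nat.primeFactors_mono hC₁d Nat.card_pos.ne' hp
    constructor
    · refine lt_of_le_of_lt ?_ (hC.bigN p hpN)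
      refine Nat.mul_le_mul_right _ ?_
      omega
    · refine lt_of_le_of_lt ?_ (hg.marg p hpN)
      obtain ⟨y, hy⟩ : ∃ y, y = (Nat.card G).primeFactorsList.length + 2 := ⟨_, rfl⟩
      rw [← hy]
      have h10 : 2 * y ≤ y ^ 10 := by
        have h11 : 2 ≤ y := by omega
        calc 2 * y ≤ y * y := Nat.mul_le_mul_right y h11
          _ = y ^ 2 := by ring
          _ ≤ y ^ 10 := Nat.pow_le_pow_right (by omega) (by norm_num)
      omega
  have := H.fin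
  have hPou : P ≤ orderOf (QuotientGroup.mk' C₁ u₀) := Nat.le_of_dvd (orderOf_pos _) hPu
  have hij : i + j ≤ x ^ 2 := by
    have h9 : 2 * (τ * k) ≤ (τ + k) ^ 2 := by nlinarith [sq_nonneg ((τ : ℤ) - k), Nat.zero_le (τ * τ + k * k)]
    have h10 : (τ + k) ^ 2 ≤ x ^ 2 := Nat.pow_le_pow_left (by omega) 2
    omega
  have hneed : needN (i + j) k (Nat.card C₁).primeFactors.card < orderOf (QuotientGroup.mk' C₁ u₀) :=
    (needN_lt hx3 hij (by omega) (by omega)).trans_le (hP7.trans hPou)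
  obtain ⟨T, hT⟩ := hHe (G ⧸ C₁) B a' t' b' eps' D (QuotientGroup.mk' C₁ u₀) i j k H hrel hcomm (Nat.card C₁) V
    hC₁odd huchi hmarg hkap hneed
  have hz1 : QuotientGroup.mk' C₁ zz = 1 := by
    rw [QuotientGroup.mk'_apply, QuotientGroup.eq_one_iff, ← h2]; exact mem_zpowers zz
  exact hF G (G ⧸ C₁) (Nat.card C₁) (QuotientGroup.mk' C₁) s zz chi ν hm0 h1 hz1 h3
    (fun g hg => by rw [h2]; exact (QuotientGroup.eq_one_iff g).1 hg) h4 h5 (AN a t b) (fun x => (T.lab x).1) T.cls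
    hI.gen (fun x => (T.lab x).2.1) T.bij T.step T.trans hT

end Pool.Agent.Lib.MP_688fd0_co.SQ5.N
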