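import Pool.Agent.Lib.MP_688fd0_co.SQ5.H98.Heart
import Pool.Agent.Lib.MP_688fd0_co.SQ5.H98.StrN
import Pool.Agent.Lib.MP_688fd0_co.SQ5.H87.ClsNS
import Pool.Agent.Lib.MP_688fd0_co.SQ5.H88.GraphN
import Pool.Agent.Lib.MP_688fd0_co.SQ5.H30.ExaW
import Pool.Agent.Lib.MP_688fd0_co.SQ5.H70.KapN
import Pool.Agent.Lib.MP_688fd0_co.SQ5.H70.SmallN
import Pool.Agent.Lib.MP_688fd0_co.SQ5.H24.C1n
import Pool.Agent.Lib.MP_688fd0_co.SQ3.H23.Blocks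
import Pool.Agent.Lib.MP_688fd0_co.SQ3.H43.Factor2
import Pool.Agent.Lib.MP_688fd0_co.OSF.H43.Hdata

/-!
NEAR-3: the assembly.
-/

set_option autoImplicit false

namespace Pool.Agent.Lib.MP_688fd0_co.SQ5.N

open Pool.Agent.Lib.MP_688fd0_co.OSF Pool.Agent.Lib.MP_688fd0_co.SQ2 Pool.Agent.Lib.MP_688fd0_co.SQ3
open Pool.Agent.Lib.MP_688fd0_co.SQ4

theorem nearOf (hFl : FlipNS) (hTr : TreeNS) (hD : DstrNS) : NearNS :=
  nearN (heartN clsN H88.graphNS H30.exaN H30.exaD H30.wsumN hFl hTr (SQ4.heartU SQ3.blocks)) c1N hD H70.kapN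
    H70.smallN SQ3.H43.factor2 hdata

end Pool.Agent.Lib.MP_688fd0_co.SQ5.N
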