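import Pool.Agent.Lib.MP_688fd0_co.SQ5.NA.Iface
import Pool.Agent.Lib.MP_688fd0_co.SQ5.H98.StrN
import Pool.Agent.Lib.MP_688fd0_co.SQ5.H49.TwoLines

/-!
Row STRA of NEAR-ALL: the structural theorem.
-/

set_option autoImplicit false

namespace Pool.Agent.Lib.MP_688fd0_co.SQ5.NA

open Pool.Agent.Lib.MP_688fd0_co.OSF Pool.Agent.Lib.MP_688fd0_co.SQ2 Pool.Agent.Lib.MP_688fd0_co.SQ3
open Pool.Agent.Lib.MP_688fd0_co.SQ4 Pool.Agent.Lib.MP_688fd0_co.SQ5.N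
open Subgroup

theorem lamA_le {x τ k : ℕ} (hx : 3 ≤ x) (hτ : τ + 1 ≤ x) (hk : k + 1 ≤ x) :
    lamA τ k ≤ x ^ 66 * (x ^ 11) ^ (x ^ 10) := by
  have hx0 : 0 < x := by omega
  have p1 : ∀ a b : ℕ, a ≤ b → x ^ a ≤ x ^ b := fun a b h => Nat.pow_le_pow_right hx0 h
  have hm : ∀ a b : ℕ, a + 1 = b → 3 * x ^ a ≤ x ^ b := fun a b h => by
    rw [← h, pow_succ, mul_comm]
    exact Nat.mul_le_mul_left _ hx
  have hone : ∀ a : ℕ, 1 ≤ x ^ a := fun a => Nat.one_le_pow _ _ hx0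
  have h9 : 9 ≤ x ^ 2 := by
    have h3 : 3 ^ 2 ≤ x ^ 2 := Nat.pow_le_pow_left hx 2
    omega
  have h27 : 27 ≤ x ^ 3 := by
    have h3 : 3 ^ 3 ≤ x ^ 3 := Nat.pow_le_pow_left hx 3
    omega
  have hkx : k ≤ x := by omega
  obtain ⟨e, he0⟩ : ∃ e, e = τ ^ 9 := ⟨_, rfl⟩
  have he : e ≤ x ^ 9 := by rw [he0]; exact Nat.pow_le_pow_left (by omega) 9
  have he1 : e + 1 ≤ x ^ 10 := by
    have h1 := hm 9 10 rfl
    have h2 := hone 9
    omega
  have hek : e * k ≤ x ^ 10 := by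
    calc e * k ≤ x ^ 9 * x := Nat.mul_le_mul he hkx
      _ = x ^ 10 := by ring
  have hek1 : e * k + 1 ≤ x ^ 11 := by
    have h1 := hm 10 11 rfl
    have h2 := hone 10
    omega
  have hB : (e * k + 1) ^ (e * k) ≤ (x ^ 11) ^ (x ^ 10) :=
    (Nat.pow_le_pow_left hek1 _).trans (Nat.pow_le_pow_right (Nat.pow_pos hx0) hek)
  have hB1 : 1 ≤ (x ^ 11) ^ (x ^ 10) := Nat.one_le_pow _ _ (Nat.pow_pos hx0)
  have hA : 9 * (e * k ^ 2) + 1 ≤ x ^ 14 := by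
    have h1 : 9 * (e * k ^ 2) ≤ x ^ 13 := by
      calc 9 * (e * k ^ 2) ≤ x ^ 2 * (x ^ 9 * x ^ 2) :=
            Nat.mul_le_mul h9 (Nat.mul_le_mul he (Nat.pow_le_pow_left hkx 2))
        _ = x ^ 13 := by ring
    have h2 := hm 13 14 rfl
    have h3 := hone 13
    omega
  have hh : hN e k ≤ x ^ 47 := by
    unfold hN
    calc 20 * (e + 1) ^ 4 * (k + 1) ^ 4 ≤ x ^ 3 * (x ^ 10) ^ 4 * x ^ 4 :=
          Nat.mul_le_mul (Nat.mul_le_mul (by omega) (Nat.pow_le_pow_left he1 4)) (Nat.pow_le_pow_left hk 4)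
      _ = x ^ 47 := by ring
  have hC : 2 * k + hN e k ≤ x ^ 48 := by
    have h1 : 2 * k ≤ 2 * x ^ 47 := by
      have h2 := p1 1 47 (by norm_num)
      rw [pow_one] at h2
      omega
    have h2 := hm 47 48 rfl
    omega
  have hD : 2 * k * k ≤ x ^ 3 := by
    calc 2 * k * k ≤ x * x * x := Nat.mul_le_mul (Nat.mul_le_mul (by omega) hkx) hkx
      _ = x ^ 3 := by ring
  have hAB : (9 * (e * k ^ 2) + 1) * (e * k + 1) ^ (e * k) + 1 ≤ x ^ 15 * (x ^ 11) ^ (x ^ 10) := by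
    have h1 := Nat.mul_le_mul hA hB
    have h2 : 1 ≤ x ^ 14 * (x ^ 11) ^ (x ^ 10) := Nat.mul_pos (hone 14) hB1
    have h3 : 3 * (x ^ 14 * (x ^ 11) ^ (x ^ 10)) ≤ x ^ 15 * (x ^ 11) ^ (x ^ 10) := by
      rw [← mul_assoc]
      exact Nat.mul_le_mul_right _ (hm 14 15 rfl)
    omega
  unfold lamA lamS
  rw [← he0]
  have h1 : 6 * ((9 * (e * k ^ 2) + 1) * (e * k + 1) ^ (e * k) + 1) * (2 * k + hN e k) ≤
      x ^ 65 * (x ^ 11) ^ (x ^ 10) := by
    calc _ ≤ x ^ 2 * (x ^ 15 * (x ^ 11) ^ (x ^ 10)) * x ^ 48 :=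
          Nat.mul_le_mul (Nat.mul_le_mul (by omega) hAB) hC
      _ = x ^ 65 * (x ^ 11) ^ (x ^ 10) := by ring
  have h2 : x ^ 3 ≤ x ^ 65 * (x ^ 11) ^ (x ^ 10) := by
    calc x ^ 3 ≤ x ^ 65 := p1 _ _ (by norm_num)
      _ = x ^ 65 * 1 := (mul_one _).symm
      _ ≤ _ := Nat.mul_le_mul_left _ hB1
  have h3' : 3 * (x ^ 65 * (x ^ 11) ^ (x ^ 10)) ≤ x ^ 66 * (x ^ 11) ^ (x ^ 10) := by
    rw [← mul_assoc]
    exact Nat.mul_le_mul_right _ (hm 65 66 rfl)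
  omega

theorem needA_lt {x τ k r : ℕ} (hx : 3 ≤ x) (hτ : τ + 1 ≤ x) (hk : k + 1 ≤ x) (hr : r + 2 ≤ x) :
    needA τ k r < 2 ^ (x ^ 15) := by
  have hx0 : 0 < x := by omega
  have hlam := lamA_le hx hτ hk
  have hm : ∀ a b : ℕ, a + 1 = b → 3 * x ^ a ≤ x ^ b := fun a b h => by
    rw [← h, pow_succ, mul_comm]
    exact Nat.mul_le_mul_left _ hx
  have hone : ∀ a : ℕ, 1 ≤ x ^ a := fun a => Nat.one_le_pow _ _ hx0
  have hB1 : 1 ≤ (x ^ 11) ^ (x ^ 10) := Nat.one_le_pow _ _ (Nat.pow_pos hx0)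
  have h9 : 9 ≤ x ^ 2 := by
    have h3 : 3 ^ 2 ≤ x ^ 2 := Nat.pow_le_pow_left hx 2
    omega
  have hr2 : (2 * r) ^ 2 ≤ x ^ 4 := by
    have h1 : 2 * r ≤ x ^ 2 := by
      calc 2 * r ≤ x * x := Nat.mul_le_mul (by omega) (by omega)
        _ = x ^ 2 := by ring
    calc (2 * r) ^ 2 ≤ (x ^ 2) ^ 2 := Nat.pow_le_pow_left h1 2
      _ = x ^ 4 := by ring
  obtain ⟨Y, hY⟩ : ∃ Y, Y = x ^ 66 * (x ^ 11) ^ (x ^ 10) := ⟨_, rfl⟩
  rw [← hY] at hlam
  have hY1 : 1 ≤ Y := by rw [hY]; exact Nat.mul_pos (hone 66) hB1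
  have h1 : (2 * r) ^ 2 * lamA τ k + lamA τ k + 2 ≤ x ^ 6 * Y := by
    have h2 := Nat.mul_le_mul hr2 hlam
    have h3 : 3 * (x ^ 4 * Y) ≤ x ^ 5 * Y := by
      rw [← mul_assoc]
      exact Nat.mul_le_mul_right _ (hm 4 5 rfl)
    have h4 : 3 * (x ^ 5 * Y) ≤ x ^ 6 * Y := by
      rw [← mul_assoc]
      exact Nat.mul_le_mul_right _ (hm 5 6 rfl)
    have h5 : Y ≤ x ^ 4 * Y := Nat.le_mul_of_pos_left _ (hone 4)
    omega
  have h2 : 4 * (k + 1) * (τ + 1) ^ 30 * (r + 2) * ((2 * r) ^ 2 * lamA τ k + lamA τ k + 2) ≤ x ^ 40 * Y := by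
    calc _ ≤ x ^ 2 * x * x ^ 30 * x * (x ^ 6 * Y) :=
          Nat.mul_le_mul (Nat.mul_le_mul (Nat.mul_le_mul (Nat.mul_le_mul (by omega) hk)
            (Nat.pow_le_pow_left hτ 30)) hr) h1
      _ = x ^ 40 * Y := by ring
  have h3 : needA τ k r ≤ x ^ (424 + 44 * x ^ 10) := by
    unfold needA
    refine (Nat.pow_le_pow_left h2 4).trans (le_of_eq ?_)
    rw [hY, mul_pow, mul_pow, ← pow_mul, ← pow_mul, ← pow_mul, ← pow_mul, ← pow_add, ← pow_add]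
    congr 1
    ring
  refine lt_of_le_of_lt h3 ?_
  have h4 : x < 2 ^ x := Nat.lt_two_pow_self
  calc x ^ (424 + 44 * x ^ 10) < (2 ^ x) ^ (424 + 44 * x ^ 10) := Nat.pow_lt_pow_left h4 (by omega)
    _ = 2 ^ (x * (424 + 44 * x ^ 10)) := by rw [← pow_mul]
    _ ≤ 2 ^ (x ^ 15) := by
      refine Nat.pow_le_pow_right (by norm_num) ?_
      have h5 : 424 ≤ x ^ 10 := by
        have h6 : 3 ^ 10 ≤ x ^ 10 := Nat.pow_le_pow_left hx 10
        omega
      have h6 : 45 ≤ x ^ 4 := by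
        have h7 : 3 ^ 4 ≤ x ^ 4 := Nat.pow_le_pow_left hx 4
        omega
      calc x * (424 + 44 * x ^ 10) ≤ x * (45 * x ^ 10) := Nat.mul_le_mul_left _ (by omega)
        _ ≤ x * (x ^ 4 * x ^ 10) := Nat.mul_le_mul_left _ (Nat.mul_le_mul_right _ h6)
        _ = x ^ 15 := by ring

/-- STRA. -/
theorem nearAll (hHe : HeartAS) (hD : DstrAS) (hK : KapAS) (hF : SQ3.FactorS) (hH : HdataS.{0}) : NearAllS := by
  classical
  refine ⟨15, ?_⟩
  intro G _ _ N C eps k P A a b τ num den hA hnc hPb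
  have hg := hA.gn
  have hCn := hg.Cn
  have hNn := hg.Nn
  have hPp := hg.prime
  have hPG : P ∣ Nat.card G := hg.dvd.trans (card_subgroup_dvd_card N)
  have hω : 1 ≤ (Nat.card G).primeFactorsList.length :=
    List.length_pos_of_mem ((Nat.mem_primeFactorsList Nat.card_pos.ne').2 ⟨hPp, hPG⟩)
  have hk : 1 ≤ k := by
    rw [← hg.idx]
    exact Nat.pos_of_ne_zero N.index_ne_zero_of_finite
  have hτ := hA.τpos
  obtain ⟨x, hx⟩ : ∃ x, x = k + τ + (Nat.card G).primeFactorsList.length := ⟨_, rfl⟩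
  rw [← hx] at hPb
  have hx3 : 3 ≤ x := by omega
  have hNe : N ≤ eps.ker := fun n hn => hg.eN n hn
  have hea := hA.neg a hA.aA
  have heb := hA.neg b hA.bA
  have hai : a⁻¹ = a := inv_eq_of_mul_eq_one_right (hA.inv a hA.aA)
  have hbi : b⁻¹ = b := inv_eq_of_mul_eq_one_right (hA.inv b hA.bA)
  by_cases hsm : (zpowers (a * b) ⊔ N).relIndex eps.ker ≤ 2
  · have hco : (Nat.card N).Coprime N.index := by rw [hg.idx]; exact hg.cop
    have hw : eps (a * b) = 1 := by rw [map_mul, hea, heb]; decide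
    refine H49.twoLines A eps N hg.Nc hco hNe ⟨a, hA.aA⟩ hA.inv hA.neg hA.gen (a * b) hw hsm hA.aA ?_
    rw [mul_inv_rev, hbi, hai, ← mul_assoc, hA.inv a hA.aA, one_mul]
  have hCN := hg.CN
  have hcycN := hg.Nc
  have hcyc : IsCyclic C := isCyclic_of_injective (inclusion hCN) (inclusion_injective hCN)
  have hCd : Nat.card C ∣ Nat.card N := card_dvd_of_le hCN
  have hneg : ∀ g : G, eps g = -1 → g ≠ 1 := by
    rintro g h rfl
    rw [map_one] at h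
    exact absurd h (by decide)
  have hA1 : ∀ g ∈ A, g ∈ C → g = 1 := by
    intro g hgA hgC
    exfalso
    have h1 := hg.eN g (hCN hgC)
    rw [hA.neg g hgA] at h1
    exact absurd h1 (by decide)
  obtain ⟨D, z₀, eps', heps', hz₀N, hPz, hyp⟩ := hD G N C eps k P A a b τ num den hA hCn hA1
  set B := qLb C A hA.sym hA1 with hB
  let a' : B.L := (⟨a, hA.aA, hneg a hea⟩ : {g : G // g ∈ A ∧ g ≠ 1})
  let b' : B.L := (⟨b, hA.bA, hneg b heb⟩ : {g : G // g ∈ A ∧ g ≠ 1})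
  have H : HypG B a' b' eps' D (QuotientGroup.mk' C z₀) k τ (fun s => num s.1) (fun s => den s.1) :=
    hyp a' b' rfl rfl
  have hqa : B.q a' = QuotientGroup.mk' C a := rfl
  have hqb : B.q b' = QuotientGroup.mk' C b := rfl
  have hrel : 3 ≤ (zpowers (B.q a' * (B.q b')⁻¹)).relIndex eps'.ker := by
    have h1 := relIndex_lift hCN eps eps' heps' (a * b)
    have h2 : QuotientGroup.mk' C (a * b) = B.q a' * (B.q b')⁻¹ := by
      rw [hqa, hqb, ← map_inv, hbi, map_mul]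
    rw [h2] at h1
    omega
  have hcomm : ∃ x y : G ⧸ C, eps' x = 1 ∧ eps' y = 1 ∧ x * y ≠ y * x := by
    obtain ⟨x, y, hx, hy, hxy⟩ := hnc
    refine ⟨QuotientGroup.mk' C x, QuotientGroup.mk' C y, by rw [heps']; exact hx, by rw [heps']; exact hy, ?_⟩
    intro h1
    apply hxy
    apply hCN
    rw [← QuotientGroup.eq_one_iff]
    show QuotientGroup.mk' C (x * y * x⁻¹ * y⁻¹) = 1
    rw [map_mul, map_mul, map_mul, h1, map_inv, map_inv]
    group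
  obtain ⟨s, zz, chi, ν, h1, h2, h3, h4, h5, h6, h7, h8⟩ := hH G C hCn hcyc hg.Ccop
  have hm0 : 0 < Nat.card C := Nat.card_pos
  have : NeZero (Nat.card C) := ⟨hm0.ne'⟩
  have : Fintype (G ⧸ C) := Fintype.ofFinite _
  let V : Vd B (ZMod (Nat.card C)) :=
    { chi := chi
      n := fun g => ν g.1
      n_inv := fun g => h6 g.1 }
  have hNodd : Odd (Nat.card N) := by
    rw [← Nat.not_even_iff_odd]
    intro he
    have h1 := (hg.big 2 (Nat.mem_primeFactors.2 ⟨Nat.prime_two, even_iff_two_dvd.1 he, Nat.card_pos.ne'⟩)).1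
    omega
  have hCodd : Odd (Nat.card C) := Odd.of_dvd_nat hNodd hCd
  have hkap : ∀ p, ∀ hp : p ∈ (Nat.card C).primeFactors, ∃ s s' : B.L, s ≠ a' ∧ s ≠ b' ∧ s' ≠ a' ∧ s' ≠ b' ∧
      KapA (V.map (red (Nat.dvd_of_mem_primeFactors hp))) a' b' s s' := by
    intro p hp
    exact hK G N C eps k P A a b τ num den hA hCn hA1 a' b' rfl rfl s zz chi ν h1 h2 h3 h4 h5 V rfl
      (fun g => rfl) p hp
  have hzchi : V.chi (QuotientGroup.mk' C z₀) = 1 := by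
    show chi (QuotientGroup.mk' C z₀) = 1
    refine h8 z₀ fun c hc => ?_
    exact SQ2.H41.comm_of_cyclic N hg.Nc z₀ hz₀N c (hCN hc)
  have hr : (Nat.card C).primeFactors.card ≤ (Nat.card G).primeFactorsList.length :=
    (Finset.card_le_card (Nat.primeFactors_mono (card_subgroup_dvd_card _) Nat.card_pos.ne')).trans
      (List.toFinset_card_le _)
  have hmarg : ∀ p ∈ (Nat.card C).primeFactors, 36 * τ ^ 9 * k < p ∧ 2 * (Nat.card C).primeFactors.card < p := by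
    intro p hp
    have hpN := Nat.primeFactors_mono hCd Nat.card_pos.ne' hp
    refine ⟨hA.bigN p hpN, lt_of_le_of_lt ?_ (hg.marg p hpN)⟩
    obtain ⟨y, hy⟩ : ∃ y, y = (Nat.card G).primeFactorsList.length + 2 := ⟨_, rfl⟩
    rw [← hy]
    have h10 : 2 * y ≤ y ^ 10 := by
      have h11 : 2 ≤ y := by omega
      calc 2 * y ≤ y * y := Nat.mul_le_mul_right y h11
        _ = y ^ 2 := by ring
        _ ≤ y ^ 10 := Nat.pow_le_pow_right (by omega) (by norm_num)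
    omega
  have := H.fin
  have hPoz : P ≤ orderOf (QuotientGroup.mk' C z₀) := Nat.le_of_dvd (orderOf_pos _) hPz
  have hr2 : (Nat.card C).primeFactors.card + 2 ≤ x := by omega
  have hneed : needA τ k (Nat.card C).primeFactors.card < orderOf (QuotientGroup.mk' C z₀) :=
    (needA_lt hx3 (by omega) (by omega) hr2).trans_le (hPb.trans hPoz)
  obtain ⟨T, hT⟩ := hHe (G ⧸ C) B a' b' eps' D (QuotientGroup.mk' C z₀) k τ _ _ H hτ hrel hcomm (Nat.card C) V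
    hCodd hzchi hmarg hkap hneed
  have hz1 : QuotientGroup.mk' C zz = 1 := by
    rw [QuotientGroup.mk'_apply, QuotientGroup.eq_one_iff, ← h2]; exact mem_zpowers zz
  exact hF G (G ⧸ C) (Nat.card C) (QuotientGroup.mk' C) s zz chi ν hm0 h1 hz1 h3
    (fun g hg => by rw [h2]; exact (QuotientGroup.eq_one_iff g).1 hg) h4 h5 A (fun x => (T.lab x).1) T.cls
    hA.gen (fun x => (T.lab x).2.1) T.bij T.step T.trans hT

end Pool.Agent.Lib.MP_688fd0_co.SQ5.NA
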