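import Pool.Agent.Lib.MP_688fd0_co.SQ5.H98.HeartA
import Pool.Agent.Lib.MP_688fd0_co.SQ5.H98.StrA
import Pool.Agent.Lib.MP_688fd0_co.SQ5.H87.ClsA
import Pool.Agent.Lib.MP_688fd0_co.SQ5.H85.GraphAS
import Pool.Agent.Lib.MP_688fd0_co.SQ5.H67.LocA
import Pool.Agent.Lib.MP_688fd0_co.SQ5.H30.ExaT
import Pool.Agent.Lib.MP_688fd0_co.SQ5.H62.ExtS
import Pool.Agent.Lib.MP_688fd0_co.SQ5.H68.TreeA
import Pool.Agent.Lib.MP_688fd0_co.SQ5.H41.DstrA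
import Pool.Agent.Lib.MP_688fd0_co.SQ5.H70.KapA
import Pool.Agent.Lib.MP_688fd0_co.SQ5.H96.BridgeA
import Pool.Agent.Lib.MP_688fd0_co.SQ5.H49.Extr
import Pool.Agent.Lib.MP_688fd0_co.SQ3.H23.Blocks
import Pool.Agent.Lib.MP_688fd0_co.SQ3.H43.Factor2
import Pool.Agent.Lib.MP_688fd0_co.OSF.H43.Hdata

/-!
NEAR-ALL: the assembly.
-/

set_option autoImplicit false

namespace Pool.Agent.Lib.MP_688fd0_co.SQ5.NA

open Pool.Agent.Lib.MP_688fd0_co.OSF Pool.Agent.Lib.MP_688fd0_co.SQ2 Pool.Agent.Lib.MP_688fd0_co.SQ3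
open Pool.Agent.Lib.MP_688fd0_co.SQ4

theorem nearAllOf (hFl : FlipAS) (hG : LocGS) (hNb : NblS) : NearAllS :=
  nearAll (heartA (locA clsA graphA hFl H30.exaN H30.exaT) hG hNb ext H68.treeA H30.wsumA (SQ4.heartU SQ3.blocks))
    dstrA kapA SQ3.H43.factor2 hdata

theorem invNearOf (hFl : FlipAS) (hG : LocGS) (hNb : NblS) : SQD.InvNearS :=
  invNear (nearAllOf hFl hG hNb) extr

end Pool.Agent.Lib.MP_688fd0_co.SQ5.NA
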