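import Pool.Agent.Lib.MP_688fd0_co.SQ5.H98.NearA
import Pool.Agent.Lib.MP_688fd0_co.SQ5.H85.FlipA
import Pool.Agent.Lib.MP_688fd0_co.SQ5.H53.LocG
import Pool.Agent.Lib.MP_688fd0_co.SQ5.H26.Nbl

/-!
NEAR-ALL: the result.
-/

set_option autoImplicit false

namespace Pool.Agent.Lib.MP_688fd0_co.SQ5.NA

/-- NEAR-ALL. -/
theorem nearAllS : NearAllS := nearAllOf flipA locG H26.nbl

/-- Level 3, near. -/
theorem invNearS : SQD.InvNearS := invNearOf flipA locG H26.nbl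

end Pool.Agent.Lib.MP_688fd0_co.SQ5.NA
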