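import Pool.Agent.Lib.MP_688fd0_co.SQ5.FT.Data

/-!
FT, row TRANSP (helper98): a base on the subgroup `G0` gives a base on `G`, the regions of one coset are a cluster.

`Sec G0`: a section of the left cosets. `Emb B B0`: the labels of `G0` are labels of `G`. `IsLift σ e F FF`: in the coset `k` the
2-factor `F` is the translate of `FF k`. `liftR`: the charts of all cosets. MAIN: `baseT_lift`.
-/

set_option autoImplicit false

namespace Pool.Agent.Lib.MP_688fd0_co.SQ5.H98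

open Function Pool.Agent.Lib.MP_688fd0_co.OSF H64 H95 FT

universe u u' v w w' z

/-! ### Clusters -/

theorem cls_map {R : Type w} {R' : Type w'} {P : R → Type u} {P' : R' → Type u'} {Adj : (Σ r, P r) → (Σ r, P r) → Prop}
    {Adj' : (Σ r, P' r) → (Σ r, P' r) → Prop} (f : R → R') (hf : Injective f) (g : (Σ r, P r) → Σ r, P' r)
    (hg : Injective g) (hfg : ∀ p, (g p).1 = f p.1) (hA : ∀ p q, Adj p q → Adj' (g p) (g q)) {S : Set R}
    (h : Cls Adj S) : Cls Adj' (f '' S) := by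
  induction h with
  | one r =>
    rw [Set.image_singleton]
    exact Cls.one _
  | join _ _ hd h3 ih₁ ih₂ =>
    rw [Set.image_union]
    refine Cls.join ih₁ ih₂ ((Set.disjoint_image_iff hf).2 hd) ?_
    obtain ⟨p, hp, hp'⟩ := h3
    refine ⟨fun l => g (p l), fun l l' h => hp (hg h), fun l => ⟨?_, ?_⟩⟩
    · show (g (p l)).1 ∈ _
      rw [hfg]
      exact ⟨_, (hp' l).1, rfl⟩
    · obtain ⟨q, hq, ha⟩ := (hp' l).2
      exact ⟨g q, by rw [hfg]; exact ⟨_, hq, rfl⟩, hA _ _ ha⟩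

theorem stkT_sub {T : Type w} {𝒟 𝒟' : Set (T × Bool → T × Bool)} (hD : 𝒟 ⊆ 𝒟') {n : ℕ} {d : T × Bool → T × Bool}
    (h : StkT 𝒟 n d) : StkT 𝒟' n d := by
  induction h with
  | one h => exact StkT.one (hD h)
  | join _ _ h3 ih1 ih2 => exact StkT.join ih1 ih2 h3

/-! ### Sections -/

section sec

variable {G : Type} [Group G] {G0 : Subgroup G}

/-- A section of the left cosets. -/
structure Sec (G0 : Subgroup G) where
  ρ : G ⧸ G0 → G
  mk_ρ : ∀ k, ((ρ k : G) : G ⧸ G0) = k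

namespace Sec

variable (σ : Sec G0)

/-- The part in the subgroup. -/
def tl (x : G) : G0 := ⟨(σ.ρ (x : G ⧸ G0))⁻¹ * x, QuotientGroup.eq.1 (σ.mk_ρ _)⟩

theorem mk_mul (k : G ⧸ G0) (x : G0) : ((σ.ρ k * x : G) : G ⧸ G0) = k := by
  conv_rhs => rw [← σ.mk_ρ k]
  rw [QuotientGroup.eq]
  have e : (σ.ρ k * (x : G))⁻¹ * σ.ρ k = (x : G)⁻¹ := by group
  rw [e]
  exact G0.inv_mem x.2

theorem tl_mul (k : G ⧸ G0) (x : G0) : σ.tl (σ.ρ k * x) = x := by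
  refine Subtype.ext ?_
  show (σ.ρ ((σ.ρ k * x : G) : G ⧸ G0))⁻¹ * (σ.ρ k * x) = x
  rw [mk_mul, inv_mul_cancel_left]

theorem ρ_tl (x : G) : σ.ρ (x : G ⧸ G0) * σ.tl x = x := mul_inv_cancel_left _ _

theorem tl_step (x : G) (y : G0) : σ.tl (x * y) = σ.tl x * y := by
  conv_lhs => rw [← σ.ρ_tl x]
  rw [mul_assoc, ← Subgroup.coe_mul, tl_mul]

theorem mk_step (x : G) (y : G0) : ((x * y : G) : G ⧸ G0) = (x : G ⧸ G0) := by
  rw [QuotientGroup.eq]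
  have e : (x * (y : G))⁻¹ * x = (y : G)⁻¹ := by group
  rw [e]
  exact G0.inv_mem y.2

theorem exists_eq (x : G) : ∃ (k : G ⧸ G0) (x0 : G0), x = σ.ρ k * x0 := ⟨x, σ.tl x, (σ.ρ_tl x).symm⟩

theorem inj {k k' : G ⧸ G0} {x x' : G0} (h : σ.ρ k * (x : G) = σ.ρ k' * x') : k = k' ∧ x = x' := by
  constructor
  · rw [← σ.mk_mul k x, h, σ.mk_mul]
  · rw [← σ.tl_mul k x, h, σ.tl_mul]

/-- A section exists. -/
noncomputable def std (G0 : Subgroup G) : Sec G0 where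
  ρ k := k.out
  mk_ρ k := QuotientGroup.out_eq' k

/-- A section from a function on the group. -/
noncomputable def ofR (r : G → G) (h : ∀ x, (r x)⁻¹ * x ∈ G0) : Sec G0 where
  ρ k := r k.out
  mk_ρ k := by
    have h : ((r k.out : G) : G ⧸ G0) = ((k.out : G) : G ⧸ G0) := QuotientGroup.eq.2 (h _)
    rw [h]
    exact QuotientGroup.out_eq' k

theorem ofR_ρ (r : G → G) (h : ∀ x, (r x)⁻¹ * x ∈ G0) (h' : ∀ x y, x⁻¹ * y ∈ G0 → r x = r y) (x : G) :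
    (ofR r h).ρ (x : G ⧸ G0) = r x := by
  apply h'
  rw [← QuotientGroup.eq]
  exact QuotientGroup.out_eq' _

end Sec

/-- The labels of the subgroup are labels of the group. -/
structure Emb (B : Lb.{0, v} G) (B0 : Lb.{0, v} G0) where
  φ : B0.L → B.L
  inj : Injective φ
  q : ∀ l, B.q (φ l) = (B0.q l : G)
  inv : ∀ l, φ (B0.inv l) = B.inv (φ l)

variable {B : Lb.{0, v} G} {B0 : Lb.{0, v} G0}

/-- In the coset `k` the 2-factor `F` is the translate of `FF k`. -/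
def IsLift (σ : Sec G0) (e : Emb B B0) (F : HF B) (FF : G ⧸ G0 → HF B0) : Prop :=
  ∀ x : G, F.H x = e.φ '' (FF (x : G ⧸ G0)).H (σ.tl x)

/-- The lift of a family. -/
noncomputable def lift (σ : Sec G0) (e : Emb B B0) (hii : ∀ l, B.inv (B.inv l) = l) (FF : G ⧸ G0 → HF B0) : HF B where
  H x := e.φ '' (FF (x : G ⧸ G0)).H (σ.tl x)
  ex x := by
    obtain ⟨g, h, hne, hgh⟩ := (FF (x : G ⧸ G0)).ex (σ.tl x)
    refine ⟨e.φ g, e.φ h, fun h' => hne (e.inj h'), fun l => ⟨?_, ?_⟩⟩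
    · rintro ⟨l0, h0, rfl⟩
      rcases (hgh l0).1 h0 with rfl | rfl
      · exact Or.inl rfl
      · exact Or.inr rfl
    · rintro (rfl | rfl)
      · exact ⟨g, (hgh g).2 (Or.inl rfl), rfl⟩
      · exact ⟨h, (hgh h).2 (Or.inr rfl), rfl⟩
  sym x g := by
    rintro ⟨l0, h0, rfl⟩
    refine ⟨B0.inv l0, ?_, e.inv l0⟩
    rw [e.q, Sec.mk_step, σ.tl_step]
    exact (FF (x : G ⧸ G0)).sym _ _ h0
  ii := hii

theorem isLift_lift (σ : Sec G0) (e : Emb B B0) (hii : ∀ l, B.inv (B.inv l) = l) (FF : G ⧸ G0 → HF B0) :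
    IsLift σ e (lift σ e hii FF) FF := fun _ => rfl

namespace IsLift

variable {σ : Sec G0} {e : Emb B B0} {F : HF B} {FF : G ⧸ G0 → HF B0} (h : IsLift σ e F FF)

include h

theorem hH (k : G ⧸ G0) (x : G0) : F.H (σ.ρ k * x) = e.φ '' (FF k).H x := by
  rw [h, σ.mk_mul, σ.tl_mul]

theorem ed {k : G ⧸ G0} {x y : G0} (hxy : (FF k).Ed x y) : F.Ed (σ.ρ k * x) (σ.ρ k * y) := by
  obtain ⟨g, hg, rfl⟩ := hxy
  refine ⟨e.φ g, ?_, ?_⟩
  · rw [h.hH]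
    exact ⟨g, hg, rfl⟩
  · rw [e.q, Subgroup.coe_mul, mul_assoc]

theorem ed' {k : G ⧸ G0} {x : G0} {y : G} (hxy : F.Ed (σ.ρ k * x) y) : ∃ y0 : G0, y = σ.ρ k * y0 ∧ (FF k).Ed x y0 := by
  obtain ⟨g, hg, rfl⟩ := hxy
  rw [h.hH] at hg
  obtain ⟨g0, hg0, rfl⟩ := hg
  exact ⟨x * B0.q g0, by rw [e.q, Subgroup.coe_mul, mul_assoc], g0, hg0, rfl⟩

theorem ed_iff {k : G ⧸ G0} {x y : G0} : F.Ed (σ.ρ k * x) (σ.ρ k * y) ↔ (FF k).Ed x y := by
  refine ⟨fun hxy => ?_, h.ed⟩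
  obtain ⟨y0, hy, h0⟩ := h.ed' hxy
  rw [(σ.inj hy).2]
  exact h0

theorem cn {k : G ⧸ G0} {x y : G0} {T : Set G0} {T' : Set G} (hT : ∀ x ∈ T, σ.ρ k * x ∈ T')
    (hxy : H22.Cn (FF k).Ed T x y) : H22.Cn F.Ed T' (σ.ρ k * x) (σ.ρ k * y) := by
  induction hxy with
  | refl => exact H22.Cn.rfl' _
  | tail _ hs ih => exact ih.trans' (H22.Cn.of (h.ed hs.1) (hT _ hs.2.1) (hT _ hs.2.2))

theorem c {k : G ⧸ G0} {x y : G0} (hxy : (FF k).C x y) : F.C (σ.ρ k * x) (σ.ρ k * y) := by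
  induction hxy with
  | refl => exact Relation.ReflTransGen.refl
  | tail _ hs ih => exact ih.tail (h.ed hs)

end IsLift

/-! ### The charts -/

variable {σ : Sec G0} {e : Emb B B0} {F : HF B} {F0 : HF B0} {Zr : Type} {S : Zr → Type} {N : Zr → ℕ}

/-- The translated chart. -/
noncomputable def trC (σ : Sec G0) {T : Type w} (C : H22.Chart G0 T) (k : G ⧸ G0) : H22.Chart G T where
  Z m s i := σ.ρ k * C.Z m s i
  h := C.h

theorem trC_reg (σ : Sec G0) {T : Type w} (C : H22.Chart G0 T) (k : G ⧸ G0) (n0 n1 : ℕ) {x : G} :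
    x ∈ (trC σ C k).reg n0 n1 ↔ ∃ x0 ∈ C.reg n0 n1, x = σ.ρ k * x0 := by
  constructor
  · rintro ⟨m, h1, h2, s, i, h3, rfl⟩
    exact ⟨_, ⟨m, h1, h2, s, i, h3, rfl⟩, rfl⟩
  · rintro ⟨_, ⟨m, h1, h2, s, i, h3, rfl⟩, rfl⟩
    exact ⟨m, h1, h2, s, i, h3, rfl⟩

theorem trC_reg' (σ : Sec G0) {T : Type w} (C : H22.Chart G0 T) (k : G ⧸ G0) (n0 n1 : ℕ) {x : G0} :
    σ.ρ k * x ∈ (trC σ C k).reg n0 n1 ↔ x ∈ C.reg n0 n1 := by
  rw [trC_reg]
  constructor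
  · rintro ⟨x0, h0, h1⟩
    rw [(σ.inj h1).2]
    exact h0
  · intro h
    exact ⟨x, h, rfl⟩

theorem rnF_lift (h : IsLift σ e F fun _ => F0) {T : Type w} {C : H22.Chart G0 T} {E : ℕ} (H : RnF F0 C E) (k : G ⧸ G0) :
    RnF F (trC σ C k) E where
  hpos := H.hpos
  inj m s r m' s' r' hm hm' hr hr' e := H.inj m s r m' s' r' hm hm' hr hr' (σ.inj e).2
  line m s r hm hr := h.ed (H.line m s r hm hr)
  gate m s hm := h.ed (H.gate m s hm)

/-- The charts of all cosets. -/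
noncomputable def liftR (h : IsLift σ e F fun _ => F0) (X : Rgs F0 Zr S N) :
    Rgs F ((G ⧸ G0) × Zr) (fun z => S z.2) (fun z => N z.2) where
  C z := trC σ (X.C z.2) z.1
  l z := X.l z.2
  hl z := X.hl z.2
  hn z := X.hn z.2
  run z := rnF_lift h (X.run z.2) z.1
  far z z' m s i m' s' i' hne hm hi hm' h0 hi' e := by
    obtain ⟨h1, h2⟩ := σ.inj e
    exact X.far z.2 z'.2 m s i m' s' i' (fun h3 => hne (Prod.ext h1 h3)) hm hi hm' h0 hi' h2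

variable (h : IsLift σ e F fun _ => F0) (X : Rgs F0 Zr S N)

theorem per_lift {U : Zr → G0} (hp : X.Per U) :
    (liftR h X).Per (fun z => σ.ρ z.1 * (U z.2 : G) * (σ.ρ z.1)⁻¹) where
  h z m s hm := hp.h z.2 m s hm
  Z z m s i hm hi := by
    show σ.ρ z.1 * (((X.C z.2).Z (m + (X.l z.2 + 1)) s i : G0) : G) =
      σ.ρ z.1 * (U z.2 : G) * (σ.ρ z.1)⁻¹ * (σ.ρ z.1 * (((X.C z.2).Z m s i : G0) : G))
    rw [hp.Z z.2 m s i hm hi, Subgroup.coe_mul]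
    group
  H z m s i hm hi := by
    show F.H (σ.ρ z.1 * (((X.C z.2).Z (m + (X.l z.2 + 1)) s i : G0) : G)) =
      F.H (σ.ρ z.1 * (((X.C z.2).Z m s i : G0) : G))
    rw [h.hH, h.hH, hp.H z.2 m s i hm hi]

theorem D0_lift {A : Set G} {A0 : Set G0} (hA0 : ∀ x ∈ A0, (x : G) ∈ A) (k : G ⧸ G0) (z : Zr) :
    X.D0 A0 z ⊆ (liftR h X).D0 A (k, z) := by
  classical
  rintro d ⟨h1, F', n0, n1, h2, h3, h4, h5, h6, h7⟩
  let FF : G ⧸ G0 → HF B0 := fun k' => if k' = k then F' else F0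
  have hk : FF k = F' := if_pos rfl
  have hL := isLift_lift σ e F.ii FF
  refine ⟨h1, lift σ e F.ii FF, n0, n1, h2, h3, h4, ?_, ?_, ?_, ?_, ?_, ?_⟩
  · intro x hx
    obtain ⟨k', x0, rfl⟩ := σ.exists_eq x
    rw [hL.hH, h.hH]
    by_cases hkk : k' = k
    · subst hkk
      rw [hk, h5]
      exact fun h8 => hx ((trC_reg' σ (X.C z) k' n0 n1).2 h8)
    · show e.φ '' ((if k' = k then F' else F0 : HF B0)).H x0 = _
      rw [if_neg hkk]
  · intro x hx g hg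
    obtain ⟨x0, h0, rfl⟩ := (trC_reg σ (X.C z) k n0 n1).1 hx
    rw [hL.hH, hk] at hg
    obtain ⟨g0, hg0, rfl⟩ := hg
    rw [e.q]
    exact hA0 _ (h6 _ h0 _ hg0)
  · intro s
    exact (trC_reg' σ (X.C z) k n0 n1).2 (h7.mlo s)
  · intro s
    exact (trC_reg' σ (X.C z) k n0 n1).2 (h7.mup s)
  · intro p
    have hp : ∀ p, H22.pt (fun s => ((liftR h X).C (k, z)).Z n0 s 0)
        (fun s => ((liftR h X).C (k, z)).Z n1 s (((liftR h X).C (k, z)).h n1 s)) p =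
        σ.ρ k * (H22.pt (fun s => (X.C z).Z n0 s 0) (fun s => (X.C z).Z n1 s ((X.C z).h n1 s)) p : G0) := by
      rintro ⟨s, _ | _⟩
      · rw [H22.pt_lo, H22.pt_lo]; rfl
      · rw [H22.pt_up, H22.pt_up]; rfl
    rw [hp, hp]
    refine hL.cn (T := (X.C z).reg n0 n1) (fun x hx => (trC_reg' σ (X.C z) k n0 n1).2 hx) ?_
    rw [hk]
    exact h7.con p
  · intro x hx
    obtain ⟨x0, h0, rfl⟩ := (trC_reg σ (X.C z) k n0 n1).1 hx
    obtain ⟨p, hp⟩ := h7.all x0 h0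
    refine ⟨p, ?_⟩
    have e1 : H22.pt (fun s => ((liftR h X).C (k, z)).Z n0 s 0)
        (fun s => ((liftR h X).C (k, z)).Z n1 s (((liftR h X).C (k, z)).h n1 s)) p =
        σ.ρ k * (H22.pt (fun s => (X.C z).Z n0 s 0) (fun s => (X.C z).Z n1 s ((X.C z).h n1 s)) p : G0) := by
      obtain ⟨s, _ | _⟩ := p
      · rw [H22.pt_lo, H22.pt_lo]; rfl
      · rw [H22.pt_up, H22.pt_up]; rfl
    rw [e1]
    refine hL.cn (T := (X.C z).reg n0 n1) (fun x hx => (trC_reg' σ (X.C z) k n0 n1).2 hx) ?_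
    rw [hk]
    exact hp

theorem actR_lift {V : ∀ z, Set (S z)} {k : G ⧸ G0} {x : G0} (hx : (liftR h X).ActR (fun z => V z.2) (σ.ρ k * x)) :
    X.ActR V x := by
  obtain ⟨z, m, s, i, h1, h2, h3, h4, h5⟩ := hx
  exact ⟨z.2, m, s, i, h1, h2, h3, h4, (σ.inj h5).2⟩

theorem ev_lift (k : G ⧸ G0) (z : Zr) (p : S z × Bool) : (liftR h X).ev (k, z) p = σ.ρ k * (X.ev z p : G0) := by
  obtain ⟨s, _ | _⟩ := p
  · rfl
  · rfl

/-! ### The regions -/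

variable {V : ∀ z, Set (S z)} {Λ : ∀ z, SimpleGraph (V z)}

/-- The region of a coset. -/
def rg (V : ∀ z, Set (S z)) (Λ : ∀ z, SimpleGraph (V z)) (k : G ⧸ G0) (r : Σ z, Rgs.KC V Λ z) :
    Σ z : (G ⧸ G0) × Zr, Rgs.KC (S := fun z : (G ⧸ G0) × Zr => S z.2) (fun z => V z.2) (fun z => Λ z.2) z :=
  ⟨(k, r.1), r.2⟩

/-- The port of a coset. -/
def prt (V : ∀ z, Set (S z)) (Λ : ∀ z, SimpleGraph (V z)) (k : G ⧸ G0) (p : Σ r, Po V Λ r) :
    Σ r, Po (S := fun z : (G ⧸ G0) × Zr => S z.2) (fun z => V z.2) (fun z => Λ z.2) r :=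
  ⟨rg V Λ k p.1, p.2⟩

theorem rg_inj (k : G ⧸ G0) : Injective (rg V Λ k) := by
  rintro ⟨z, κ⟩ ⟨z', κ'⟩ h
  have h1 : z = z' := congrArg (fun r => r.1.2) h
  subst h1
  have h2 : κ = κ' := eq_of_heq (Sigma.mk.inj h).2
  rw [h2]

theorem prt_inj (k : G ⧸ G0) : Injective (prt V Λ k) := by
  rintro ⟨r, p⟩ ⟨r', p'⟩ h
  have h1 : r = r' := rg_inj k (congrArg (fun r => r.1) h)
  subst h1
  have h2 : p = p' := eq_of_heq (Sigma.mk.inj h).2
  rw [h2]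

theorem padj_lift (k : G ⧸ G0) {p q : Σ r, Po V Λ r} (hp : PAdj X V Λ p q) :
    PAdj (liftR h X) (fun z => V z.2) (fun z => Λ z.2) (prt V Λ k p) (prt V Λ k q) := by
  refine ⟨fun h1 => hp.1 (prt_inj k h1), ?_⟩
  have h1 := ev_lift h X k p.1.1 (p.2.1.1.1, p.2.2)
  have h2 := ev_lift h X k q.1.1 (q.2.1.1.1, q.2.2)
  have h3 := h.cn (k := k) (T := {x | ¬ X.ActR V x}) (T' := {x | ¬ (liftR h X).ActR (fun z => V z.2) x})
    (fun x hx hc => hx (actR_lift h X hc)) hp.2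
  rw [← h1, ← h2] at h3
  exact h3

theorem conn_lift {ξ : Zr → Unit} (hc : ∀ c : Unit, Cls (PAdj X V Λ) {r | ξ r.1 = c}) (k : G ⧸ G0) :
    Cls (PAdj (liftR h X) (fun z => V z.2) (fun z => Λ z.2)) {r | r.1.1 = k} := by
  have h1 := cls_map (rg V Λ k) (rg_inj k) (prt V Λ k) (prt_inj k) (fun _ => rfl)
    (fun p q hp => padj_lift h X k hp) (hc ())
  have h2 : rg V Λ k '' {r | ξ r.1 = ()} = {r | r.1.1 = k} := by
    ext r
    constructor
    · rintro ⟨r0, -, rfl⟩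
      rfl
    · intro h3
      obtain ⟨⟨k', z⟩, κ⟩ := r
      have h3 : k' = k := h3
      subst h3
      exact ⟨⟨z, κ⟩, rfl, rfl⟩
  rw [h2] at h1
  exact h1

/-- THE BASE on all cosets. -/
theorem baseT_lift {A : Set G} {A0 : Set G0} (hA0 : ∀ x ∈ A0, (x : G) ∈ A) {c : ℕ} {W : ∀ z, Set (S z)} {U : Zr → G0}
    {nb mm gap : Zr → ℕ} {ξ : Zr → Unit} [i0 : ∀ z, DecidableEq (S z)] [i1 : ∀ z : (G ⧸ G0) × Zr, DecidableEq (S z.2)]
    (b : BaseT A0 c X V W Λ U nb mm gap ξ) :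
    BaseT A c (liftR h X) (fun z => V z.2) (fun z => W z.2) (fun z => Λ z.2)
      (fun z => σ.ρ z.1 * (U z.2 : G) * (σ.ρ z.1)⁻¹) (fun z => nb z.2) (fun z => mm z.2) (fun z => gap z.2)
      (fun z => z.1) where
  per := per_lift h X b.per
  far z z' m s i m' s' i' hne hm hi hm' hi' e := by
    obtain ⟨h1, h2⟩ := σ.inj e
    exact b.far z.2 z'.2 m s i m' s' i' (fun h3 => hne (Prod.ext h1 h3)) hm hi hm' hi' h2
  mpos z := b.mpos z.2
  mnb z := b.mnb z.2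
  iso z := b.iso z.2
  four z := b.four z.2
  p3 z x y y' h1 h2 h3 := by
    have h4 := stkT_sub (D0_lift h X hA0 z.1 z.2) (b.p3 z.2 x y y' h1 h2 h3)
    have h5 : i1 z = i0 z.2 := Subsingleton.elim _ _
    rw [h5]
    exact h4
  flush x := by
    obtain ⟨k, x0, rfl⟩ := σ.exists_eq x
    obtain ⟨z, m, s, i, h1, h2, h3, h4⟩ := b.flush x0
    exact ⟨(k, z), m, s, i, h1, h2, h3, h.c h4⟩
  WV z := b.WV z.2
  out3 z := b.out3 z.2
  conn k := conn_lift h X b.conn k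
  gapb z := b.gapb z.2
  len z := b.len z.2

end sec

end Pool.Agent.Lib.MP_688fd0_co.SQ5.H98
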