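import Pool.Agent.Lib.MP_688fd0_co.SQ5.H98.Transp
import Pool.Agent.Lib.MP_688fd0_co.SQ5.H85.ThrX
import Pool.Agent.Lib.MP_688fd0_co.SQ5.H95.Inst

/-!
FT, row TRANSP, part 2 (helper98): the run charts of the subgroup `G0` lift to the run charts of `G`.

`Emb.sub`, `Emb.up`: labels; `isLift_gF`, `isLift_gf`, `isLift_ff`: the 2-factor of the layout; `subL`: helper85's `SubC` of the lift. MAIN: `base_all`.
-/

set_option autoImplicit false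

namespace Pool.Agent.Lib.MP_688fd0_co.SQ5.H98

open Function Pool.Agent.Lib.MP_688fd0_co.OSF H64 H95 FT Pool.Agent.Lib.MP_688fd0_co.SQ5.H76
  Pool.Agent.Lib.MP_688fd0_co.SQ5.H85

universe u v w

/-! ### Homomorphisms and words -/

section hom

variable {Q Q0 : Type*} [Group Q] [Group Q0] (ψ : Q0 →* Q)

theorem map_pr (f : ℤ → Q0) (m : ℤ) (n : ℕ) : ψ (H20.pr f m n) = H20.pr (fun i => ψ (f i)) m n := by
  induction n with
  | zero => exact map_one ψ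
  | succ n ih =>
    show ψ (H20.pr f m n * f (m + n)) = H20.pr (fun i => ψ (f i)) m n * ψ (f (m + n))
    rw [map_mul, ih]

theorem map_gz (f : ℤ → Q0) (m n : ℤ) : ψ (gz f m n) = gz (fun i => ψ (f i)) m n := by
  unfold gz
  split_ifs
  · exact map_pr ψ f m _
  · rw [map_inv, map_pr]

variable {q0 : L3 → Q0} {q : L3 → Q} (h : ∀ i, ψ (q0 i) = q i)

include h in
theorem map_lw (b : Bool) (r : ℕ) : ψ (Bd.lw q0 b r) = Bd.lw q b r := by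
  induction r with
  | zero => exact map_one ψ
  | succ r ih => rw [Bd.lw_succ, Bd.lw_succ, map_mul, ih, h]

include h in
theorem map_pos (D : Bd) (s0 κ m : ℤ) (r : ℕ) : ψ (D.pos q0 s0 κ m r) = D.pos q s0 κ m r := by
  unfold Bd.pos
  rw [map_mul, map_gz, map_lw ψ h]
  congr 2
  funext s
  unfold Bd.stp
  rw [map_mul, map_lw ψ h, h]

end hom

/-! ### Labels -/

section lab

variable {G : Type} [Group G] {G0 : Subgroup G} {B : Lb.{0, v} G} {B0 : Lb.{0, v} G0}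

/-- The labels with value in the subgroup. -/
def subLb (B : Lb.{0, v} G) (G0 : Subgroup G) : Lb.{0, v} G0 where
  L := {l : B.L // B.q l ∈ G0}
  q l := ⟨B.q l.1, l.2⟩
  inv l := ⟨B.inv l.1, by rw [B.q_inv]; exact G0.inv_mem l.2⟩
  q_inv l := Subtype.ext (B.q_inv l.1)
  ne_one l h := B.ne_one l.1 (congrArg Subtype.val h)

/-- The labels with value in the subgroup. -/
def Emb.sub (B : Lb.{0, v} G) (G0 : Subgroup G) : Emb B (subLb B G0) where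
  φ := Subtype.val
  inj := Subtype.val_injective
  q _ := rfl
  inv _ := rfl

/-- Fictitious labels. -/
def Emb.up (e : Emb B B0) : Emb (LbF B) B0 where
  φ l := Sum.inl (e.φ l)
  inj := Sum.inl_injective.comp e.inj
  q l := e.q l
  inv l := congrArg Sum.inl (e.inv l)

theorem Emb.ii (e : Emb B B0) (h : ∀ l, B.inv (B.inv l) = l) (l : B0.L) : B0.inv (B0.inv l) = l := by
  apply e.inj
  rw [e.inv, e.inv, h]

end lab

/-! ### The 2-factor of the layout -/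

theorem injL {Q : Type u} [Group Q] {B : Lb.{u, v} Q} {l : L3 → B.L} (hq : Injective (qq B l)) : Injective l :=
  fun _ _ h => hq (congrArg B.q h)

section cov

variable {G : Type} [Group G] {G0 : Subgroup G} {B : Lb.{0, v} G} {B0 : Lb.{0, v} G0} {σ : Sec G0} {e : Emb B B0}
  {l : L3 → B.L} {l0 : L3 → B0.L} {L : AddSubgroup (ℤ × ℤ)} (c : Cov B l L) (c0 : Cov B0 l0 L)

/-- The lifted covering. -/
noncomputable def covL (σ : Sec G0) (e : Emb B B0) (hl : ∀ i, l i = e.φ (l0 i)) (c0 : Cov B0 l0 L) : Cov B l L where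
  st x := c0.st (σ.tl x)
  hst x i := by
    have e1 : σ.tl (x * B.q (l i)) = σ.tl x * B0.q (l0 i) := by
      rw [hl, e.q]
      exact σ.tl_step x _
    rw [e1]
    exact c0.hst _ i

theorem covL_over (hl : ∀ i, l i = e.φ (l0 i)) (k : G ⧸ G0) (x : G0) (v : V) :
    (covL σ e hl c0).Over (σ.ρ k * x) v ↔ c0.Over x v := by
  show EqL L (c0.st (σ.tl (σ.ρ k * x))) v ↔ EqL L (c0.st x) v
  rw [σ.tl_mul]

variable {c c0} (hov : ∀ (k : G ⧸ G0) (x : G0) (v : V), c.Over (σ.ρ k * x) v ↔ c0.Over x v)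
  {M R : ℕ} {dc : ℕ → ℤ} {spc : ℕ → Prop} {Gr : ℤ} (g : Geo L M R dc spc Gr)

include hov in
theorem mt_lift (k : G ⧸ G0) (x : G0) : g.mt c (σ.ρ k * x) = g.mt c0 x := by
  rw [g.mt_over c ((hov k x _).2 (c0.over_st x))]
  rfl

variable (hl : ∀ i, l i = e.φ (l0 i))

include hov hl in
theorem isLift_of {F : HF B} {F0 : HF B0} (hF : ∀ x, F.H x = {b | ∃ i, i ≠ g.mt c x ∧ b = l i})
    (hF0 : ∀ x, F0.H x = {b | ∃ i, i ≠ g.mt c0 x ∧ b = l0 i}) : IsLift σ e F fun _ => F0 := by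
  intro x
  obtain ⟨k, x0, rfl⟩ := σ.exists_eq x
  rw [σ.tl_mul, hF, hF0, mt_lift hov]
  ext b
  constructor
  · rintro ⟨i, h1, rfl⟩
    exact ⟨l0 i, ⟨i, h1, rfl⟩, (hl i).symm⟩
  · rintro ⟨_, ⟨i, h1, rfl⟩, rfl⟩
    exact ⟨i, h1, (hl i).symm⟩

variable (hlj : Injective l) (hi : ∀ i, B.inv (l i) = l i) (hii : ∀ x, B.inv (B.inv x) = x) (hlj0 : Injective l0)
  (hi0 : ∀ i, B0.inv (l0 i) = l0 i) (hii0 : ∀ x, B0.inv (B0.inv x) = x) (hq : Injective (qq B l))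
  (hq0 : Injective (qq B0 l0))

include hov hl in
theorem isLift_gF : IsLift σ e (g.F c hlj hi hii) fun _ => g.F c0 hlj0 hi0 hii0 :=
  isLift_of hov g hl (fun _ => rfl) (fun _ => rfl)

include hov hl in
theorem isLift_gf : IsLift σ e (g.F c hlj hi hii) fun _ => ff c0 hi0 hq0 hii0 g :=
  isLift_of hov g hl (fun _ => rfl) (fun x => g.mch_hf c0 (injL hq0) hi0 hq0 hii0 x)

include hov hl in
theorem isLift_ff : IsLift σ e (ff c hi hq hii g) fun _ => ff c0 hi0 hq0 hii0 g :=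
  isLift_of hov g hl (fun x => g.mch_hf c (injL hq) hi hq hii x) (fun x => g.mch_hf c0 (injL hq0) hi0 hq0 hii0 x)

end cov

/-! ### helper85's `SubC` -/

section sub

variable {G : Type} [Group G] {G0 : Subgroup G} {B : Lb.{0, v} G} {B0 : Lb.{0, v} G0} {σ : Sec G0} {e : Emb B B0}
  {l : L3 → B.L} {l0 : L3 → B0.L} {L : AddSubgroup (ℤ × ℤ)} {c : Cov B l L} {c0 : Cov B0 l0 L}
  {M R : ℕ} {dc : ℕ → ℤ} {spc : ℕ → Prop} {Gr : ℤ} {g : Geo L M R dc spc Gr} {m0 : ℕ} {hw : ℤ → ℕ}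
  {H : Geo.Mn g m0 hw} {κ0 κ1 : ℤ}

/-- The lift of `SubC`. -/
noncomputable def subL (hov : ∀ (k : G ⧸ G0) (x : G0) (v : V), c.Over (σ.ρ k * x) v ↔ c0.Over x v)
    (hl : ∀ i, l i = e.φ (l0 i)) {F : HF B} {F0 : HF B0} (hF : IsLift σ e F fun _ => F0) {Z : Type} {S : Z → Type}
    {N : Z → ℕ} {X : Rgs F0 Z S N} {zr : Z → ℤ} (Y : SubC H c0 κ0 κ1 (fun _ : G0 => ()) X (fun _ => ()) zr) :
    SubC H c κ0 κ1 (fun x : G => (x : G ⧸ G0)) (liftR hF X) (fun z => z.1) (fun z => zr z.2) where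
  ι z s := ⟨((Y.ι z.2 s).1.1, σ.ρ z.1 * ((Y.ι z.2 s).1.2 : G0)), (Y.ι z.2 s).2.1, (Y.ι z.2 s).2.2.1,
    (hov _ _ _).2 (Y.ι z.2 s).2.2.2⟩
  Z z m s r := by
    show σ.ρ z.1 * (((X.C z.2).Z m s r : G0) : G) =
      σ.ρ z.1 * ((Y.ι z.2 s).1.2 : G) * (H.bd (zr z.2)).pos (qq B l) (g.rs (zr z.2)) (Y.ι z.2 s).1.1 m r
    rw [Y.Z]
    show σ.ρ z.1 * (((Y.ι z.2 s).1.2 * (H.bd (zr z.2)).pos (qq B0 l0) (g.rs (zr z.2)) (Y.ι z.2 s).1.1 m r : G0) : G) = _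
    rw [Subgroup.coe_mul, ← mul_assoc]
    have h1 := map_pos (q0 := qq B0 l0) (q := qq B l) G0.subtype (fun i => by
      show ((B0.q (l0 i) : G0) : G) = B.q (l i)
      rw [hl, e.q]) (H.bd (zr z.2)) (g.rs (zr z.2)) (Y.ι z.2 s).1.1 m r
    rw [← h1]
    rfl
  h z m s := Y.h z.2 m s
  hit z s' hs := by
    obtain ⟨k, x0, hx⟩ := σ.exists_eq s'.1.2
    have hk : k = z.1 := by
      have hs : ((s'.1.2 : G) : G ⧸ G0) = z.1 := hs
      rw [← hs, hx, σ.mk_mul]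
    have h1 : c.Over (σ.ρ k * x0) ((H.bd (zr z.2)).st s'.1.1 (g.rs (zr z.2)) 0) := by
      rw [← hx]
      exact s'.2.2.2
    obtain ⟨s, h2⟩ := Y.hit z.2 ⟨(s'.1.1, x0), s'.2.1, s'.2.2.1, (hov _ _ _).1 h1⟩ rfl
    refine ⟨s, Subtype.ext (Prod.ext ?_ ?_)⟩
    · show (Y.ι z.2 s).1.1 = s'.1.1
      rw [h2]
    · show σ.ρ z.1 * ((Y.ι z.2 s).1.2 : G) = s'.1.2
      rw [h2]
      show σ.ρ z.1 * (x0 : G) = s'.1.2
      rw [← hk]
      exact hx.symm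
  cι z s := σ.mk_mul _ _
  inj z z' h1 h2 := Prod.ext h1 (Y.inj z.2 z'.2 rfl h2)
  ex k z h0 h1 := by
    obtain ⟨z', -, h3⟩ := Y.ex () z h0 h1
    exact ⟨(k, z'), rfl, h3⟩

variable (hi0 : ∀ i, B0.inv (l0 i) = l0 i) (hq0 : Injective (qq B0 l0)) (hii0 : ∀ x, B0.inv (B0.inv x) = x)

/-- `SubC` for helper95's instance, one coset. -/
noncomputable def subI (h0 : 2 ≤ κ0) (h1 : κ1 ≤ m0) (p : ℕ) (hp : 2 ≤ p) (hN : ∀ z : Zr g, p ≤ g.rE z) :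
    SubC H c0 κ0 κ1 (fun _ : G0 => ()) (inst H c0 hi0 hq0 hii0 κ0 κ1 h0 h1 p hp hN) (fun _ => ()) (fun z => (z : ℤ)) where
  ι _ s := s
  Z _ _ _ _ := rfl
  h _ _ _ := rfl
  hit _ s' _ := ⟨s', rfl⟩
  cι _ _ := rfl
  inj _ _ _ h := Subtype.ext h
  ex _ z h0 h1 := ⟨⟨z, h0, h1⟩, rfl, rfl⟩

/-- THE BASE ON ALL COSETS from the base on `G0`: helper95's instance on `G0`, helper85's `SubC` on `G`. -/
theorem base_all (hov : ∀ (k : G ⧸ G0) (x : G0) (v : V), c.Over (σ.ρ k * x) v ↔ c0.Over x v)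
    (hl : ∀ i, l i = e.φ (l0 i)) (hlj : Injective l) (hi : ∀ i, B.inv (l i) = l i) (hii : ∀ x, B.inv (B.inv x) = x)
    {A : Set G} {A0 : Set G0} (hA0 : ∀ x ∈ A0, (x : G) ∈ A) {cS : ℕ} {h0 : 2 ≤ κ0} {h1 : κ1 ≤ m0} {p : ℕ} {hp : 2 ≤ p}
    {hN : ∀ z : Zr g, p ≤ g.rE z} {V W : ∀ z : Zr g, Set (SS c0 H κ0 κ1 z)} {Λ : ∀ z, SimpleGraph (V z)} {U : Zr g → G0}
    {nb mm gap : Zr g → ℕ} {ξ : Zr g → Unit} [∀ z : Zr g, DecidableEq (SS c0 H κ0 κ1 z)]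
    (b : BaseT A0 cS (inst H c0 hi0 hq0 hii0 κ0 κ1 h0 h1 p hp hN) V W Λ U nb mm gap ξ) {kk : ℤ}
    (hW : ∀ z s, s ∈ W z ↔ kk + 1 ≤ s.1.1 ∧ s.1.1 ≤ kk + 2) :
    ∃ (X : Rgs (g.F c hlj hi hii) ((G ⧸ G0) × Zr g) (fun z => SS c0 H κ0 κ1 z.2) (fun z => g.rE z.2 / p))
      (Y : SubC H c κ0 κ1 (fun x : G => (x : G ⧸ G0)) X (fun z => z.1) (fun z => (z.2 : ℤ))),
      (∀ z, X.l z = p - 1) ∧ BaseT A cS X (fun z => V z.2) (Y.W kk) (fun z => Λ z.2)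
        (fun z => σ.ρ z.1 * (U z.2 : G) * (σ.ρ z.1)⁻¹) (fun z => nb z.2) (fun z => mm z.2) (fun z => gap z.2)
        (fun z => z.1) := by
  have hF : IsLift σ e (g.F c hlj hi hii) fun _ => ff c0 hi0 hq0 hii0 g := isLift_gf hov g hl hlj hi hii hi0 hii0 hq0
  refine ⟨liftR hF (inst H c0 hi0 hq0 hii0 κ0 κ1 h0 h1 p hp hN), subL hov hl hF (subI hi0 hq0 hii0 h0 h1 p hp hN), fun _ => rfl, ?_⟩
  have h2 : (fun z : (G ⧸ G0) × Zr g => W z.2) = (subL hov hl hF (subI hi0 hq0 hii0 h0 h1 p hp hN)).W kk := by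
    funext z
    ext s
    exact hW z.2 s
  rw [← h2]
  exact baseT_lift hF _ hA0 b

end sub

end Pool.Agent.Lib.MP_688fd0_co.SQ5.H98
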